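import Mathlib

set_option linter.unusedSectionVars false

open Finset

namespace Pool.Agent.H94.CC

variable {α β ι : Type*} [DecidableEq α] [DecidableEq β] [DecidableEq ι]

/-- Expectation of `F` at a `p`-random subset of `A`. -/
noncomputable def Ex (p : ℝ) (A : Finset α) (F : Finset α → ℝ) : ℝ :=
  ∑ S ∈ A.powerset, p ^ #S * (1 - p) ^ (#A - #S) * F S

lemma Ex_empty (p : ℝ) (F : Finset α → ℝ) : Ex p ∅ F = F ∅ := by
  simp [Ex]

lemma Ex_insert (p : ℝ) {A : Finset α} {e : α} (he : e ∉ A) (F : Finset α → ℝ) :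
    Ex p (insert e A) F = (1 - p) * Ex p A F + p * Ex p A (fun S => F (insert e S)) := by
  unfold Ex
  rw [powerset_insert, sum_union, sum_image]
  · congr 1
    · rw [mul_sum]
      apply sum_congr rfl
      intro S hS
      rw [mem_powerset] at hS
      rw [card_insert_of_notMem he]
      have : #S ≤ #A := card_le_card hS
      rw [show #A + 1 - #S = (#A - #S) + 1 by omega, pow_succ]
      ring
    · rw [mul_sum]
      apply sum_congr rfl
      intro S hS
      rw [mem_powerset] at hS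
      have heS : e ∉ S := fun h => he (hS h)
      rw [card_insert_of_notMem he, card_insert_of_notMem heS]
      rw [show #A + 1 - (#S + 1) = (#A - #S) by omega, pow_succ]
      ring
  · intro S hS S' hS' h
    simp only [coe_powerset, Set.mem_preimage, Set.mem_powerset_iff, coe_subset] at hS hS'
    have h1 : e ∉ S := fun h => he (hS h)
    have h2 : e ∉ S' := fun h => he (hS' h)
    rw [← erase_insert h1, ← erase_insert h2, h]
  · rw [disjoint_left]
    intro S hS hS'
    rw [mem_powerset] at hS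
    rw [mem_image] at hS'
    obtain ⟨S', _, rfl⟩ := hS'
    exact he (hS (mem_insert_self _ _))

lemma Ex_congr (p : ℝ) (A : Finset α) {F G : Finset α → ℝ} (h : ∀ S ⊆ A, F S = G S) :
    Ex p A F = Ex p A G := by
  unfold Ex
  apply sum_congr rfl
  intro S hS
  rw [h S (mem_powerset.1 hS)]

lemma Ex_mono {p : ℝ} (h0 : 0 ≤ p) (h1 : p ≤ 1) (A : Finset α) {F G : Finset α → ℝ}
    (h : ∀ S ⊆ A, F S ≤ G S) : Ex p A F ≤ Ex p A G := by
  unfold Ex
  apply sum_le_sum
  intro S hS
  apply mul_le_mul_of_nonneg_left (h S (mem_powerset.1 hS))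
  have : 0 ≤ 1 - p := by linarith
  positivity

lemma Ex_nonneg {p : ℝ} (h0 : 0 ≤ p) (h1 : p ≤ 1) (A : Finset α) {F : Finset α → ℝ}
    (h : ∀ S ⊆ A, 0 ≤ F S) : 0 ≤ Ex p A F := by
  unfold Ex
  apply sum_nonneg
  intro S hS
  have : 0 ≤ 1 - p := by linarith
  have := h S (mem_powerset.1 hS)
  positivity

lemma Ex_add (p : ℝ) (A : Finset α) (F G : Finset α → ℝ) :
    Ex p A (fun S => F S + G S) = Ex p A F + Ex p A G := by
  unfold Ex
  rw [← sum_add_distrib]
  apply sum_congr rfl
  intro S _; ring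

lemma Ex_sub (p : ℝ) (A : Finset α) (F G : Finset α → ℝ) :
    Ex p A (fun S => F S - G S) = Ex p A F - Ex p A G := by
  unfold Ex
  rw [← sum_sub_distrib]
  apply sum_congr rfl
  intro S _; ring

lemma Ex_mul_left (p : ℝ) (A : Finset α) (c : ℝ) (F : Finset α → ℝ) :
    Ex p A (fun S => c * F S) = c * Ex p A F := by
  unfold Ex
  rw [mul_sum]
  apply sum_congr rfl
  intro S _; ring

lemma Ex_mul_right (p : ℝ) (A : Finset α) (c : ℝ) (F : Finset α → ℝ) :
    Ex p A (fun S => F S * c) = Ex p A F * c := by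
  unfold Ex
  rw [sum_mul]
  apply sum_congr rfl
  intro S _; ring

lemma Ex_sum (p : ℝ) (A : Finset α) (I : Finset ι) (F : ι → Finset α → ℝ) :
    Ex p A (fun S => ∑ i ∈ I, F i S) = ∑ i ∈ I, Ex p A (F i) := by
  unfold Ex
  rw [sum_comm]
  apply sum_congr rfl
  intro S _
  rw [mul_sum]

lemma Ex_const (p : ℝ) (A : Finset α) (c : ℝ) : Ex p A (fun _ => c) = c := by
  induction A using Finset.induction_on with
  | empty => rw [Ex_empty]
  | insert e A he ih => rw [Ex_insert p he, ih]; ring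

lemma Ex_union (p : ℝ) {A B : Finset α} (hAB : Disjoint A B) (F : Finset α → ℝ) :
    Ex p (A ∪ B) F = Ex p A (fun S => Ex p B (fun S' => F (S ∪ S'))) := by
  induction A using Finset.induction_on generalizing F with
  | empty => simp [Ex_empty]
  | insert e A he ih =>
    rw [disjoint_insert_left] at hAB
    have h1 : e ∉ A ∪ B := by
      rw [mem_union]; push Not; exact ⟨he, hAB.1⟩
    rw [insert_union, Ex_insert p h1, Ex_insert p he, ih hAB.2, ih hAB.2]
    simp only [insert_union]

/-- `F` only depends on the part inside `B`. -/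
def LocalOn (B : Finset α) (F : Finset α → ℝ) : Prop := ∀ S, F S = F (S ∩ B)

lemma LocalOn.mono {B B' : Finset α} {F : Finset α → ℝ} (h : LocalOn B F) (hB : B ⊆ B') :
    LocalOn B' F := by
  intro S
  rw [h S, h (S ∩ B')]
  congr 1
  rw [inter_assoc, inter_eq_right.2 hB]

lemma LocalOn.mul {B : Finset α} {F G : Finset α → ℝ} (hF : LocalOn B F) (hG : LocalOn B G) :
    LocalOn B (fun S => F S * G S) := fun S => by
  show F S * G S = F (S ∩ B) * G (S ∩ B)
  rw [← hF S, ← hG S]

lemma Ex_local (p : ℝ) {A B : Finset α} (hBA : B ⊆ A) {F : Finset α → ℝ} (hF : LocalOn B F) :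
    Ex p A F = Ex p B F := by
  have h1 : A = B ∪ (A \ B) := (union_sdiff_of_subset hBA).symm
  have h2 : Disjoint B (A \ B) := disjoint_sdiff
  rw [h1, Ex_union p h2]
  apply Ex_congr
  intro S hS
  have : ∀ S' ⊆ A \ B, F (S ∪ S') = F S := by
    intro S' hS'
    rw [hF, hF S]
    congr 1
    rw [union_inter_distrib_right]
    have h3 : S' ∩ B = ∅ := by
      rw [← disjoint_iff_inter_eq_empty]
      exact (disjoint_of_subset_right hS' h2).symm
    rw [h3, union_empty]
  rw [Ex_congr p _ this, Ex_const]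

lemma Ex_mul (p : ℝ) {A B C : Finset α} (hBA : B ⊆ A) (hCA : C ⊆ A) (hBC : Disjoint B C)
    {F G : Finset α → ℝ} (hF : LocalOn B F) (hG : LocalOn C G) :
    Ex p A (fun S => F S * G S) = Ex p A F * Ex p A G := by
  have hFG : LocalOn (B ∪ C) (fun S => F S * G S) := by
    exact (hF.mono subset_union_left).mul (hG.mono subset_union_right)
  rw [Ex_local p (union_subset hBA hCA) hFG, Ex_union p hBC]
  have h1 : ∀ S ⊆ B, Ex p C (fun S' => F (S ∪ S') * G (S ∪ S')) = F S * Ex p C G := by
    intro S hS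
    rw [← Ex_mul_left]
    apply Ex_congr
    intro S' hS'
    have e1 : F (S ∪ S') = F S := by
      rw [hF, hF S]; congr 1
      rw [union_inter_distrib_right]
      have h3 : S' ∩ B = ∅ := by
        rw [← disjoint_iff_inter_eq_empty]
        exact (disjoint_of_subset_right hS' hBC).symm
      rw [h3, union_empty]
    have e2 : G (S ∪ S') = G S' := by
      rw [hG, hG S']; congr 1
      rw [union_inter_distrib_right]
      have h3 : S ∩ C = ∅ := by
        rw [← disjoint_iff_inter_eq_empty]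
        exact (disjoint_of_subset_left hS hBC)
      rw [h3, empty_union]
    rw [e1, e2]
  rw [Ex_congr p B h1, Ex_mul_right, Ex_local p hBA hF, Ex_local p hCA hG]

lemma LocalOn.const (B : Finset α) (c : ℝ) : LocalOn B (fun _ => c) := fun _ => rfl

lemma LocalOn.prod {B : ι → Finset α} {F : ι → Finset α → ℝ} (I : Finset ι)
    (hF : ∀ i ∈ I, LocalOn (B i) (F i)) :
    LocalOn (I.biUnion B) (fun S => ∏ i ∈ I, F i S) := by
  intro S
  apply prod_congr rfl
  intro i hi
  exact ((hF i hi).mono (subset_biUnion_of_mem B hi)) S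

lemma Ex_prod (p : ℝ) {A : Finset α} {B : ι → Finset α} {F : ι → Finset α → ℝ} (I : Finset ι)
    (hF : ∀ i ∈ I, LocalOn (B i) (F i)) (hBA : ∀ i ∈ I, B i ⊆ A)
    (hdisj : ∀ i ∈ I, ∀ j ∈ I, i ≠ j → Disjoint (B i) (B j)) :
    Ex p A (fun S => ∏ i ∈ I, F i S) = ∏ i ∈ I, Ex p A (F i) := by
  induction I using Finset.induction_on with
  | empty => simp [Ex_const]
  | insert i I hi ih =>
    have h1 : (fun S => ∏ j ∈ insert i I, F j S) = fun S => F i S * ∏ j ∈ I, F j S := by
      ext S; rw [prod_insert hi]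
    rw [h1, prod_insert hi, ← ih (fun j hj => hF j (mem_insert_of_mem hj))
      (fun j hj => hBA j (mem_insert_of_mem hj))
      (fun j hj k hk => hdisj j (mem_insert_of_mem hj) k (mem_insert_of_mem hk))]
    apply Ex_mul p (hBA i (mem_insert_self _ _)) (C := I.biUnion B) _ _
      (hF i (mem_insert_self _ _)) (LocalOn.prod I fun j hj => hF j (mem_insert_of_mem hj))
    · rw [biUnion_subset]
      intro j hj; exact hBA j (mem_insert_of_mem hj)
    · rw [disjoint_biUnion_right]
      intro j hj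
      apply hdisj i (mem_insert_self _ _) j (mem_insert_of_mem hj)
      rintro rfl; exact hi hj

/-- Relabelling. -/
lemma Ex_image (p : ℝ) (A : Finset α) {f : α → β} (hf : Set.InjOn f A) (F : Finset β → ℝ) :
    Ex p (A.image f) F = Ex p A (fun S => F (S.image f)) := by
  induction A using Finset.induction_on generalizing F with
  | empty => simp [Ex_empty]
  | insert e A he ih =>
    have hA : Set.InjOn f A := hf.mono (by simp)
    have h1 : f e ∉ A.image f := by
      rw [mem_image]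
      rintro ⟨a, ha, hae⟩
      have := hf (by simp [ha]) (by simp) hae
      subst this; exact he ha
    rw [image_insert, Ex_insert p h1, Ex_insert p he, ih hA, ih hA]
    simp only [image_insert]

/-! ### Probabilities -/

open Classical in
/-- Indicator of a proposition. -/
noncomputable def ind (P : Prop) : ℝ := if P then 1 else 0

lemma ind_true {P : Prop} (h : P) : ind P = 1 := by simp [ind, h]

lemma ind_false {P : Prop} (h : ¬ P) : ind P = 0 := by simp [ind, h]

lemma ind_nonneg (P : Prop) : 0 ≤ ind P := by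
  unfold ind; split_ifs <;> norm_num

lemma ind_le_one (P : Prop) : ind P ≤ 1 := by
  unfold ind; split_ifs <;> norm_num

lemma ind_mono {P Q : Prop} (h : P → Q) : ind P ≤ ind Q := by
  by_cases hP : P
  · rw [ind_true hP, ind_true (h hP)]
  · rw [ind_false hP]; exact ind_nonneg _

lemma ind_and (P Q : Prop) : ind (P ∧ Q) = ind P * ind Q := by
  by_cases hP : P <;> by_cases hQ : Q <;> simp [ind, hP, hQ]

lemma ind_not (P : Prop) : ind (¬ P) = 1 - ind P := by
  by_cases hP : P <;> simp [ind, hP]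

lemma ind_congr {P Q : Prop} (h : P ↔ Q) : ind P = ind Q := by rw [propext h]

lemma ind_forall (I : Finset ι) (P : ι → Prop) : ind (∀ i ∈ I, P i) = ∏ i ∈ I, ind (P i) := by
  induction I using Finset.induction_on with
  | empty => simp [ind]
  | insert i I hi ih =>
    rw [prod_insert hi, ← ih, ← ind_and]
    apply ind_congr
    simp

/-- Probability of `P`. -/
noncomputable def Pr (p : ℝ) (A : Finset α) (P : Finset α → Prop) : ℝ :=
  Ex p A (fun S => ind (P S))

lemma Pr_nonneg {p : ℝ} (h0 : 0 ≤ p) (h1 : p ≤ 1) (A : Finset α) (P : Finset α → Prop) :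
    0 ≤ Pr p A P := Ex_nonneg h0 h1 A fun _ _ => ind_nonneg _

lemma Pr_mono {p : ℝ} (h0 : 0 ≤ p) (h1 : p ≤ 1) (A : Finset α) {P Q : Finset α → Prop}
    (h : ∀ S ⊆ A, P S → Q S) : Pr p A P ≤ Pr p A Q :=
  Ex_mono h0 h1 A fun S hS => ind_mono (h S hS)

lemma Pr_congr {p : ℝ} (A : Finset α) {P Q : Finset α → Prop}
    (h : ∀ S ⊆ A, (P S ↔ Q S)) : Pr p A P = Pr p A Q :=
  Ex_congr p A fun S hS => ind_congr (h S hS)

lemma Pr_le_one {p : ℝ} (h0 : 0 ≤ p) (h1 : p ≤ 1) (A : Finset α) (P : Finset α → Prop) :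
    Pr p A P ≤ 1 := by
  calc Pr p A P ≤ Ex p A (fun _ => 1) := Ex_mono h0 h1 A fun S _ => ind_le_one _
    _ = 1 := Ex_const p A 1

lemma Pr_or {p : ℝ} (h0 : 0 ≤ p) (h1 : p ≤ 1) (A : Finset α) (P Q : Finset α → Prop) :
    Pr p A (fun S => P S ∨ Q S) ≤ Pr p A P + Pr p A Q := by
  unfold Pr
  rw [← Ex_add]
  apply Ex_mono h0 h1
  intro S _
  by_cases hP : P S
  · rw [ind_true (Or.inl hP), ind_true hP]
    linarith [ind_nonneg (Q S)]
  · rw [ind_false hP, zero_add]
    exact ind_mono fun h => h.resolve_left hP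

lemma Pr_not {p : ℝ} (A : Finset α) (P : Finset α → Prop) :
    Pr p A (fun S => ¬ P S) = 1 - Pr p A P := by
  unfold Pr
  simp_rw [ind_not]
  rw [Ex_sub, Ex_const]

/-- Union bound. -/
lemma Pr_exists {p : ℝ} (h0 : 0 ≤ p) (h1 : p ≤ 1) (A : Finset α) (I : Finset ι)
    (P : ι → Finset α → Prop) :
    Pr p A (fun S => ∃ i ∈ I, P i S) ≤ ∑ i ∈ I, Pr p A (P i) := by
  unfold Pr
  rw [← Ex_sum]
  apply Ex_mono h0 h1
  intro S _
  by_cases h : ∃ i ∈ I, P i S
  · rw [ind_true h]
    obtain ⟨i, hi, hP⟩ := h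
    rw [← ind_true hP]
    exact single_le_sum (f := fun i => ind (P i S)) (fun j _ => ind_nonneg _) hi
  · rw [ind_false h]
    exact sum_nonneg fun j _ => ind_nonneg _

/-- Markov's inequality. -/
lemma Pr_markov {p : ℝ} (h0 : 0 ≤ p) (h1 : p ≤ 1) (A : Finset α) {F : Finset α → ℝ} {c : ℝ}
    (hc : 0 < c) (hF : ∀ S ⊆ A, 0 ≤ F S) :
    Pr p A (fun S => c ≤ F S) ≤ Ex p A F / c := by
  rw [le_div_iff₀ hc, Pr, ← Ex_mul_right]
  apply Ex_mono h0 h1
  intro S hS
  by_cases h : c ≤ F S
  · rw [ind_true h]; linarith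
  · rw [ind_false h, zero_mul]; exact hF S hS

/-- Local events. -/
def LocalEv (B : Finset α) (P : Finset α → Prop) : Prop := ∀ S, P S ↔ P (S ∩ B)

lemma LocalEv.localOn {B : Finset α} {P : Finset α → Prop} (h : LocalEv B P) :
    LocalOn B (fun S => ind (P S)) := fun S => ind_congr (h S)

lemma LocalEv.mono {B B' : Finset α} {P : Finset α → Prop} (h : LocalEv B P) (hB : B ⊆ B') :
    LocalEv B' P := by
  intro S
  rw [h S, h (S ∩ B')]
  rw [inter_assoc, inter_eq_right.2 hB]

lemma LocalEv.and {B : Finset α} {P Q : Finset α → Prop} (h : LocalEv B P) (h' : LocalEv B Q) :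
    LocalEv B (fun S => P S ∧ Q S) := fun S => by
  show (P S ∧ Q S) ↔ (P (S ∩ B) ∧ Q (S ∩ B))
  rw [← h S, ← h' S]

lemma LocalEv.not {B : Finset α} {P : Finset α → Prop} (h : LocalEv B P) :
    LocalEv B (fun S => ¬ P S) := fun S => by
  show (¬ P S) ↔ (¬ P (S ∩ B))
  rw [← h S]

lemma LocalEv.forall {B : Finset α} {P : ι → Finset α → Prop} (I : Set ι)
    (h : ∀ i ∈ I, LocalEv B (P i)) : LocalEv B (fun S => ∀ i ∈ I, P i S) := fun S => by
  show (∀ i ∈ I, P i S) ↔ (∀ i ∈ I, P i (S ∩ B))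
  exact forall₂_congr fun i hi => h i hi S

lemma LocalEv_subset (D : Finset α) : LocalEv D (fun S => D ⊆ S) := fun S => by
  show D ⊆ S ↔ D ⊆ S ∩ D
  rw [subset_inter_iff]; simp

lemma Pr_local (p : ℝ) {A B : Finset α} (hBA : B ⊆ A) {P : Finset α → Prop} (hP : LocalEv B P) :
    Pr p A P = Pr p B P := Ex_local p hBA hP.localOn

lemma Pr_and (p : ℝ) {A B C : Finset α} (hBA : B ⊆ A) (hCA : C ⊆ A) (hBC : Disjoint B C)
    {P Q : Finset α → Prop} (hP : LocalEv B P) (hQ : LocalEv C Q) :
    Pr p A (fun S => P S ∧ Q S) = Pr p A P * Pr p A Q := by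
  unfold Pr
  simp_rw [ind_and]
  exact Ex_mul p hBA hCA hBC hP.localOn hQ.localOn

lemma Pr_forall (p : ℝ) {A : Finset α} {B : ι → Finset α} {P : ι → Finset α → Prop} (I : Finset ι)
    (hP : ∀ i ∈ I, LocalEv (B i) (P i)) (hBA : ∀ i ∈ I, B i ⊆ A)
    (hdisj : ∀ i ∈ I, ∀ j ∈ I, i ≠ j → Disjoint (B i) (B j)) :
    Pr p A (fun S => ∀ i ∈ I, P i S) = ∏ i ∈ I, Pr p A (P i) := by
  unfold Pr
  simp_rw [ind_forall]
  exact Ex_prod p I (fun i hi => (hP i hi).localOn) hBA hdisj

lemma Pr_subset (p : ℝ) {A D : Finset α} (hD : D ⊆ A) :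
    Pr p A (fun S => D ⊆ S) = p ^ #D := by
  rw [Pr_local p hD (LocalEv_subset D)]
  unfold Pr Ex
  rw [sum_eq_single D]
  · beta_reduce
    rw [ind_true (Subset.refl D)]; simp
  · intro S hS hne
    rw [mem_powerset] at hS
    beta_reduce
    rw [ind_false fun h => hne (subset_antisymm hS h), mul_zero]
  · intro h; exact absurd (mem_powerset_self D) h

lemma Pr_disjoint (p : ℝ) {A D : Finset α} (hD : D ⊆ A) :
    Pr p A (fun S => Disjoint D S) = (1 - p) ^ #D := by
  have hloc : LocalEv D (fun S => Disjoint D S) := by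
    intro S
    constructor
    · intro h; exact h.mono_right inter_subset_left
    · intro h
      have h : Disjoint D (S ∩ D) := h
      show Disjoint D S
      rw [disjoint_left] at h ⊢
      intro a ha haS
      exact h ha (mem_inter.2 ⟨haS, ha⟩)
  rw [Pr_local p hD hloc]
  unfold Pr Ex
  rw [sum_eq_single ∅]
  · beta_reduce
    rw [ind_true (disjoint_empty_right D)]; simp
  · intro S hS hne
    rw [mem_powerset] at hS
    beta_reduce
    rw [ind_false, mul_zero]
    intro h
    apply hne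
    rw [← inter_eq_right.2 hS, ← disjoint_iff_inter_eq_empty]
    exact h
  · intro h; exact absurd (empty_mem_powerset D) h

end Pool.Agent.H94.CC
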