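import Mathlib
import Pool.Agent.H94.CC.Ex

set_option linter.unusedSectionVars false

open Finset

namespace Pool.Agent.H94.CC

variable {α β ι : Type*} [DecidableEq α] [DecidableEq β] [DecidableEq ι]

/-- Harris' inequality. -/
lemma harris {p : ℝ} (h0 : 0 ≤ p) (h1 : p ≤ 1) (A : Finset α) {F G : Finset α → ℝ}
    (hF : Antitone F) (hG : Antitone G) : Ex p A F * Ex p A G ≤ Ex p A (fun S => F S * G S) := by
  induction A using Finset.induction_on generalizing F G with
  | empty => simp [Ex_empty]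
  | insert e A he ih =>
    have hF' : Antitone (fun S => F (insert e S)) := fun S T h => hF (insert_subset_insert e h)
    have hG' : Antitone (fun S => G (insert e S)) := fun S T h => hG (insert_subset_insert e h)
    have i1 := ih hF hG
    have i2 := ih hF' hG'
    have m1 : Ex p A (fun S => F (insert e S)) ≤ Ex p A F :=
      Ex_mono h0 h1 A fun S _ => hF (subset_insert e S)
    have m2 : Ex p A (fun S => G (insert e S)) ≤ Ex p A G :=
      Ex_mono h0 h1 A fun S _ => hG (subset_insert e S)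
    rw [Ex_insert p he, Ex_insert p he, Ex_insert p he]
    set f0 := Ex p A F
    set g0 := Ex p A G
    set f1 := Ex p A (fun S => F (insert e S))
    set g1 := Ex p A (fun S => G (insert e S))
    have hq : 0 ≤ 1 - p := by linarith
    have key : ((1 - p) * f0 + p * f1) * ((1 - p) * g0 + p * g1) ≤
        (1 - p) * (f0 * g0) + p * (f1 * g1) := by
      have : 0 ≤ p * (1 - p) * ((f0 - f1) * (g0 - g1)) :=
        mul_nonneg (mul_nonneg h0 hq) (mul_nonneg (by linarith) (by linarith))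
      nlinarith
    refine key.trans ?_
    have a1 := mul_le_mul_of_nonneg_left i1 hq
    have a2 := mul_le_mul_of_nonneg_left i2 h0
    linarith

lemma harris' {p : ℝ} (h0 : 0 ≤ p) (h1 : p ≤ 1) (A : Finset α) {F G : Finset α → ℝ}
    (hF : Monotone F) (hG : Antitone G) : Ex p A (fun S => F S * G S) ≤ Ex p A F * Ex p A G := by
  have h := harris h0 h1 A (F := fun S => -F S) (G := G) (fun S T hST => neg_le_neg (hF hST)) hG
  have e1 : Ex p A (fun S => -F S) = - Ex p A F := by
    have := Ex_mul_left p A (-1) F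
    simpa using this
  have e2 : Ex p A (fun S => -F S * G S) = - Ex p A (fun S => F S * G S) := by
    have := Ex_mul_left p A (-1) (fun S => F S * G S)
    simpa using! this
  rw [e1, e2] at h
  linarith

lemma Pr_mono_anti {p : ℝ} (h0 : 0 ≤ p) (h1 : p ≤ 1) (A : Finset α) {P Q : Finset α → Prop}
    (hP : ∀ S T, S ⊆ T → P S → P T) (hQ : ∀ S T, S ⊆ T → Q T → Q S) :
    Pr p A (fun S => P S ∧ Q S) ≤ Pr p A P * Pr p A Q := by
  unfold Pr
  simp_rw [ind_and]
  exact harris' h0 h1 A (fun S T h => ind_mono (hP S T h)) (fun S T h => ind_mono (hQ S T h))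

/-- No edge set of the family `a i`, `i ∈ I`, is contained in the random set. -/
def NoneIn (I : Finset ι) (a : ι → Finset α) (S : Finset α) : Prop := ∀ i ∈ I, ¬ a i ⊆ S

lemma NoneIn_anti (I : Finset ι) (a : ι → Finset α) : ∀ S T, S ⊆ T → NoneIn I a T → NoneIn I a S :=
  fun _ _ h hT i hi hS => hT i hi (hS.trans h)

lemma NoneIn_local {I : Finset ι} {a : ι → Finset α} {B : Finset α} (h : ∀ i ∈ I, a i ⊆ B) :
    LocalEv B (NoneIn I a) := by
  intro S
  unfold NoneIn
  constructor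
  · intro h1 i hi h2
    exact h1 i hi (h2.trans inter_subset_left)
  · intro h1 i hi h2
    exact h1 i hi (subset_inter h2 (h i hi))

/-- The correlation term of Janson's inequality. -/
noncomputable def corr (p : ℝ) (I : Finset ι) (a : ι → Finset α) : ℝ :=
  ∑ i ∈ I, ∑ j ∈ I, if i ≠ j ∧ ¬ Disjoint (a i) (a j) then p ^ #(a i ∪ a j) else 0

lemma corr_insert (p : ℝ) {I : Finset ι} (a : ι → Finset α) {i : ι} (hi : i ∉ I) :
    corr p (insert i I) a = corr p I a +
      2 * ∑ j ∈ I.filter (fun j => ¬ Disjoint (a i) (a j)), p ^ #(a i ∪ a j) := by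
  unfold corr
  rw [sum_insert hi, sum_insert hi]
  have h1 : ∀ j ∈ I, (∑ k ∈ insert i I, if j ≠ k ∧ ¬ Disjoint (a j) (a k) then p ^ #(a j ∪ a k) else 0)
      = (if ¬ Disjoint (a i) (a j) then p ^ #(a i ∪ a j) else 0) +
        ∑ k ∈ I, if j ≠ k ∧ ¬ Disjoint (a j) (a k) then p ^ #(a j ∪ a k) else 0 := by
    intro j hj
    rw [sum_insert hi]
    congr 1
    have hji : j ≠ i := by rintro rfl; exact hi hj
    by_cases hd : Disjoint (a i) (a j)
    · simp [hd, hd.symm]
    · have hd' : ¬ Disjoint (a j) (a i) := fun h => hd h.symm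
      rw [union_comm (a i) (a j)]
      simp [hd, hd', hji]
  rw [sum_congr rfl h1, sum_add_distrib]
  have h2 : ∀ j ∈ I, (if i ≠ j ∧ ¬ Disjoint (a i) (a j) then p ^ #(a i ∪ a j) else 0) =
      if ¬ Disjoint (a i) (a j) then p ^ #(a i ∪ a j) else 0 := by
    intro j hj
    have hij : i ≠ j := by rintro rfl; exact hi hj
    simp [hij]
  rw [sum_congr rfl h2, sum_filter]
  simp
  ring

/-- Janson's inequality, basic form. -/
lemma janson_basic {p : ℝ} (h0 : 0 ≤ p) (h1 : p ≤ 1) (U : Finset α) (I : Finset ι)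
    (a : ι → Finset α) (ha : ∀ i ∈ I, a i ⊆ U) :
    Pr p U (NoneIn I a) ≤ Real.exp (-(∑ i ∈ I, p ^ #(a i)) + corr p I a / 2) := by
  induction I using Finset.induction_on with
  | empty =>
    simp [corr]
    exact Pr_le_one h0 h1 _ _
  | insert i I hi ih =>
    have haI : ∀ j ∈ I, a j ⊆ U := fun j hj => ha j (mem_insert_of_mem hj)
    have hai : a i ⊆ U := ha i (mem_insert_self _ _)
    have ih := ih haI
    set I₀ := I.filter (fun j => Disjoint (a i) (a j)) with hI₀
    set I₁ := I.filter (fun j => ¬ Disjoint (a i) (a j)) with hI₁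
    set Q := Pr p U (NoneIn I a) with hQ
    set Q₀ := Pr p U (NoneIn I₀ a) with hQ₀
    have hQnn : 0 ≤ Q := Pr_nonneg h0 h1 _ _
    have hQ₀nn : 0 ≤ Q₀ := Pr_nonneg h0 h1 _ _
    have hQQ₀ : Q ≤ Q₀ := Pr_mono h0 h1 U fun S _ h j hj => h j (mem_filter.1 hj).1
    -- split
    have e1 : Pr p U (NoneIn (insert i I) a) = Q - Pr p U (fun S => a i ⊆ S ∧ NoneIn I a S) := by
      rw [hQ]
      unfold Pr
      rw [← Ex_sub]
      apply Ex_congr
      intro S _
      have : NoneIn (insert i I) a S ↔ (¬ a i ⊆ S ∧ NoneIn I a S) := by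
        unfold NoneIn; simp
      rw [ind_congr this, ind_and, ind_and, ind_not]; ring
    have e2 : Pr p U (fun S => a i ⊆ S ∧ NoneIn I₀ a S) = p ^ #(a i) * Q₀ := by
      have hB : I₀.biUnion a ⊆ U := by
        rw [biUnion_subset]
        intro j hj; exact haI j (mem_filter.1 hj).1
      rw [Pr_and p hai hB _ (LocalEv_subset (a i))
        (NoneIn_local fun j hj => subset_biUnion_of_mem a hj), Pr_subset p hai]
      rw [disjoint_biUnion_right]
      intro j hj; exact (mem_filter.1 hj).2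
    have e3 : Pr p U (fun S => a i ⊆ S ∧ NoneIn I₀ a S) ≤
        Pr p U (fun S => a i ⊆ S ∧ NoneIn I a S) + ∑ j ∈ I₁, p ^ #(a i ∪ a j) * Q₀ := by
      have s1 : Pr p U (fun S => a i ⊆ S ∧ NoneIn I₀ a S) ≤
          Pr p U (fun S => (a i ⊆ S ∧ NoneIn I a S) ∨
            ∃ j ∈ I₁, (a i ∪ a j ⊆ S ∧ NoneIn I₀ a S)) := by
        apply Pr_mono h0 h1
        intro S _ ⟨hS1, hS2⟩
        by_cases h : NoneIn I a S
        · exact Or.inl ⟨hS1, h⟩
        · right
          unfold NoneIn at h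
          push Not at h
          obtain ⟨j, hj, hjS⟩ := h
          refine ⟨j, ?_, union_subset hS1 hjS, hS2⟩
          rw [hI₁, mem_filter]
          refine ⟨hj, fun hd => ?_⟩
          exact hS2 j (mem_filter.2 ⟨hj, hd⟩) hjS
      refine s1.trans ((Pr_or h0 h1 _ _ _).trans ?_)
      apply add_le_add le_rfl
      refine (Pr_exists h0 h1 _ _ _).trans ?_
      apply sum_le_sum
      intro j hj
      have hjU : a i ∪ a j ⊆ U := union_subset hai (haI j (mem_filter.1 hj).1)
      rw [← Pr_subset p hjU, hQ₀]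
      apply Pr_mono_anti h0 h1 U
      · intro S T hST h; exact h.trans hST
      · exact NoneIn_anti I₀ a
    rw [e2] at e3
    set σ := ∑ j ∈ I₁, p ^ #(a i ∪ a j) with hσ
    have hσnn : 0 ≤ σ := sum_nonneg fun j _ => pow_nonneg h0 _
    rw [← sum_mul] at e3
    have hpi : 0 ≤ p ^ #(a i) := pow_nonneg h0 _
    have e4 : Q * (p ^ #(a i) - σ) ≤ Pr p U (fun S => a i ⊆ S ∧ NoneIn I a S) := by
      rcases le_or_gt σ (p ^ #(a i)) with h | h
      · have : Q * (p ^ #(a i) - σ) ≤ Q₀ * (p ^ #(a i) - σ) :=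
          mul_le_mul_of_nonneg_right hQQ₀ (by linarith)
        nlinarith
      · have : Q * (p ^ #(a i) - σ) ≤ 0 := mul_nonpos_of_nonneg_of_nonpos hQnn (by linarith)
        exact this.trans (Pr_nonneg h0 h1 _ _)
    have e5 : Pr p U (NoneIn (insert i I) a) ≤ Q * (1 - p ^ #(a i) + σ) := by
      rw [e1]; nlinarith
    have e6 : 1 - p ^ #(a i) + σ ≤ Real.exp (-p ^ #(a i) + σ) := by
      have := Real.add_one_le_exp (-p ^ #(a i) + σ)
      linarith
    calc Pr p U (NoneIn (insert i I) a) ≤ Q * (1 - p ^ #(a i) + σ) := e5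
      _ ≤ Q * Real.exp (-p ^ #(a i) + σ) := mul_le_mul_of_nonneg_left e6 hQnn
      _ ≤ Real.exp (-(∑ i ∈ I, p ^ #(a i)) + corr p I a / 2) * Real.exp (-p ^ #(a i) + σ) :=
          mul_le_mul_of_nonneg_right ih (Real.exp_pos _).le
      _ = _ := by
          rw [← Real.exp_add, sum_insert hi, corr_insert p a hi]
          congr 1
          rw [hσ, hI₁]
          ring

lemma corr_nonneg {p : ℝ} (h0 : 0 ≤ p) (I : Finset ι) (a : ι → Finset α) : 0 ≤ corr p I a :=
  sum_nonneg fun i _ => sum_nonneg fun j _ => by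
    split_ifs
    · exact pow_nonneg h0 _
    · exact le_rfl

/-- Expected value of a sum over a random subset. -/
lemma Ex_sum_mem (ξ : ℝ) (I : Finset ι) (f : ι → ℝ) :
    Ex ξ I (fun J => ∑ i ∈ J, f i) = ξ * ∑ i ∈ I, f i := by
  have h1 : ∀ J ⊆ I, ∑ i ∈ J, f i = ∑ i ∈ I, f i * ind ({i} ⊆ J) := by
    intro J hJ
    rw [← sum_subset hJ]
    · apply sum_congr rfl
      intro i hi
      rw [ind_true (by simpa using hi), mul_one]
    · intro i _ hi
      rw [ind_false (by simpa using hi), mul_zero]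
  rw [Ex_congr ξ I h1, Ex_sum, mul_sum]
  apply sum_congr rfl
  intro i hi
  rw [Ex_mul_left]
  have : Ex ξ I (fun S => ind ({i} ⊆ S)) = ξ ^ 1 := by
    have := Pr_subset ξ (A := I) (D := {i}) (by simpa using hi)
    simpa [Pr] using! this
  rw [this]; ring

lemma Ex_corr {p : ℝ} (ξ : ℝ) (I : Finset ι) (a : ι → Finset α) :
    Ex ξ I (fun J => corr p J a) = ξ ^ 2 * corr p I a := by
  have h1 : ∀ J ⊆ I, corr p J a = ∑ i ∈ I, ∑ j ∈ I,
      (if i ≠ j ∧ ¬ Disjoint (a i) (a j) then p ^ #(a i ∪ a j) else 0) * ind ({i, j} ⊆ J) := by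
    intro J hJ
    unfold corr
    have h2 : ∀ i ∈ I, (∑ j ∈ I, (if i ≠ j ∧ ¬ Disjoint (a i) (a j) then p ^ #(a i ∪ a j) else 0)
        * ind ({i, j} ⊆ J)) = if i ∈ J then ∑ j ∈ J,
        (if i ≠ j ∧ ¬ Disjoint (a i) (a j) then p ^ #(a i ∪ a j) else 0) else 0 := by
      intro i _
      split_ifs with hiJ
      · symm
        rw [← sum_subset hJ]
        · apply sum_congr rfl
          intro j hj
          rw [ind_true (by rw [insert_subset_iff]; simp [hiJ, hj]), mul_one]
        · intro j _ hj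
          rw [ind_false (by rw [insert_subset_iff]; simp [hj]), mul_zero]
      · apply sum_eq_zero
        intro j _
        rw [ind_false (by rw [insert_subset_iff]; simp [hiJ]), mul_zero]
    rw [sum_congr rfl h2, ← sum_filter]
    have h3 : I.filter (fun i => i ∈ J) = J := by
      ext i; simp only [mem_filter]
      exact ⟨fun h => h.2, fun h => ⟨hJ h, h⟩⟩
    rw [h3]
  rw [Ex_congr ξ I h1, Ex_sum]
  unfold corr
  rw [mul_sum]
  apply sum_congr rfl
  intro i hi
  rw [Ex_sum, mul_sum]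
  apply sum_congr rfl
  intro j hj
  rw [Ex_mul_left]
  by_cases hij : i = j
  · subst hij; simp
  · have h2 : #({i, j} : Finset ι) = 2 := card_pair hij
    have : Ex ξ I (fun S => ind ({i, j} ⊆ S)) = ξ ^ 2 := by
      have := Pr_subset ξ (A := I) (D := {i, j}) (by rw [insert_subset_iff]; simp [hi, hj])
      rw [h2] at this
      simpa [Pr] using! this
    rw [this]; ring

/-- A value at least the mean is attained. -/
lemma exists_ge_Ex {p : ℝ} (h0 : 0 ≤ p) (h1 : p ≤ 1) (A : Finset α) (F : Finset α → ℝ) :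
    ∃ S ⊆ A, Ex p A F ≤ F S := by
  by_contra h
  push Not at h
  have h2 : 0 < Ex p A (fun _ => 1) := by rw [Ex_const]; norm_num
  -- the weights are nonnegative with sum one
  have h3 : Ex p A (fun S => F S - Ex p A F) = 0 := by
    rw [Ex_sub, Ex_const]; ring
  obtain ⟨S, hS, hw⟩ : ∃ S ∈ A.powerset, 0 < p ^ #S * (1 - p) ^ (#A - #S) := by
    by_contra hcon
    push Not at hcon
    have : Ex p A (fun _ => (1:ℝ)) ≤ 0 := by
      unfold Ex
      apply sum_nonpos
      intro S hS
      simpa using hcon S hS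
    linarith
  have h4 : Ex p A (fun S => F S - Ex p A F) < 0 := by
    unfold Ex
    apply sum_neg' 
    · intro T hT
      have hq : 0 ≤ 1 - p := by linarith
      have hT' := h T (mem_powerset.1 hT)
      unfold Ex at hT'
      apply mul_nonpos_of_nonneg_of_nonpos
      · positivity
      · linarith
    · refine ⟨S, hS, ?_⟩
      have hS' := h S (mem_powerset.1 hS)
      unfold Ex at hS'
      apply mul_neg_of_pos_of_neg hw
      linarith
  linarith

/-- Janson's inequality, extended form. -/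
lemma janson {p : ℝ} (h0 : 0 ≤ p) (h1 : p ≤ 1) (U : Finset α) (I : Finset ι)
    (a : ι → Finset α) (ha : ∀ i ∈ I, a i ⊆ U) {μ D : ℝ} (hμ : μ = ∑ i ∈ I, p ^ #(a i))
    (hμ0 : 0 < μ) (hD : corr p I a ≤ D) :
    Pr p U (NoneIn I a) ≤ Real.exp (-(μ ^ 2 / (2 * (μ + D)))) := by
  have hc := corr_nonneg h0 I a
  have hD0 : 0 ≤ D := hc.trans hD
  set ξ := μ / (μ + D) with hξ
  have hξ0 : 0 ≤ ξ := by positivity
  have hξ1 : ξ ≤ 1 := by rw [hξ, div_le_one (by positivity)]; linarith
  obtain ⟨J, hJI, hJ⟩ := exists_ge_Ex hξ0 hξ1 I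
    (fun J => ∑ i ∈ J, p ^ #(a i) - 1 / 2 * corr p J a)
  have e1 : Ex ξ I (fun J => ∑ i ∈ J, p ^ #(a i) - 1 / 2 * corr p J a) =
      ξ * μ - 1 / 2 * (ξ ^ 2 * corr p I a) := by
    rw [Ex_sub, Ex_sum_mem, Ex_mul_left, Ex_corr, hμ]
  rw [e1] at hJ
  have h2 : Pr p U (NoneIn I a) ≤ Pr p U (NoneIn J a) :=
    Pr_mono h0 h1 U fun S _ h j hj => h j (hJI hj)
  refine h2.trans ((janson_basic h0 h1 U J a fun j hj => ha j (hJI hj)).trans ?_)
  apply Real.exp_le_exp.2
  have h3 : μ ^ 2 / (2 * (μ + D)) ≤ ξ * μ - 1 / 2 * (ξ ^ 2 * corr p I a) := by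
    have h4 : ξ ^ 2 * corr p I a ≤ ξ ^ 2 * D := mul_le_mul_of_nonneg_left hD (sq_nonneg _)
    have h5 : ξ ^ 2 * D ≤ ξ * μ := by
      rw [hξ]
      have : μ / (μ + D) * D ≤ μ := by
        rw [div_mul_eq_mul_div, div_le_iff₀ (by positivity)]
        nlinarith
      calc (μ / (μ + D)) ^ 2 * D = μ / (μ + D) * (μ / (μ + D) * D) := by ring
        _ ≤ μ / (μ + D) * μ := mul_le_mul_of_nonneg_left this (by positivity)
    have h6 : μ ^ 2 / (2 * (μ + D)) = ξ * μ / 2 := by
      rw [hξ]; field_simp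
    rw [h6]; linarith
  linarith

end Pool.Agent.H94.CC
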