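import Mathlib
import Pool.Agent.H94.CC.Janson

set_option linter.unusedSectionVars false

open Finset

namespace Pool.Agent.H94.CC

variable {V : Type*} [Fintype V] [DecidableEq V]

/-- All potential edges. -/
def allE (V : Type*) [Fintype V] [DecidableEq V] : Finset (Sym2 V) :=
  univ.filter (fun e => ¬ e.IsDiag)

/-- The graph with edge set `S`. -/
def gr (S : Finset (Sym2 V)) : SimpleGraph V := SimpleGraph.fromEdgeSet (S : Set (Sym2 V))

lemma gr_adj (S : Finset (Sym2 V)) (u w : V) : (gr S).Adj u w ↔ s(u, w) ∈ S ∧ u ≠ w := by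
  unfold gr; rw [SimpleGraph.fromEdgeSet_adj]; simp

lemma card_allE : #(allE V) = (Fintype.card V).choose 2 := by
  classical
  have := Sym2.card_diagSet_compl (α := V)
  rw [← this, allE, Fintype.card_subtype]
  rfl

instance : MeasurableSingletonClass (SimpleGraph V) := ⟨fun G => by
  have h1 : ({G} : Set (SimpleGraph V)) = SimpleGraph.edgeSet ⁻¹' {G.edgeSet} := by
    ext H; simp
  rw [h1]
  exact SimpleGraph.measurable_edgeSet (measurableSet_singleton _)⟩

open Classical in
/-- The law `G(V,p)` in terms of `Pr`. -/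
lemma binomialRandom_real (p : unitInterval) (A : Set (SimpleGraph V)) :
    (SimpleGraph.binomialRandom V p).real A = Pr (p : ℝ) (allE V) (fun S => gr S ∈ A) := by
  have hA : A.Finite := Set.toFinite A
  have h1 : (SimpleGraph.binomialRandom V p).real A =
      ∑ G ∈ hA.toFinset, (SimpleGraph.binomialRandom V p).real {G} := by
    rw [MeasureTheory.sum_measureReal_singleton, hA.coe_toFinset]
  have h2 : ∀ G : SimpleGraph V, (SimpleGraph.binomialRandom V p).real {G} =
      (p : ℝ) ^ #G.edgeFinset * (1 - (p : ℝ)) ^ (#(allE V) - #G.edgeFinset) := by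
    intro G
    rw [MeasureTheory.measureReal_def, SimpleGraph.binomialRandom_singleton, card_allE,
      Nat.card_eq_fintype_card]
    have : G.edgeSet.ncard = #G.edgeFinset := by
      rw [← SimpleGraph.coe_edgeFinset, Set.ncard_coe_finset]
    rw [this]
    simp
  rw [h1]
  unfold Pr Ex
  have h3 : ∀ S ∈ (allE V).powerset, (p : ℝ) ^ #S * (1 - (p:ℝ)) ^ (#(allE V) - #S) *
      ind (gr S ∈ A) = if gr S ∈ A then (p : ℝ) ^ #S * (1 - (p:ℝ)) ^ (#(allE V) - #S) else 0 := by
    intro S _
    by_cases h : gr S ∈ A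
    · rw [ind_true h, if_pos h, mul_one]
    · rw [ind_false h, if_neg h, mul_zero]
  rw [sum_congr rfl h3, ← sum_filter]
  refine sum_bij' (i := fun G _ => G.edgeFinset) (j := fun S _ => gr S)
    (hi := ?_) (hj := ?_) (left_neg := ?_) (right_neg := ?_) (h := ?_)
  · intro G hG
    rw [mem_filter, mem_powerset]
    constructor
    · intro e he
      rw [SimpleGraph.mem_edgeFinset] at he
      rw [allE, mem_filter]
      exact ⟨mem_univ _, G.not_isDiag_of_mem_edgeSet he⟩
    · have : gr G.edgeFinset = G := by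
        unfold gr; simp
      rw [this]; exact hA.mem_toFinset.1 hG
  · intro S hS
    rw [mem_filter] at hS
    exact hA.mem_toFinset.2 hS.2
  · intro G _
    unfold gr; simp
  · intro S hS
    rw [mem_filter, mem_powerset] at hS
    have hS := hS.1
    ext e
    rw [SimpleGraph.mem_edgeFinset]
    unfold gr
    rw [SimpleGraph.edgeSet_fromEdgeSet]
    constructor
    · intro h; exact h.1
    · intro h
      refine ⟨h, ?_⟩
      have := hS h
      rw [allE, mem_filter] at this
      exact this.2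
  · intro G _
    exact h2 G

/-! ### Edge sets -/

/-- Edges inside `K`. -/
def inE (K : Finset V) : Finset (Sym2 V) := K.sym2.filter (fun e => ¬ e.IsDiag)

/-- Edges between `u` and `K`. -/
def star (u : V) (K : Finset V) : Finset (Sym2 V) := K.image (fun w => s(u, w))

lemma mem_inE {K : Finset V} {u w : V} : s(u, w) ∈ inE K ↔ u ∈ K ∧ w ∈ K ∧ u ≠ w := by
  unfold inE
  rw [mem_filter, Finset.mk_mem_sym2_iff, Sym2.mk_isDiag_iff]
  tauto

lemma inE_mono {K L : Finset V} (h : K ⊆ L) : inE K ⊆ inE L := by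
  intro e
  induction e with
  | _ u w =>
    rw [mem_inE, mem_inE]
    rintro ⟨h1, h2, h3⟩
    exact ⟨h h1, h h2, h3⟩

lemma inE_subset_allE (K : Finset V) : inE K ⊆ allE V := by
  intro e he
  unfold inE at he
  rw [mem_filter] at he
  rw [allE, mem_filter]
  exact ⟨mem_univ _, he.2⟩

lemma card_inE (K : Finset V) : #(inE K) = (#K).choose 2 := by
  unfold inE
  have h1 : K.sym2.filter (fun e => ¬ e.IsDiag) = K.offDiag.image Sym2.mk.uncurry := by
    ext e
    induction e with
    | _ u w =>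
      rw [mem_filter, Finset.mk_mem_sym2_iff, Sym2.mk_isDiag_iff, mem_image]
      constructor
      · rintro ⟨⟨h1, h2⟩, h3⟩
        exact ⟨(u, w), by rw [mem_offDiag]; exact ⟨h1, h2, h3⟩, rfl⟩
      · rintro ⟨⟨a, b⟩, hab, h⟩
        rw [mem_offDiag] at hab
        simp only [Function.uncurry_apply_pair, Sym2.eq_iff] at h
        rcases h with ⟨rfl, rfl⟩ | ⟨rfl, rfl⟩
        · exact ⟨⟨hab.1, hab.2.1⟩, hab.2.2⟩
        · exact ⟨⟨hab.2.1, hab.1⟩, hab.2.2.symm⟩
  rw [h1]
  exact Sym2.card_image_offDiag K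

lemma mem_star {u : V} {K : Finset V} {e : Sym2 V} : e ∈ star u K ↔ ∃ w ∈ K, s(u, w) = e := by
  unfold star; rw [mem_image]

lemma mk_mem_star {u : V} {K : Finset V} {w : V} (hw : w ∈ K) : s(u, w) ∈ star u K :=
  mem_star.2 ⟨w, hw, rfl⟩

lemma star_mono {u : V} {K L : Finset V} (h : K ⊆ L) : star u K ⊆ star u L :=
  image_subset_image h

lemma star_subset_allE {u : V} {K : Finset V} (h : u ∉ K) : star u K ⊆ allE V := by
  intro e he
  obtain ⟨w, hw, rfl⟩ := mem_star.1 he
  rw [allE, mem_filter, Sym2.mk_isDiag_iff]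
  exact ⟨mem_univ _, fun h' => h (h' ▸ hw)⟩

lemma star_injOn (u : V) (K : Finset V) : Set.InjOn (fun w => s(u, w)) (K : Set V) := by
  intro a _ b _ h
  exact Sym2.congr_right.1 h

lemma card_star (u : V) (K : Finset V) : #(star u K) = #K :=
  card_image_of_injOn (star_injOn u K)

lemma star_disjoint {u u' : V} {K : Finset V} (h : u ∉ K) (_h' : u' ∉ K) (hne : u ≠ u') :
    Disjoint (star u K) (star u' K) := by
  rw [disjoint_left]
  intro e he he'
  obtain ⟨w, hw, rfl⟩ := mem_star.1 he
  obtain ⟨w', hw', h1⟩ := mem_star.1 he'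
  rw [Sym2.eq_iff] at h1
  rcases h1 with ⟨rfl, _⟩ | ⟨_, rfl⟩
  · exact hne rfl
  · exact h hw'

lemma star_inE_disjoint {u : V} {K L : Finset V} (h : u ∉ L) :
    Disjoint (star u K) (inE L) := by
  rw [disjoint_left]
  intro e he he'
  obtain ⟨w, _, rfl⟩ := mem_star.1 he
  rw [mem_inE] at he'
  exact h he'.1

/-- Neighbours of `u` in `K`. -/
def nb (u : V) (K : Finset V) (S : Finset (Sym2 V)) : Finset V := K.filter (fun w => s(u, w) ∈ S)

lemma nb_subset (u : V) (K : Finset V) (S : Finset (Sym2 V)) : nb u K S ⊆ K := filter_subset _ _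

lemma mem_nb {u : V} {K : Finset V} {S : Finset (Sym2 V)} {w : V} :
    w ∈ nb u K S ↔ w ∈ K ∧ s(u, w) ∈ S := by unfold nb; rw [mem_filter]

lemma nb_local (u : V) (K : Finset V) (S : Finset (Sym2 V)) :
    nb u K S = nb u K (S ∩ star u K) := by
  ext w
  rw [mem_nb, mem_nb, mem_inter]
  constructor
  · rintro ⟨h1, h2⟩; exact ⟨h1, h2, mk_mem_star h1⟩
  · rintro ⟨h1, h2, _⟩; exact ⟨h1, h2⟩

/-- The law of `nb u K` is that of a `p`-random subset of `K`. -/
lemma Ex_nb (p : ℝ) (u : V) (K : Finset V) (F : Finset V → ℝ) :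
    Ex p (star u K) (fun S => F (nb u K S)) = Ex p K F := by
  unfold star
  rw [Ex_image p K (star_injOn u K)]
  apply Ex_congr
  intro N hN
  congr 1
  ext w
  rw [mem_nb, mem_image]
  constructor
  · rintro ⟨_, w', hw', h⟩
    rw [Sym2.congr_right] at h
    exact h ▸ hw'
  · intro hw
    exact ⟨hN hw, w, hw, rfl⟩

/-- `S` is a clique on `K`. -/
def cl (K : Finset V) (S : Finset (Sym2 V)) : Prop := inE K ⊆ S

lemma cl_iff (K : Finset V) (S : Finset (Sym2 V)) : cl K S ↔ (gr S).IsClique (K : Set V) := by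
  unfold cl
  rw [SimpleGraph.isClique_iff, Set.Pairwise]
  constructor
  · intro h u hu w hw huw
    rw [gr_adj]
    exact ⟨h (mem_inE.2 ⟨hu, hw, huw⟩), huw⟩
  · intro h e
    induction e with
    | _ u w =>
      intro he
      rw [mem_inE] at he
      have := h he.1 he.2.1 he.2.2
      rw [gr_adj] at this
      exact this.1

end Pool.Agent.H94.CC
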