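import Mathlib
import Pool.Agent.H94.CC.Graph

set_option linter.unusedSectionVars false

open Finset

namespace Pool.Agent.H94.CC

variable {α ι : Type*} [DecidableEq α] [DecidableEq ι]

/-- Conditioning on a variable `X` that is local on `B`. -/
lemma cond_bound {β : Type*} {p : ℝ} (h0 : 0 ≤ p) (h1 : p ≤ 1) {A B C : Finset α} (hBA : B ⊆ A)
    (hCA : C ⊆ A) (hBC : Disjoint B C) (X : Finset α → β) (hX : ∀ S, X S = X (S ∩ B))
    (Q : β → Finset α → Prop) (hQ : ∀ h, LocalEv C (Q h)) {δ : ℝ}
    (hb : ∀ h, Pr p A (Q h) ≤ δ) : Pr p A (fun S => Q (X S) S) ≤ δ := by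
  have hloc : LocalEv (B ∪ C) (fun S => Q (X S) S) := by
    intro S
    show Q (X S) S ↔ Q (X (S ∩ (B ∪ C))) (S ∩ (B ∪ C))
    have e1 : X (S ∩ (B ∪ C)) = X S := by
      rw [hX (S ∩ (B ∪ C)), hX S, inter_assoc, inter_eq_right.2 subset_union_left]
    rw [e1]
    exact (hQ (X S)).mono subset_union_right S
  rw [Pr_local p (union_subset hBA hCA) hloc]
  unfold Pr
  rw [Ex_union p hBC]
  have h2 : ∀ S ⊆ B, Ex p C (fun S' => ind (Q (X (S ∪ S')) (S ∪ S'))) ≤ δ := by
    intro S hS
    have h3 : Ex p C (fun S' => ind (Q (X (S ∪ S')) (S ∪ S'))) = Pr p A (Q (X S)) := by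
      rw [Pr_local p hCA (hQ (X S))]
      unfold Pr
      apply Ex_congr
      intro S' hS'
      have e1 : (S ∪ S') ∩ B = S := by
        rw [union_inter_distrib_right, inter_eq_left.2 hS]
        have : S' ∩ B = ∅ := by
          rw [← disjoint_iff_inter_eq_empty]
          exact (hBC.mono_right hS').symm
        rw [this, union_empty]
      have e2 : (S ∪ S') ∩ C = S' := by
        rw [union_inter_distrib_right, inter_eq_left.2 hS']
        have : S ∩ C = ∅ := by
          rw [← disjoint_iff_inter_eq_empty]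
          exact hBC.mono_left hS
        rw [this, empty_union]
      have e3 : X (S ∪ S') = X S := by
        rw [hX (S ∪ S'), e1]
      rw [e3]
      apply ind_congr
      rw [hQ (X S) (S ∪ S'), e2]
    rw [h3]; exact hb _
  calc Ex p B (fun S => Ex p C (fun S' => ind (Q (X (S ∪ S')) (S ∪ S')))) ≤ Ex p B (fun _ => δ) :=
        Ex_mono h0 h1 B h2
    _ = δ := Ex_const p B δ

lemma Ex_pow_card (p c : ℝ) (A : Finset α) :
    Ex p A (fun N => c ^ #N) = (1 - p + p * c) ^ #A := by
  induction A using Finset.induction_on with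
  | empty => simp [Ex_empty]
  | insert e A he ih =>
    rw [Ex_insert p he, ih, card_insert_of_notMem he]
    have h1 : Ex p A (fun S => c ^ #(insert e S)) = Ex p A (fun S => c * c ^ #S) := by
      apply Ex_congr
      intro S hS
      rw [card_insert_of_notMem (fun h => he (hS h))]
      ring
    rw [h1, Ex_mul_left, ih]
    ring

/-- Truncated exponential moment. -/
lemma Ex_trunc {p : ℝ} (h0 : 0 ≤ p) (h1 : p ≤ 1) (A : Finset α) (β β' d : ℝ) (hβ : β ≤ β') :
    Ex p A (fun N => Real.exp (β * if d ≤ #N then (#N : ℝ) else 0)) ≤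
      1 + Real.exp (-((β' - β) * d) + #A * (p * Real.exp β')) := by
  have h2 : ∀ N : Finset α, Real.exp (β * if d ≤ #N then (#N : ℝ) else 0) ≤
      1 + Real.exp (-((β' - β) * d)) * Real.exp β' ^ #N := by
    intro N
    split_ifs with h
    · have : Real.exp (β * #N) ≤ Real.exp (-((β' - β) * d)) * Real.exp β' ^ #N := by
        rw [← Real.exp_nat_mul, ← Real.exp_add]
        apply Real.exp_le_exp.2
        nlinarith [mul_le_mul_of_nonneg_left h (sub_nonneg.2 hβ)]
      linarith
    · rw [mul_zero, Real.exp_zero]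
      have : 0 ≤ Real.exp (-((β' - β) * d)) * Real.exp β' ^ #N := by positivity
      linarith
  calc Ex p A (fun N => Real.exp (β * if d ≤ #N then (#N : ℝ) else 0)) ≤
      Ex p A (fun N => 1 + Real.exp (-((β' - β) * d)) * Real.exp β' ^ #N) :=
        Ex_mono h0 h1 A fun N _ => h2 N
    _ = 1 + Real.exp (-((β' - β) * d)) * (1 - p + p * Real.exp β') ^ #A := by
        rw [Ex_add, Ex_const, Ex_mul_left, Ex_pow_card]
    _ ≤ 1 + Real.exp (-((β' - β) * d)) * Real.exp (p * Real.exp β') ^ #A := by
        have e0 : 0 ≤ p * Real.exp β' := by positivity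
        have e1 := Real.add_one_le_exp (p * Real.exp β')
        have e2 : (1 - p + p * Real.exp β') ^ #A ≤ Real.exp (p * Real.exp β') ^ #A :=
          pow_le_pow_left₀ (by linarith) (by linarith) _
        have e3 := mul_le_mul_of_nonneg_left e2 (Real.exp_pos (-((β' - β) * d))).le
        linarith
    _ = 1 + Real.exp (-((β' - β) * d) + #A * (p * Real.exp β')) := by
        rw [← Real.exp_nat_mul, ← Real.exp_add]

variable {V : Type*} [Fintype V] [DecidableEq V]

lemma nb_local' {u : V} {K : Finset V} {B : Finset (Sym2 V)} (h : star u K ⊆ B)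
    (S : Finset (Sym2 V)) : nb u K (S ∩ B) = nb u K S := by
  rw [nb_local u K (S ∩ B), nb_local u K S, inter_assoc, inter_eq_right.2 h]

lemma nb_localOn (u : V) (K : Finset V) (F : Finset V → ℝ) :
    LocalOn (star u K) (fun S => F (nb u K S)) := by
  intro S
  show F (nb u K S) = F (nb u K (S ∩ star u K))
  rw [nb_local' (Subset.refl _)]

/-- Exponential tail for sums over outside vertices. -/
lemma tail_sum {p : ℝ} (h0 : 0 ≤ p) (h1 : p ≤ 1) (C W : Finset V) (hW : Disjoint W C)
    (β β' d L : ℝ) (hβ : β ≤ β') :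
    Pr p (allE V) (fun E => L ≤ β * ∑ u ∈ W.filter (fun u => d ≤ #(nb u C E)), (#(nb u C E) : ℝ)) ≤
      Real.exp (-L + #W * Real.exp (-((β' - β) * d) + #C * (p * Real.exp β'))) := by
  set f : V → Finset (Sym2 V) → ℝ := fun u E =>
    Real.exp (β * if d ≤ #(nb u C E) then (#(nb u C E) : ℝ) else 0) with hf
  have hWC : ∀ u ∈ W, u ∉ C := fun u hu => disjoint_left.1 hW hu
  have h2 : Ex p (allE V) (fun E => ∏ u ∈ W, f u E) = ∏ u ∈ W, Ex p (allE V) (f u) := by
    apply Ex_prod p (B := fun u => star u C)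
    · intro u _
      exact nb_localOn u C (fun N => Real.exp (β * if d ≤ #N then (#N : ℝ) else 0))
    · intro u hu
      exact star_subset_allE (hWC u hu)
    · intro u hu u' hu' hne
      exact star_disjoint (hWC u hu) (hWC u' hu') hne
  have h3 : ∀ u ∈ W, Ex p (allE V) (f u) ≤
      Real.exp (Real.exp (-((β' - β) * d) + #C * (p * Real.exp β'))) := by
    intro u hu
    have e1 : Ex p (allE V) (f u) = Ex p (star u C) (f u) :=
      Ex_local p (star_subset_allE (hWC u hu))
        (nb_localOn u C (fun N => Real.exp (β * if d ≤ #N then (#N : ℝ) else 0)))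
    have e2 : Ex p (star u C) (f u) =
        Ex p C (fun N => Real.exp (β * if d ≤ #N then (#N : ℝ) else 0)) :=
      Ex_nb p u C (fun N => Real.exp (β * if d ≤ #N then (#N : ℝ) else 0))
    rw [e1, e2]
    refine (Ex_trunc h0 h1 C β β' d hβ).trans ?_
    rw [add_comm]
    exact Real.add_one_le_exp _
  have h4 : Ex p (allE V) (fun E => ∏ u ∈ W, f u E) ≤
      Real.exp (#W * Real.exp (-((β' - β) * d) + #C * (p * Real.exp β'))) := by
    rw [h2, Real.exp_nat_mul]
    rw [← prod_const]
    apply prod_le_prod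
    · intro u _
      apply Ex_nonneg h0 h1
      intro E _
      exact (Real.exp_pos _).le
    · exact h3
  have h5 : ∀ E, ∏ u ∈ W, f u E =
      Real.exp (β * ∑ u ∈ W.filter (fun u => d ≤ #(nb u C E)), (#(nb u C E) : ℝ)) := by
    intro E
    simp only [hf]
    rw [← Real.exp_sum, mul_sum, sum_filter]
    congr 1
    apply sum_congr rfl
    intro u _
    split_ifs <;> simp
  have h6 := Pr_markov h0 h1 (allE V) (F := fun E => ∏ u ∈ W, f u E) (c := Real.exp L)
    (Real.exp_pos L) (fun E _ => prod_nonneg fun u _ => (Real.exp_pos _).le)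
  have h7 : Pr p (allE V) (fun E => L ≤ β * ∑ u ∈ W.filter (fun u => d ≤ #(nb u C E)),
      (#(nb u C E) : ℝ)) = Pr p (allE V) (fun E => Real.exp L ≤ ∏ u ∈ W, f u E) := by
    apply Pr_congr
    intro E _
    rw [h5 E, Real.exp_le_exp]
  rw [h7]
  refine h6.trans ?_
  rw [div_eq_mul_inv, ← Real.exp_neg, mul_comm, Real.exp_add]
  exact mul_le_mul_of_nonneg_left h4 (Real.exp_pos _).le

end Pool.Agent.H94.CC
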