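import Mathlib
import Pool.Agent.H94.CC.Cond

set_option linter.unusedSectionVars false

open Finset

namespace Pool.Agent.H94.CC

variable {α ι : Type*} [DecidableEq α] [DecidableEq ι]

/-- Abstract moment bound. -/
lemma moment_abs {p : ℝ} (h0 : 0 ≤ p) (h1 : p ≤ 1) (A : Finset α) (K : Finset ι)
    (bad : ι → Finset α → Prop) (w : Finset ι → ℝ) (a : ℝ) (ha : 0 ≤ a) (B : ℕ)
    (hw : ∀ T ⊆ K, #T ≤ B → Pr p A (fun E => ∀ i ∈ T, bad i E) ≤ w T)
    (hstep : ∀ T ⊆ K, #T < B → ∑ i ∈ K, w (insert i T) ≤ a * w T) :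
    Ex p A (fun E => (∑ i ∈ K, ind (bad i E)) ^ B) ≤ a ^ B * w ∅ := by
  have key : ∀ b : ℕ, ∀ T ⊆ K, #T + b ≤ B →
      Ex p A (fun E => (∑ i ∈ K, ind (bad i E)) ^ b * ind (∀ i ∈ T, bad i E)) ≤ a ^ b * w T := by
    intro b
    induction b with
    | zero =>
      intro T hT hTB
      have := hw T hT (by omega)
      simpa [Pr] using this
    | succ b ih =>
      intro T hT hTB
      have e1 : ∀ E, (∑ i ∈ K, ind (bad i E)) ^ (b + 1) * ind (∀ i ∈ T, bad i E) =
          ∑ i ∈ K, (∑ i ∈ K, ind (bad i E)) ^ b * ind (∀ j ∈ insert i T, bad j E) := by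
        intro E
        rw [← mul_sum]
        have : ∀ i ∈ K, ind (∀ j ∈ insert i T, bad j E) =
            ind (bad i E) * ind (∀ j ∈ T, bad j E) := by
          intro i _
          rw [← ind_and]
          apply ind_congr
          simp
        rw [sum_congr rfl this, ← sum_mul]
        ring
      have e2 : Ex p A (fun E => (∑ i ∈ K, ind (bad i E)) ^ (b + 1) * ind (∀ i ∈ T, bad i E)) =
          ∑ i ∈ K, Ex p A (fun E => (∑ i ∈ K, ind (bad i E)) ^ b *
            ind (∀ j ∈ insert i T, bad j E)) := by
        rw [← Ex_sum]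
        apply Ex_congr
        intro E _
        exact e1 E
      rw [e2]
      calc ∑ i ∈ K, Ex p A (fun E => (∑ i ∈ K, ind (bad i E)) ^ b *
            ind (∀ j ∈ insert i T, bad j E)) ≤ ∑ i ∈ K, a ^ b * w (insert i T) := by
            apply sum_le_sum
            intro i hi
            apply ih
            · exact insert_subset hi hT
            · have := card_insert_le i T
              omega
        _ = a ^ b * ∑ i ∈ K, w (insert i T) := by rw [mul_sum]
        _ ≤ a ^ b * (a * w T) := by
            apply mul_le_mul_of_nonneg_left _ (pow_nonneg ha _)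
            exact hstep T hT (by omega)
        _ = a ^ (b + 1) * w T := by ring
  have h := key B ∅ (empty_subset _) (by simp)
  have e : Ex p A (fun E => (∑ i ∈ K, ind (bad i E)) ^ B * ind (∀ i ∈ (∅ : Finset ι), bad i E)) =
      Ex p A (fun E => (∑ i ∈ K, ind (bad i E)) ^ B) := by
    apply Ex_congr
    intro E _
    rw [ind_true (by simp), mul_one]
  rw [e] at h
  exact h

variable {V : Type*} [Fintype V] [DecidableEq V]

/-- Counting sets by their intersection with `U`. -/
lemma card_inter_eq_le (Z U : Finset V) (k j : ℕ) :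
    #((powersetCard k Z).filter (fun S => #(S ∩ U) = j)) ≤ #U ^ j * #Z ^ (k - j) := by
  have h1 : #((powersetCard k Z).filter (fun S => #(S ∩ U) = j)) ≤
      #(powersetCard j U ×ˢ powersetCard (k - j) Z) := by
    apply card_le_card_of_injOn (fun S => (S ∩ U, S \ U))
    · intro S hS
      rw [mem_coe, mem_filter, mem_powersetCard] at hS
      rw [mem_coe, mem_product, mem_powersetCard, mem_powersetCard]
      refine ⟨⟨inter_subset_right, hS.2⟩, (sdiff_subset).trans hS.1.1, ?_⟩
      show #(S \ U) = k - j
      have := card_sdiff_add_card_inter S U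
      omega
    · intro S _ S' _ h
      simp only [Prod.mk.injEq] at h
      rw [← sdiff_union_inter S U, ← sdiff_union_inter S' U, h.1, h.2]
  rw [card_product, card_powersetCard, card_powersetCard] at h1
  exact h1.trans (Nat.mul_le_mul (Nat.choose_le_pow _ _) (Nat.choose_le_pow _ _))

lemma count_ext (Z U : Finset V) (k : ℕ) (P : Finset (Finset V)) (hP : P ⊆ powersetCard k Z)
    (g : ℕ → ℝ) (hg : ∀ j, 0 ≤ g j) (J : Finset ℕ) (hJ : ∀ S ∈ P, #(S ∩ U) ∈ J) :
    ∑ S ∈ P, g #(S ∩ U) ≤ ∑ j ∈ J, (#U : ℝ) ^ j * (#Z : ℝ) ^ (k - j) * g j := by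
  rw [← sum_fiberwise_of_maps_to hJ]
  apply sum_le_sum
  intro j _
  have h1 : ∑ S ∈ P with #(S ∩ U) = j, g #(S ∩ U) = #(P.filter (fun S => #(S ∩ U) = j)) * g j := by
    rw [← nsmul_eq_mul, ← sum_const]
    apply sum_congr rfl
    intro S hS
    rw [(mem_filter.1 hS).2]
  rw [h1]
  apply mul_le_mul_of_nonneg_right _ (hg j)
  have h2 : #(P.filter (fun S => #(S ∩ U) = j)) ≤ #U ^ j * #Z ^ (k - j) :=
    (card_le_card (filter_subset_filter _ hP)).trans (card_inter_eq_le Z U k j)
  exact_mod_cast h2

lemma inE_inter (S T : Finset V) : inE S ∩ inE T = inE (S ∩ T) := by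
  ext e
  induction e with
  | _ u w =>
    rw [mem_inter, mem_inE, mem_inE, mem_inE, mem_inter, mem_inter]
    tauto

/-- `S` is a clique that no vertex of `Y` covers. -/
def badE (Y S : Finset V) (E : Finset (Sym2 V)) : Prop := cl S E ∧ ∀ u ∈ Y, ¬ star u S ⊆ E

lemma star_union (u : V) (S T : Finset V) : star u S ∪ star u T = star u (S ∪ T) := by
  unfold star; rw [image_union]

/-- Joint probability bound. -/
lemma joint_bound {p : ℝ} (h0 : 0 ≤ p) (h1 : p ≤ 1) (Z Y : Finset V) (hYZ : Disjoint Y Z)
    (k B : ℕ) (T : Finset (Finset V)) (hT : T ⊆ powersetCard k Z) (hTB : #T ≤ B) :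
    Pr p (allE V) (fun E => ∀ S ∈ T, badE Y S E) ≤
      Real.exp (B ^ 2 * #Y * p ^ (k + 1)) * p ^ #(T.biUnion inE) *
        Real.exp (-(#Y * p ^ k)) ^ #T := by
  have hTk : ∀ S ∈ T, #S = k := fun S hS => (mem_powersetCard.1 (hT hS)).2
  have hTZ : ∀ S ∈ T, S ⊆ Z := fun S hS => (mem_powersetCard.1 (hT hS)).1
  have hYn : ∀ u ∈ Y, u ∉ Z := fun u hu => disjoint_left.1 hYZ hu
  set I : Finset (V × Finset V) := Y ×ˢ T with hI
  set a : V × Finset V → Finset (Sym2 V) := fun x => star x.1 x.2 with ha
  have h2 : Pr p (allE V) (fun E => ∀ S ∈ T, badE Y S E) =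
      Pr p (allE V) (fun E => T.biUnion inE ⊆ E ∧ NoneIn I a E) := by
    apply Pr_congr
    intro E _
    unfold badE NoneIn cl
    constructor
    · intro h
      refine ⟨?_, ?_⟩
      · rw [biUnion_subset]
        exact fun S hS => (h S hS).1
      · rintro ⟨u, S⟩ hx
        rw [hI, mem_product] at hx
        exact (h S hx.2).2 u hx.1
    · rintro ⟨h3, h4⟩ S hS
      rw [biUnion_subset] at h3
      exact ⟨h3 S hS, fun u hu => h4 (u, S) (by rw [hI, mem_product]; exact ⟨hu, hS⟩)⟩
  have h3 : T.biUnion inE ⊆ allE V := by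
    rw [biUnion_subset]
    exact fun S _ => inE_subset_allE S
  have hI2 : ∀ x ∈ I, x.1 ∈ Y ∧ x.2 ∈ T := fun x hx => mem_product.1 hx
  have haV : ∀ x ∈ I, a x ⊆ allE V := by
    intro x hx
    exact star_subset_allE (fun h => hYn _ (hI2 x hx).1 (hTZ _ (hI2 x hx).2 h))
  have h4 := janson_basic h0 h1 (allE V) I a haV
  have hcard : ∀ x ∈ I, #(a x) = k := by
    intro x hx
    simp only [ha]
    rw [card_star, hTk _ (hI2 x hx).2]
  have h5 : ∑ x ∈ I, p ^ #(a x) = #Y * #T * p ^ k := by
    rw [sum_congr rfl (fun x hx => by rw [hcard x hx]), sum_const, nsmul_eq_mul, hI, card_product]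
    push_cast; ring
  have h6 : corr p I a ≤ B ^ 2 * #Y * p ^ (k + 1) := by
    have h7 : corr p I a ≤ ∑ x ∈ I, ∑ y ∈ I, if x.1 = y.1 then p ^ (k + 1) else 0 := by
      unfold corr
      apply sum_le_sum
      intro x hx
      apply sum_le_sum
      intro y hy
      by_cases hxy : x ≠ y ∧ ¬ Disjoint (a x) (a y)
      · rw [if_pos hxy]
        have hu : x.1 = y.1 := by
          by_contra hne
          apply hxy.2
          have := star_disjoint (K := Z) (hYn _ (hI2 x hx).1) (hYn _ (hI2 y hy).1) hne
          exact this.mono (star_mono (hTZ _ (hI2 x hx).2)) (star_mono (hTZ _ (hI2 y hy).2))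
        rw [if_pos hu]
        have hS : x.2 ≠ y.2 := by
          intro h
          exact hxy.1 (Prod.ext hu h)
        have h8 : #(a x ∪ a y) = #(x.2 ∪ y.2) := by
          simp only [ha]
          rw [hu, star_union, card_star]
        apply pow_le_pow_of_le_one h0 h1
        rw [h8]
        -- two distinct k-sets
        have h9 : x.2 ⊂ x.2 ∪ y.2 := by
          rw [ssubset_iff_subset_ne]
          refine ⟨subset_union_left, fun h => hS ?_⟩
          have h10 : y.2 ⊆ x.2 := by rw [h]; exact subset_union_right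
          exact (eq_of_subset_of_card_le h10 (by
            rw [hTk _ (hI2 x hx).2, hTk _ (hI2 y hy).2])).symm
        have := card_lt_card h9
        rw [hTk _ (hI2 x hx).2] at this
        omega
      · rw [if_neg hxy]
        split_ifs
        · exact pow_nonneg h0 _
        · exact le_rfl
    refine h7.trans ?_
    have h8 : ∑ x ∈ I, ∑ y ∈ I, (if x.1 = y.1 then p ^ (k + 1) else 0) =
        #Y * #T ^ 2 * p ^ (k + 1) := by
      rw [hI, sum_product]
      have h9 : ∀ u ∈ Y, ∀ S ∈ T, ∑ y ∈ Y ×ˢ T, (if (u, S).1 = y.1 then p ^ (k + 1) else 0) =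
          #T * p ^ (k + 1) := by
        intro u hu S _
        rw [sum_product]
        have : ∀ u' ∈ Y, ∑ S' ∈ T, (if (u, S).1 = (u', S').1 then p ^ (k + 1) else 0) =
            if u = u' then #T * p ^ (k + 1) else 0 := by
          intro u' _
          by_cases h : u = u' <;> simp [h]
        rw [sum_congr rfl this, sum_ite_eq, if_pos hu]
      rw [sum_congr rfl (fun u hu => sum_congr rfl (h9 u hu)), sum_const, sum_const]
      simp only [nsmul_eq_mul]
      ring
    rw [h8]
    have h10 : (#T : ℝ) ^ 2 ≤ (B : ℝ) ^ 2 := by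
      apply pow_le_pow_left₀ (by positivity)
      exact_mod_cast hTB
    have h11 : 0 ≤ #Y * p ^ (k + 1) := by positivity
    nlinarith
  rw [h2]
  refine (Pr_mono_anti h0 h1 (allE V) (P := fun E => T.biUnion inE ⊆ E)
    (Q := fun E => NoneIn I a E) (fun S S' h hS => hS.trans h) (NoneIn_anti I a)).trans ?_
  rw [Pr_subset p h3]
  rw [h5] at h4
  have hc0 : 0 ≤ B ^ 2 * #Y * p ^ (k + 1) := by positivity
  have h12 : Pr p (allE V) (fun E => NoneIn I a E) ≤ Real.exp (B ^ 2 * #Y * p ^ (k + 1)) *
      Real.exp (-(#Y * p ^ k)) ^ #T := by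
    refine h4.trans ?_
    rw [← Real.exp_nat_mul, ← Real.exp_add]
    apply Real.exp_le_exp.2
    have : (#T : ℝ) * -(#Y * p ^ k) = -(#Y * #T * p ^ k) := by ring
    rw [this]
    linarith
  calc p ^ #(T.biUnion inE) * Pr p (allE V) (fun E => NoneIn I a E) ≤
      p ^ #(T.biUnion inE) * (Real.exp (B ^ 2 * #Y * p ^ (k + 1)) *
      Real.exp (-(#Y * p ^ k)) ^ #T) := mul_le_mul_of_nonneg_left h12 (pow_nonneg h0 _)
    _ = _ := by ring

/-- The moment bound for bad cliques through `v`. -/
lemma clique_moment {p : ℝ} (h0 : 0 ≤ p) (h1 : p ≤ 1) (Z Y : Finset V) (hYZ : Disjoint Y Z)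
    (v : V) (k B : ℕ) :
    Ex p (allE V) (fun E => (∑ S ∈ (powersetCard k Z).filter (fun S => v ∈ S),
      ind (badE Y S E)) ^ B) ≤
    (B + Real.exp (-(#Y * p ^ k)) * ∑ j ∈ Icc 1 k, ((k * B + 1 : ℕ) : ℝ) ^ j *
      (#Z : ℝ) ^ (k - j) * p ^ (k.choose 2 - j.choose 2)) ^ B *
      Real.exp (B ^ 2 * #Y * p ^ (k + 1)) := by
  set K := (powersetCard k Z).filter (fun S => v ∈ S) with hK
  set ρ := Real.exp (-(#Y * p ^ k)) with hρ
  have hρ0 : 0 ≤ ρ := (Real.exp_pos _).le
  have hρ1 : ρ ≤ 1 := by
    rw [hρ]; apply Real.exp_le_one_iff.2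
    have : 0 ≤ #Y * p ^ k := by positivity
    linarith
  set C₀ := Real.exp (B ^ 2 * #Y * p ^ (k + 1)) with hC₀
  have hC₀0 : 0 ≤ C₀ := (Real.exp_pos _).le
  set Sj := ∑ j ∈ Icc 1 k, ((k * B + 1 : ℕ) : ℝ) ^ j *
      (#Z : ℝ) ^ (k - j) * p ^ (k.choose 2 - j.choose 2) with hSj
  have hS0 : 0 ≤ Sj := sum_nonneg fun j _ => by positivity
  set w : Finset (Finset V) → ℝ := fun T => C₀ * p ^ #(T.biUnion inE) * ρ ^ #T with hw
  have hw0 : ∀ T, 0 ≤ w T := fun T => by positivity
  have hmain := moment_abs h0 h1 (allE V) K (fun S E => badE Y S E) w (B + ρ * Sj)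
    (by positivity) B
    (fun T hT hTB => joint_bound h0 h1 Z Y hYZ k B T (hT.trans (filter_subset _ _)) hTB) ?_
  · have e1 : w ∅ = C₀ := by simp [hw]
    rw [e1] at hmain
    exact hmain
  · intro T hT hTB
    have hKk : ∀ S ∈ K, #S = k := fun S hS => (mem_powersetCard.1 (mem_filter.1 hS).1).2
    set U : Finset V := insert v (T.biUnion id) with hU
    have hUcard : #U ≤ k * B + 1 := by
      calc #U ≤ #(T.biUnion id) + 1 := card_insert_le _ _
        _ ≤ ∑ S ∈ T, #S + 1 := by
            have := card_biUnion_le (s := T) (t := id)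
            simp only [id] at this
            omega
        _ = #T * k + 1 := by
            rw [sum_congr rfl (fun S hS => hKk S (hT hS)), sum_const]; simp
        _ ≤ k * B + 1 := by
            have : #T * k ≤ B * k := Nat.mul_le_mul_right _ hTB.le
            rw [mul_comm k B]; omega
    -- new sets
    have hnew : ∀ S ∈ K, w (insert S T) ≤
        (if S ∈ T then w T else 0) + w T * ρ * p ^ (k.choose 2 - (#(S ∩ U)).choose 2) := by
      intro S hS
      by_cases hST : S ∈ T
      · rw [if_pos hST, insert_eq_of_mem hST]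
        have : 0 ≤ w T * ρ * p ^ (k.choose 2 - (#(S ∩ U)).choose 2) := by
          have := hw0 T
          positivity
        linarith
      · rw [if_neg hST, zero_add]
        simp only [hw]
        rw [card_insert_of_notMem hST, biUnion_insert]
        set X := T.biUnion inE with hX
        have hXU : inE S ∩ X ⊆ inE (S ∩ U) := by
          intro e he
          rw [mem_inter, hX, mem_biUnion] at he
          obtain ⟨he1, S', hS', he2⟩ := he
          have : e ∈ inE S ∩ inE S' := mem_inter.2 ⟨he1, he2⟩
          rw [inE_inter] at this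
          apply inE_mono _ this
          apply inter_subset_inter_left
          rw [hU]
          refine subset_trans ?_ (subset_insert _ _)
          exact subset_biUnion_of_mem id hS'
        have hc : #X + (k.choose 2 - (#(S ∩ U)).choose 2) ≤ #(inE S ∪ X) := by
          have e1 := card_union_add_card_inter (inE S) X
          have e2 := card_le_card hXU
          rw [card_inE] at e2
          rw [card_inE, hKk S hS] at e1
          have e3 : (#(S ∩ U)).choose 2 ≤ k.choose 2 := by
            apply Nat.choose_le_choose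
            rw [← hKk S hS]
            exact card_le_card inter_subset_left
          omega
        have h3 : p ^ #(inE S ∪ X) ≤ p ^ #X * p ^ (k.choose 2 - (#(S ∩ U)).choose 2) := by
          rw [← pow_add]
          exact pow_le_pow_of_le_one h0 h1 hc
        calc C₀ * p ^ #(inE S ∪ X) * ρ ^ (#T + 1) ≤
            C₀ * (p ^ #X * p ^ (k.choose 2 - (#(S ∩ U)).choose 2)) * ρ ^ (#T + 1) := by
              apply mul_le_mul_of_nonneg_right _ (pow_nonneg hρ0 _)
              exact mul_le_mul_of_nonneg_left h3 hC₀0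
          _ = _ := by ring
    calc ∑ S ∈ K, w (insert S T) ≤ ∑ S ∈ K, ((if S ∈ T then w T else 0) +
          w T * ρ * p ^ (k.choose 2 - (#(S ∩ U)).choose 2)) := sum_le_sum hnew
      _ = ∑ S ∈ K, (if S ∈ T then w T else 0) +
          w T * ρ * ∑ S ∈ K, p ^ (k.choose 2 - (#(S ∩ U)).choose 2) := by
            rw [sum_add_distrib, mul_sum]
      _ ≤ B * w T + w T * ρ * Sj := by
            apply add_le_add
            · rw [← sum_filter, sum_const, nsmul_eq_mul]
              apply mul_le_mul_of_nonneg_right _ (hw0 T)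
              have : #(K.filter (fun S => S ∈ T)) ≤ #T := by
                apply card_le_card
                intro S hS
                exact (mem_filter.1 hS).2
              exact_mod_cast this.trans hTB.le
            · apply mul_le_mul_of_nonneg_left _ (mul_nonneg (hw0 T) hρ0)
              have h4 := count_ext Z U k K (filter_subset _ _)
                (fun j => p ^ (k.choose 2 - j.choose 2)) (fun j => pow_nonneg h0 _) (Icc 1 k) ?_
              · refine h4.trans ?_
                rw [hSj]
                apply sum_le_sum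
                intro j _
                apply mul_le_mul_of_nonneg_right _ (pow_nonneg h0 _)
                apply mul_le_mul_of_nonneg_right _ (by positivity)
                apply pow_le_pow_left₀ (by positivity)
                exact_mod_cast hUcard
              · intro S hS
                rw [mem_Icc]
                constructor
                · rw [Nat.succ_le_iff, card_pos]
                  exact ⟨v, mem_inter.2 ⟨(mem_filter.1 hS).2, mem_insert_self _ _⟩⟩
                · rw [← hKk S hS]
                  exact card_le_card inter_subset_left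
      _ = (B + ρ * Sj) * w T := by ring

end Pool.Agent.H94.CC
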