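import Mathlib
import Pool.Agent.H94.CC.Moment

set_option linter.unusedSectionVars false

open Finset

namespace Pool.Agent.H94.CC

variable {V : Type*} [Fintype V] [DecidableEq V]

lemma pick (C : Finset V) (N : V → Finset V) (F : Finset V) (k g : ℕ) (hF : #F ≤ k) (hg : 0 < g)
    (hfar : ∀ u ∈ F, #C ≤ g * #(C \ N u)) :
    ∃ A : Fin k → Finset V, (∀ i, A i ⊆ C) ∧ (∀ i, #C ≤ g * #(A i)) ∧
      ∀ u ∈ F, ∃ i, Disjoint (A i) (N u) := by
  refine ⟨fun i => if h : i.1 < #F then C \ N (F.equivFin.symm ⟨i, h⟩).1 else C, ?_, ?_, ?_⟩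
  · intro i
    beta_reduce
    split_ifs
    · exact sdiff_subset
    · exact Subset.refl _
  · intro i
    beta_reduce
    split_ifs with h
    · exact hfar _ (F.equivFin.symm ⟨i, h⟩).2
    · exact Nat.le_mul_of_pos_left _ hg
  · intro u hu
    refine ⟨⟨(F.equivFin ⟨u, hu⟩).1, lt_of_lt_of_le (F.equivFin ⟨u, hu⟩).2 hF⟩, ?_⟩
    beta_reduce
    rw [dif_pos (F.equivFin ⟨u, hu⟩).2]
    simp only [Fin.eta, Equiv.symm_apply_apply]
    exact sdiff_disjoint

/-- A positive proportion of the `s`-sets is not inside any big set. -/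
lemma DL_big (C : Finset V) (N : V → Finset V) (W : Finset V) (s g : ℕ) (hs : 1 ≤ s)
    (hC : s ≤ #C) (hg : 0 < g) (hN : ∀ u ∈ W, N u ⊆ C) (hfar : ∀ u ∈ W, #C ≤ g * #(C \ N u))
    (hsum : 2 * ∑ u ∈ W, #(N u) ≤ (2 * s - 1) * #C) :
    #C ^ s ≤ 2 * s ^ (s + 1) * g ^ (s - 1) *
      #((powersetCard s C).filter (fun S => ∀ u ∈ W, ¬ S ⊆ N u)) := by
  set X := C.filter (fun x => #(W.filter (fun u => x ∈ N u)) < s) with hX
  -- `X` is large
  have hXcard : #C ≤ 2 * s * #X := by
    have h1 : ∑ x ∈ C, #(W.filter (fun u => x ∈ N u)) = ∑ u ∈ W, #(N u) := by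
      have := sum_card_bipartiteAbove_eq_sum_card_bipartiteBelow (s := C) (t := W)
        (r := fun x u => x ∈ N u)
      unfold bipartiteAbove bipartiteBelow at this
      rw [this]
      apply sum_congr rfl
      intro u hu
      congr 1
      ext x
      rw [mem_filter]
      exact ⟨fun h => h.2, fun h => ⟨hN u hu h, h⟩⟩
    have h2 : s * #(C \ X) ≤ ∑ x ∈ C, #(W.filter (fun u => x ∈ N u)) := by
      calc s * #(C \ X) = ∑ x ∈ C \ X, s := by rw [sum_const, smul_eq_mul, mul_comm]
        _ ≤ ∑ x ∈ C \ X, #(W.filter (fun u => x ∈ N u)) := by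
            apply sum_le_sum
            intro x hx
            rw [mem_sdiff, hX, mem_filter] at hx
            by_contra hcon
            exact hx.2 ⟨hx.1, not_le.1 hcon⟩
        _ ≤ _ := sum_le_sum_of_subset sdiff_subset
    have h3 : #(C \ X) + #X = #C := card_sdiff_add_card_eq_card (filter_subset _ _)
    have h4 : 2 * (s * #(C \ X)) ≤ (2 * s - 1) * #C := by
      rw [h1] at h2; omega
    have h5 : 2 * s * #C = (2 * s - 1) * #C + #C := by
      obtain ⟨s', rfl⟩ : ∃ s', s = s' + 1 := ⟨s - 1, by omega⟩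
      have : 2 * (s' + 1) - 1 = 2 * s' + 1 := by omega
      rw [this]; ring
    have h6 : 2 * s * #C = 2 * (s * #(C \ X)) + 2 * s * #X := by
      rw [← h3]; ring
    omega
  set T : Finset (V × (Fin (s - 1) → V)) := (C ×ˢ Fintype.piFinset (fun _ => C)).filter
    (fun y => ∀ u ∈ W, y.1 ∈ N u → ∃ i, y.2 i ∉ N u) with hT
  -- many tuples
  have hTcard : #X * #C ^ (s - 1) ≤ g ^ (s - 1) * #T := by
    have h1 : ∀ x ∈ X, #C ^ (s - 1) ≤ g ^ (s - 1) * #(T.filter (fun y => y.1 = x)) := by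
      intro x hx
      rw [hX, mem_filter] at hx
      obtain ⟨A, hA1, hA2, hA3⟩ := pick C N (W.filter (fun u => x ∈ N u)) (s - 1) g
        (by omega) hg (fun u hu => hfar u (mem_filter.1 hu).1)
      have h2 : #(Fintype.piFinset A) ≤ #(T.filter (fun y => y.1 = x)) := by
        apply card_le_card_of_injOn (fun f => (x, f))
        · intro f hf
          rw [mem_coe, Fintype.mem_piFinset] at hf
          rw [mem_coe, mem_filter, hT, mem_filter, mem_product, Fintype.mem_piFinset]
          refine ⟨⟨⟨hx.1, fun i => hA1 i (hf i)⟩, ?_⟩, rfl⟩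
          intro u hu hxu
          obtain ⟨i, hi⟩ := hA3 u (mem_filter.2 ⟨hu, hxu⟩)
          exact ⟨i, disjoint_left.1 hi (hf i)⟩
        · intro f _ f' _ h
          simpa using h
      rw [Fintype.card_piFinset] at h2
      calc #C ^ (s - 1) = ∏ _i : Fin (s - 1), #C := by simp
        _ ≤ ∏ i : Fin (s - 1), (g * #(A i)) := prod_le_prod' fun i _ => hA2 i
        _ = g ^ (s - 1) * ∏ i : Fin (s - 1), #(A i) := by rw [prod_mul_distrib]; simp
        _ ≤ _ := Nat.mul_le_mul_left _ h2
    calc #X * #C ^ (s - 1) = ∑ x ∈ X, #C ^ (s - 1) := by rw [sum_const, smul_eq_mul]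
      _ ≤ ∑ x ∈ X, g ^ (s - 1) * #(T.filter (fun y => y.1 = x)) := sum_le_sum h1
      _ = g ^ (s - 1) * ∑ x ∈ X, #(T.filter (fun y => y.1 = x)) := by rw [mul_sum]
      _ ≤ g ^ (s - 1) * ∑ x ∈ C, #(T.filter (fun y => y.1 = x)) := by
          apply Nat.mul_le_mul_left
          exact sum_le_sum_of_subset (filter_subset _ _)
      _ = g ^ (s - 1) * #T := by
          rw [← card_eq_sum_card_fiberwise]
          intro y hy
          rw [mem_coe, hT, mem_filter, mem_product] at hy
          exact hy.1.1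
  -- each tuple extends to a good set
  set Good := (powersetCard s C).filter (fun S => ∀ u ∈ W, ¬ S ⊆ N u) with hGood
  have hext : ∀ y ∈ T, ∃ S ∈ Good, y.1 ∈ S ∧ ∀ i, y.2 i ∈ S := by
    intro y hy
    rw [hT, mem_filter, mem_product, Fintype.mem_piFinset] at hy
    have h1 : insert y.1 (univ.image y.2) ⊆ C := by
      apply insert_subset hy.1.1
      intro v hv
      rw [mem_image] at hv
      obtain ⟨i, _, rfl⟩ := hv
      exact hy.1.2 i
    have h2 : #(insert y.1 (univ.image y.2)) ≤ s := by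
      calc #(insert y.1 (univ.image y.2)) ≤ #(univ.image y.2) + 1 := card_insert_le _ _
        _ ≤ #(univ : Finset (Fin (s - 1))) + 1 := by
            have := card_image_le (s := (univ : Finset (Fin (s - 1)))) (f := y.2)
            omega
        _ = s - 1 + 1 := by simp
        _ = s := by omega
    obtain ⟨S, hS1, hS2, hS3⟩ := exists_subsuperset_card_eq h1 h2 hC
    have hy1 : y.1 ∈ S := hS1 (mem_insert_self _ _)
    have hy2 : ∀ i, y.2 i ∈ S := fun i => hS1 (mem_insert_of_mem (mem_image_of_mem _ (mem_univ i)))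
    refine ⟨S, ?_, hy1, hy2⟩
    rw [hGood, mem_filter, mem_powersetCard]
    refine ⟨⟨hS2, hS3⟩, ?_⟩
    intro u hu hSu
    obtain ⟨i, hi⟩ := hy.2 u hu (hSu hy1)
    exact hi (hSu (hy2 i))
  have hle : #T ≤ s ^ s * #Good := by
    rcases T.eq_empty_or_nonempty with h0 | h0
    · rw [h0]; simp
    choose! φ hφ1 hφ2 hφ3 using hext
    have h1 : T.image φ ⊆ Good := by
      intro S hS
      rw [mem_image] at hS
      obtain ⟨y, hy, rfl⟩ := hS
      exact hφ1 y hy
    calc #T ≤ s ^ s * #(T.image φ) := by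
          apply card_le_mul_card_image
          intro S hS
          have hSg := h1 hS
          have hSs : #S = s := (mem_powersetCard.1 (mem_filter.1 hSg).1).2
          calc #(T.filter (fun y => φ y = S)) ≤ #(S ×ˢ Fintype.piFinset (fun _ : Fin (s - 1) => S)) := by
                apply card_le_card
                intro y hy
                rw [mem_filter] at hy
                rw [mem_product, Fintype.mem_piFinset]
                refine ⟨?_, fun i => ?_⟩
                · rw [← hy.2]; exact hφ2 y hy.1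
                · rw [← hy.2]; exact hφ3 y hy.1 i
            _ = s ^ s := by
                rw [card_product, Fintype.card_piFinset]
                simp only [prod_const, card_univ, Fintype.card_fin, hSs]
                rw [← pow_succ']
                congr 1; omega
      _ ≤ s ^ s * #Good := Nat.mul_le_mul_left _ (card_le_card h1)
  calc #C ^ s = #C * #C ^ (s - 1) := by rw [← pow_succ']; congr 1; omega
    _ ≤ (2 * s * #X) * #C ^ (s - 1) := Nat.mul_le_mul_right _ hXcard
    _ = 2 * s * (#X * #C ^ (s - 1)) := by ring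
    _ ≤ 2 * s * (g ^ (s - 1) * #T) := Nat.mul_le_mul_left _ hTcard
    _ ≤ 2 * s * (g ^ (s - 1) * (s ^ s * #Good)) := by
        apply Nat.mul_le_mul_left
        exact Nat.mul_le_mul_left _ hle
    _ = 2 * s ^ (s + 1) * g ^ (s - 1) * #Good := by ring

/-- The proportion constant. -/
noncomputable def c2 (s g : ℕ) : ℝ := 1 / (4 * (s : ℝ) ^ (s + 1) * (g : ℝ) ^ (s - 1))

lemma c2_pos (s g : ℕ) (hs : 1 ≤ s) (hg : 0 < g) : 0 < c2 s g := by
  unfold c2
  have : (0 : ℝ) < s := by exact_mod_cast hs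
  have : (0 : ℝ) < g := by exact_mod_cast hg
  positivity

/-- A positive proportion of the `s`-sets is not inside any big or medium set. -/
lemma DL (C : Finset V) (N : V → Finset V) (W W' : Finset V) (s g : ℕ) (hs : 1 ≤ s)
    (hC : s ≤ #C) (hg : 0 < g) (hN : ∀ u ∈ W, N u ⊆ C)
    (hfar : ∀ u ∈ W, #C ≤ g * #(C \ N u))
    (hsum : 2 * ∑ u ∈ W, #(N u) ≤ (2 * s - 1) * #C) (θ D : ℝ) (hθ : 0 ≤ θ)
    (hsmall : ∀ u ∈ W', (#(N u) : ℝ) ≤ θ * #C) (hsum' : ∑ u ∈ W', (#(N u) : ℝ) ≤ D * #C)
    (hθD : θ ^ (s - 1) * D ≤ c2 s g) :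
    c2 s g * (#C : ℝ) ^ s ≤
      #((powersetCard s C).filter (fun S => ∀ u ∈ W ∪ W', ¬ S ⊆ N u)) := by
  have h1 := DL_big C N W s g hs hC hg hN hfar hsum
  set Good := (powersetCard s C).filter (fun S => ∀ u ∈ W, ¬ S ⊆ N u) with hGood
  have h2 : Good ⊆ (powersetCard s C).filter (fun S => ∀ u ∈ W ∪ W', ¬ S ⊆ N u) ∪
      W'.biUnion (fun u => powersetCard s (N u)) := by
    intro S hS
    rw [hGood, mem_filter] at hS
    rw [mem_union, mem_filter, mem_biUnion]
    by_cases h : ∃ u ∈ W', S ⊆ N u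
    · right
      obtain ⟨u, hu, hSu⟩ := h
      exact ⟨u, hu, mem_powersetCard.2 ⟨hSu, (mem_powersetCard.1 hS.1).2⟩⟩
    · left
      push Not at h
      refine ⟨hS.1, fun u hu => ?_⟩
      rcases mem_union.1 hu with hu | hu
      · exact hS.2 u hu
      · exact h u hu
  have h3 : (#Good : ℝ) ≤ #((powersetCard s C).filter (fun S => ∀ u ∈ W ∪ W', ¬ S ⊆ N u)) +
      ∑ u ∈ W', (#(N u) : ℝ) ^ s := by
    have e1 := (card_le_card h2).trans (card_union_le _ _)
    have e2 : #(W'.biUnion (fun u => powersetCard s (N u))) ≤ ∑ u ∈ W', #(N u) ^ s := by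
      refine card_biUnion_le.trans (sum_le_sum fun u _ => ?_)
      rw [card_powersetCard]
      exact Nat.choose_le_pow _ _
    exact_mod_cast e1.trans (Nat.add_le_add_left e2 _)
  have h4 : ∑ u ∈ W', (#(N u) : ℝ) ^ s ≤ c2 s g * (#C : ℝ) ^ s := by
    have e0 : (0 : ℝ) ≤ #C := by positivity
    calc ∑ u ∈ W', (#(N u) : ℝ) ^ s ≤ ∑ u ∈ W', (θ * #C) ^ (s - 1) * #(N u) := by
          apply sum_le_sum
          intro u hu
          have : (#(N u) : ℝ) ^ s = (#(N u) : ℝ) ^ (s - 1) * #(N u) := by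
            rw [← pow_succ]; congr 1; omega
          rw [this]
          apply mul_le_mul_of_nonneg_right _ (by positivity)
          exact pow_le_pow_left₀ (by positivity) (hsmall u hu) _
      _ = (θ * #C) ^ (s - 1) * ∑ u ∈ W', (#(N u) : ℝ) := by rw [mul_sum]
      _ ≤ (θ * #C) ^ (s - 1) * (D * #C) := mul_le_mul_of_nonneg_left hsum' (by positivity)
      _ = (θ ^ (s - 1) * D) * (#C : ℝ) ^ s := by
          have : (#C : ℝ) ^ s = (#C : ℝ) ^ (s - 1) * #C := by
            rw [← pow_succ]; congr 1; omega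
          rw [this, mul_pow]; ring
      _ ≤ c2 s g * (#C : ℝ) ^ s := mul_le_mul_of_nonneg_right hθD (by positivity)
  have h5 : 2 * (c2 s g * (#C : ℝ) ^ s) ≤ #Good := by
    have hs' : (0 : ℝ) < s := by exact_mod_cast hs
    have hg' : (0 : ℝ) < g := by exact_mod_cast hg
    have e1 : (#C : ℝ) ^ s ≤ 2 * (s : ℝ) ^ (s + 1) * (g : ℝ) ^ (s - 1) * #Good := by
      exact_mod_cast h1
    have e2 : 2 * (c2 s g * (#C : ℝ) ^ s) =
        (2 * (#C : ℝ) ^ s) / (4 * (s : ℝ) ^ (s + 1) * (g : ℝ) ^ (s - 1)) := by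
      unfold c2; ring
    rw [e2, div_le_iff₀ (by positivity)]
    linarith
  linarith

end Pool.Agent.H94.CC
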