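import Mathlib

/-!
Definitions for the clique chromatic number.
-/

namespace Pool.Agent.H94.CC

/-- `c` is a clique colouring of `G`: no inclusion-maximal clique of `G` with at least two
vertices is monochromatic. -/
def IsCliqueColouring {V C : Type*} (G : SimpleGraph V) (c : V → C) : Prop :=
  ∀ K : Set V, Maximal G.IsClique K → K.Nontrivial → ¬ ∃ a : C, ∀ v ∈ K, c v = a

/-- The clique chromatic number: the least number of colours in a clique colouring. -/
noncomputable def cliqueChromaticNumber {V : Type*} (G : SimpleGraph V) : ℕ :=
  sInf {k : ℕ | ∃ c : V → Fin k, IsCliqueColouring G c}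

end Pool.Agent.H94.CC
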