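import Mathlib
import Pool.Agent.H94.CC.Defs

set_option linter.unusedSectionVars false

open Finset

namespace Pool.Agent.H94.CC

variable {V : Type*} [Fintype V] [DecidableEq V]

/-! ### Deterministic part of the lower bound -/

/-- A clique of `C'` without common neighbour outside `C'` extends to a maximal clique in `C'`. -/
lemma exists_maximal_in (G : SimpleGraph V) (C' K : Finset V) (hK : K ⊆ C')
    (hcl : G.IsClique (K : Set V)) (h2 : 2 ≤ #K)
    (hout : ∀ u, u ∉ C' → ∃ w ∈ K, ¬ G.Adj u w) :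
    ∃ L : Set V, Maximal G.IsClique L ∧ L.Nontrivial ∧ L ⊆ C' := by
  obtain ⟨L, hKL, hL⟩ := (Set.toFinite {L : Set V | G.IsClique L}).exists_le_maximal hcl
  have hL' : Maximal G.IsClique L := hL
  refine ⟨L, hL', ?_, ?_⟩
  · have h1 : (K : Set V).Nontrivial := by
      rw [← Finset.Nontrivial, ← Finset.one_lt_card_iff_nontrivial]
      exact h2
    exact h1.mono hKL
  · intro w hw
    by_contra hwC
    obtain ⟨v, hv, hadj⟩ := hout w hwC
    apply hadj
    have hne : w ≠ v := by rintro rfl; exact hwC (hK hv)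
    exact hL'.prop hw (hKL hv) hne

open Classical in
/-- The selection lemma. -/
lemma selection (G : SimpleGraph V) (M J : ℕ) (hM : 0 < M)
    (F2 : ∀ T : Finset V, #T = J → 2 * #(univ.filter fun v => ∀ w ∈ T, G.Adj w v) < M)
    (C : Finset V) (hC : ∀ v, M ≤ #(C.filter fun w => ¬ G.Adj v w))
    (hne : Nonempty V) (hJ : 0 < J) :
    ∃ C' ⊆ C, M ≤ #C' ∧ #C' ≤ (J + 1) * M ∧
      ∀ v, M ≤ 2 * J * #(C'.filter fun w => ¬ G.Adj v w) := by
  by_contra hcon
  push Not at hcon
  obtain ⟨v₀⟩ := hne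
  have hCM : M ≤ #C := (hC v₀).trans (card_le_card (filter_subset _ _))
  obtain ⟨C0, hC0, hC0M⟩ := exists_subset_card_eq hCM
  have key : ∀ i : ℕ, i ≤ J → ∃ (C' T : Finset V), #T = i ∧ C0 ⊆ C' ∧ C' ⊆ C ∧ #C' ≤ (i + 1) * M ∧
      (∀ v ∈ T, 2 * J * #(C0.filter fun w => ¬ G.Adj v w) < M) ∧
      (∀ v ∈ T, M ≤ #(C'.filter fun w => ¬ G.Adj v w)) := by
    intro i
    induction i with
    | zero =>
      intro _
      refine ⟨C0, ∅, rfl, Subset.refl _, hC0, ?_, by simp, by simp⟩
      rw [hC0M]; simp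
    | succ i ih =>
      intro hi
      obtain ⟨C', T, hT, h1, h2, h3, h4, h5⟩ := ih (by omega)
      have h6 : #C' ≤ (J + 1) * M := h3.trans (Nat.mul_le_mul_right _ (by omega))
      have h7 : M ≤ #C' := by rw [← hC0M]; exact card_le_card h1
      obtain ⟨v, hv⟩ := hcon C' h2 h7 h6
      obtain ⟨D, hD, hDM⟩ := exists_subset_card_eq (hC v)
      have hvT : v ∉ T := by
        intro hvT
        have h8 := h5 v hvT
        have h9 : #(C'.filter fun w => ¬ G.Adj v w) ≤ 2 * J * #(C'.filter fun w => ¬ G.Adj v w) :=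
          Nat.le_mul_of_pos_left _ (by omega)
        omega
      refine ⟨C' ∪ D, insert v T, ?_, h1.trans subset_union_left, ?_, ?_, ?_, ?_⟩
      · rw [card_insert_of_notMem hvT, hT]
      · apply union_subset h2
        exact hD.trans (filter_subset _ _)
      · calc #(C' ∪ D) ≤ #C' + #D := card_union_le _ _
          _ ≤ (i + 1) * M + M := by rw [hDM]; omega
          _ = (i + 1 + 1) * M := by ring
      · intro w hw
        rw [mem_insert] at hw
        rcases hw with rfl | hw
        · refine lt_of_le_of_lt ?_ hv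
          apply Nat.mul_le_mul_left
          exact card_le_card (filter_subset_filter _ h1)
        · exact h4 w hw
      · intro w hw
        rw [mem_insert] at hw
        rcases hw with rfl | hw
        · rw [← hDM]
          apply card_le_card
          intro x hx
          rw [mem_filter]
          have := hD hx
          rw [mem_filter] at this
          exact ⟨mem_union_right _ hx, this.2⟩
        · refine (h5 w hw).trans ?_
          exact card_le_card (filter_subset_filter _ subset_union_left)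
  obtain ⟨C', T, hT, h1, h2, h3, h4, h5⟩ := key J le_rfl
  have hF := F2 T hT
  -- `C0` minus the common neighbourhood is covered by the non-neighbourhoods
  have hcover : C0 ⊆ (univ.filter fun v => ∀ w ∈ T, G.Adj w v) ∪
      T.biUnion (fun v => C0.filter fun w => ¬ G.Adj v w) := by
    intro x hx
    rw [mem_union, mem_filter]
    by_cases h : ∀ w ∈ T, G.Adj w x
    · left; exact ⟨mem_univ _, h⟩
    · right
      push Not at h
      obtain ⟨w, hw, hwx⟩ := h
      rw [mem_biUnion]
      exact ⟨w, hw, mem_filter.2 ⟨hx, hwx⟩⟩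
  have hcard := card_le_card hcover
  have hb : #(T.biUnion (fun v => C0.filter fun w => ¬ G.Adj v w)) ≤
      ∑ v ∈ T, #(C0.filter fun w => ¬ G.Adj v w) := card_biUnion_le
  have hs : 2 * J * ∑ v ∈ T, #(C0.filter fun w => ¬ G.Adj v w) ≤ J * M := by
    rw [mul_sum]
    calc ∑ v ∈ T, 2 * J * #(C0.filter fun w => ¬ G.Adj v w) ≤ ∑ v ∈ T, M :=
          sum_le_sum fun v hv => (h4 v hv).le
      _ = J * M := by rw [sum_const, hT]; simp
  have hs' : 2 * ∑ v ∈ T, #(C0.filter fun w => ¬ G.Adj v w) ≤ M := by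
    have : J * (2 * ∑ v ∈ T, #(C0.filter fun w => ¬ G.Adj v w)) ≤ J * M := by
      calc J * (2 * ∑ v ∈ T, #(C0.filter fun w => ¬ G.Adj v w)) =
          2 * J * ∑ v ∈ T, #(C0.filter fun w => ¬ G.Adj v w) := by ring
        _ ≤ _ := hs
    exact Nat.le_of_mul_le_mul_left this hJ
  have hcu := card_union_le (univ.filter fun v => ∀ w ∈ T, G.Adj w v)
    (T.biUnion (fun v => C0.filter fun w => ¬ G.Adj v w))
  omega

open Classical in
/-- Deterministic part of the lower bound. -/
lemma lower_det (G : SimpleGraph V) (t M J : ℕ) (hM : 0 < M) (hJ : 0 < J) (hne : Nonempty V)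
    (F1 : ∀ T : Finset V, #T ≤ t →
      t * M < #(univ.filter fun v => v ∉ T ∧ ∀ w ∈ T, ¬ G.Adj w v))
    (F2 : ∀ T : Finset V, #T = J → 2 * #(univ.filter fun v => ∀ w ∈ T, G.Adj w v) < M)
    (F3 : ∀ C' : Finset V, M ≤ #C' → #C' ≤ (J + 1) * M →
      (∀ u, #C' ≤ 2 * J * (J + 1) * #(C'.filter fun w => ¬ G.Adj u w)) →
      ∃ K ⊆ C', 2 ≤ #K ∧ G.IsClique (K : Set V) ∧ ∀ u, u ∉ C' → ∃ w ∈ K, ¬ G.Adj u w)
    {k : ℕ} (c : V → Fin k) (hc : IsCliqueColouring G c) : t < k := by
  by_contra hk
  push Not at hk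
  -- every class is nearly contained in a neighbourhood
  have hclass : ∀ i : Fin k, ∃ v, #((univ.filter fun w => c w = i).filter fun w => ¬ G.Adj v w) < M := by
    intro i
    by_contra hcon
    push Not at hcon
    obtain ⟨C', hC', h1, h2, h3⟩ := selection G M J hM F2 _ hcon hne hJ
    obtain ⟨K, hK, hK2, hKcl, hKout⟩ := F3 C' h1 h2 (by
      intro u
      calc #C' ≤ (J + 1) * M := h2
        _ ≤ (J + 1) * (2 * J * #(C'.filter fun w => ¬ G.Adj u w)) := Nat.mul_le_mul_left _ (h3 u)
        _ = _ := by ring)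
    obtain ⟨L, hL, hLn, hLC⟩ := exists_maximal_in G C' K hK hKcl hK2 hKout
    apply hc L hL hLn
    refine ⟨i, fun v hv => ?_⟩
    have := hC' (hLC hv)
    rw [mem_filter] at this
    exact this.2
  choose v hv using hclass
  set T : Finset V := univ.image v with hT
  have hTcard : #T ≤ t := by
    calc #T ≤ #(univ : Finset (Fin k)) := card_image_le
      _ = k := by simp
      _ ≤ t := hk
  have h1 := F1 T hTcard
  have hcover : (univ.filter fun w => w ∉ T ∧ ∀ x ∈ T, ¬ G.Adj x w) ⊆
      (univ : Finset (Fin k)).biUnion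
        (fun i => (univ.filter fun w => c w = i).filter fun w => ¬ G.Adj (v i) w) := by
    intro w hw
    rw [mem_filter] at hw
    rw [mem_biUnion]
    refine ⟨c w, mem_univ _, ?_⟩
    rw [mem_filter, mem_filter]
    exact ⟨⟨mem_univ _, rfl⟩, hw.2.2 _ (by rw [hT]; exact mem_image_of_mem _ (mem_univ _))⟩
  have h2 := (card_le_card hcover).trans card_biUnion_le
  have h3 : ∑ i : Fin k, #((univ.filter fun w => c w = i).filter fun w => ¬ G.Adj (v i) w) ≤
      ∑ _i : Fin k, M := sum_le_sum fun i _ => (hv i).le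
  have h4 : ∑ _i : Fin k, M = k * M := by simp
  have h5 : k * M ≤ t * M := Nat.mul_le_mul_right _ hk
  omega

/-! ### Deterministic part of the upper bound -/

open Classical in
/-- The number of colourings that are monochromatic on `S`. -/
lemma card_mono_le (q : ℕ) (S : Finset V) (hS : S.Nonempty) :
    #((univ : Finset (V → Fin q)).filter fun c => ∃ a, ∀ x ∈ S, c x = a) * q ^ (#S - 1) ≤
      q ^ Fintype.card V := by
  obtain ⟨x₀, hx₀⟩ := hS
  have h1 : #((univ : Finset (V → Fin q)).filter fun c => ∃ a, ∀ x ∈ S, c x = a) ≤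
      Fintype.card ({v : V // v ∉ S.erase x₀} → Fin q) := by
    rw [← card_univ]
    apply card_le_card_of_injOn (fun c v => c v.1) (fun _ _ => mem_coe.2 (mem_univ _))
    intro c hc c' hc' h
    rw [mem_coe, mem_filter] at hc hc'
    obtain ⟨a, ha⟩ := hc.2
    obtain ⟨a', ha'⟩ := hc'.2
    have haa : a = a' := by
      have h2 := congrFun h ⟨x₀, by simp⟩
      simp only at h2
      rw [← ha x₀ hx₀, ← ha' x₀ hx₀]; exact h2
    ext v
    by_cases hv : v ∈ S.erase x₀
    · have hvS := (mem_erase.1 hv).2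
      rw [ha v hvS, ha' v hvS, haa]
    · have h2 := congrFun h ⟨v, hv⟩
      simp only at h2
      rw [h2]
  have h2 : Fintype.card {v : V // v ∉ S.erase x₀} = Fintype.card V - (#S - 1) := by
    rw [← card_erase_of_mem hx₀, Fintype.card_subtype, ← card_compl]
    congr 1
    ext v
    rw [mem_filter, mem_compl]
    simp only [mem_univ, true_and]
  rw [Fintype.card_fun, Fintype.card_fin, h2] at h1
  have h3 : #S ≤ Fintype.card V := card_le_univ S
  calc #((univ : Finset (V → Fin q)).filter fun c => ∃ a, ∀ x ∈ S, c x = a) * q ^ (#S - 1) ≤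
      q ^ (Fintype.card V - (#S - 1)) * q ^ (#S - 1) := Nat.mul_le_mul_right _ h1
    _ = q ^ Fintype.card V := by
      rw [← pow_add]; congr 1; omega

open Classical in
/-- One round of colouring. -/
lemma one_round (q : ℕ) (hq : 0 < q) (B : Finset (Finset V)) (L : Finset V) (κ : ℝ)
    (hB : ∀ S ∈ B, S.Nonempty)
    (hdeg : ∀ v ∈ L, ∑ S ∈ B.filter (fun S => v ∈ S), (1 : ℝ) / (q : ℝ) ^ (#S - 1) ≤ κ) :
    ∃ c : V → Fin q, (#((B.filter (fun S => S ⊆ L)).filter
      (fun S => ∃ a, ∀ x ∈ S, c x = a)) : ℝ) ≤ κ * #L := by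
  by_contra hcon
  push Not at hcon
  have hq' : (0 : ℝ) < q := by exact_mod_cast hq
  -- total count
  have h1 : ∑ _c : V → Fin q, κ * #L <
      ∑ c : V → Fin q, (#((B.filter (fun S => S ⊆ L)).filter
        (fun S => ∃ a, ∀ x ∈ S, c x = a)) : ℝ) := by
    apply sum_lt_sum_of_nonempty
    · have : Nonempty (Fin q) := ⟨⟨0, hq⟩⟩
      exact univ_nonempty
    · intro c _; exact hcon c
  have h2 : ∑ c : V → Fin q, (#((B.filter (fun S => S ⊆ L)).filter
        (fun S => ∃ a, ∀ x ∈ S, c x = a)) : ℝ) =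
      ∑ S ∈ B.filter (fun S => S ⊆ L),
        (#((univ : Finset (V → Fin q)).filter fun c => ∃ a, ∀ x ∈ S, c x = a) : ℝ) := by
    have := sum_card_bipartiteAbove_eq_sum_card_bipartiteBelow
      (s := (univ : Finset (V → Fin q))) (t := B.filter (fun S => S ⊆ L))
      (r := fun c S => ∃ a, ∀ x ∈ S, c x = a)
    unfold bipartiteAbove bipartiteBelow at this
    exact_mod_cast this
  have h3 : ∑ S ∈ B.filter (fun S => S ⊆ L),
        (#((univ : Finset (V → Fin q)).filter fun c => ∃ a, ∀ x ∈ S, c x = a) : ℝ) ≤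
      ∑ S ∈ B.filter (fun S => S ⊆ L), (q : ℝ) ^ Fintype.card V * (1 / (q : ℝ) ^ (#S - 1)) := by
    apply sum_le_sum
    intro S hS
    have h := card_mono_le q S (hB S (mem_filter.1 hS).1)
    rw [mul_one_div, le_div_iff₀ (by positivity)]
    exact_mod_cast h
  have h4 : ∑ S ∈ B.filter (fun S => S ⊆ L), (1 / (q : ℝ) ^ (#S - 1)) ≤ κ * #L := by
    calc ∑ S ∈ B.filter (fun S => S ⊆ L), (1 / (q : ℝ) ^ (#S - 1)) ≤
        ∑ v ∈ L, ∑ S ∈ B.filter (fun S => v ∈ S), (1 : ℝ) / (q : ℝ) ^ (#S - 1) := by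
          have e1 : ∑ v ∈ L, ∑ S ∈ B.filter (fun S => v ∈ S), (1 : ℝ) / (q : ℝ) ^ (#S - 1) =
              ∑ S ∈ B, ∑ v ∈ L, if v ∈ S then (1 : ℝ) / (q : ℝ) ^ (#S - 1) else 0 := by
            rw [sum_comm]
            apply sum_congr rfl
            intro v _
            rw [sum_filter]
          rw [e1, sum_filter]
          apply sum_le_sum
          intro S hS
          split_ifs with hSL
          · obtain ⟨x, hx⟩ := hB S hS
            have e2 : (if x ∈ S then (1 : ℝ) / (q : ℝ) ^ (#S - 1) else 0) ≤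
                ∑ v ∈ L, if v ∈ S then (1 : ℝ) / (q : ℝ) ^ (#S - 1) else 0 :=
              single_le_sum (f := fun v => if v ∈ S then (1 : ℝ) / (q : ℝ) ^ (#S - 1) else 0)
              (fun v _ => by
                beta_reduce
                split_ifs
                · positivity
                · exact le_rfl) (hSL hx)
            rwa [if_pos hx] at e2
          · apply sum_nonneg
            intro v _
            split_ifs
            · positivity
            · exact le_rfl
      _ ≤ ∑ v ∈ L, κ := sum_le_sum hdeg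
      _ = κ * #L := by rw [sum_const, nsmul_eq_mul]; ring
  rw [← mul_sum] at h3
  rw [h2] at h1
  have h5 : ∑ _c : V → Fin q, κ * (#L : ℝ) = (q : ℝ) ^ Fintype.card V * (κ * #L) := by
    rw [sum_const, card_univ, Fintype.card_fun, Fintype.card_fin, nsmul_eq_mul]
    push_cast; ring
  rw [h5] at h1
  have h6 : (q : ℝ) ^ Fintype.card V * ∑ S ∈ B.filter (fun S => S ⊆ L), (1 / (q : ℝ) ^ (#S - 1)) ≤
      (q : ℝ) ^ Fintype.card V * (κ * #L) := mul_le_mul_of_nonneg_left h4 (by positivity)
  linarith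

open Classical in
/-- Hypergraph colouring with small degrees. -/
lemma hyper_colour (q : ℕ) (hq : 0 < q) (B : Finset (Finset V)) (Z : Finset V) (κ : ℝ)
    (hκ : 0 ≤ κ) (hB : ∀ S ∈ B, S.Nonempty)
    (hdeg : ∀ v ∈ Z, ∑ S ∈ B.filter (fun S => v ∈ S), (1 : ℝ) / (q : ℝ) ^ (#S - 1) ≤ κ) (r : ℕ) :
    ∀ L ⊆ Z, (#L : ℝ) * κ ^ r < 1 → ∃ c : V → ℕ, (∀ v ∈ L, c v < q * r) ∧
      ∀ S ∈ B, S ⊆ L → ¬ ∃ a, ∀ x ∈ S, c x = a := by
  induction r with
  | zero =>
    intro L _ hL1
    rw [pow_zero, mul_one] at hL1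
    have : #L = 0 := by
      have : (#L : ℝ) < 1 := hL1
      have : #L < 1 := by exact_mod_cast this
      omega
    rw [card_eq_zero] at this
    subst this
    refine ⟨fun _ => 0, by simp, ?_⟩
    intro S hS hS' _
    exact (hB S hS).ne_empty (subset_empty.1 hS')
  | succ r ih =>
    intro L hLZ hL
    rcases isEmpty_or_nonempty V with hV | hV
    · refine ⟨fun _ => 0, fun v _ => (hV.false v).elim, ?_⟩
      intro S hS _ _
      obtain ⟨x, _⟩ := hB S hS
      exact hV.false x
    obtain ⟨c₀, hc₀⟩ := one_round q hq B L κ hB (fun v hv => hdeg v (hLZ hv))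
    set Bm := (B.filter (fun S => S ⊆ L)).filter (fun S => ∃ a, ∀ x ∈ S, c₀ x = a) with hBm
    have hBmne : ∀ S ∈ Bm, S.Nonempty := fun S hS => hB S (mem_filter.1 (mem_filter.1 hS).1).1
    -- choose a vertex in each monochromatic set
    choose! f hf using hBmne
    set L' := Bm.image f with hL'
    have hL'L : L' ⊆ L := by
      intro x hx
      rw [hL', mem_image] at hx
      obtain ⟨S, hS, rfl⟩ := hx
      exact (mem_filter.1 (mem_filter.1 hS).1).2 (hf S hS)
    have hcard : (#L' : ℝ) ≤ κ * #L := by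
      have : #L' ≤ #Bm := card_image_le
      have : (#L' : ℝ) ≤ #Bm := by exact_mod_cast this
      linarith
    obtain ⟨c₁, hc₁, hc₁'⟩ := ih L' (hL'L.trans hLZ) (by
      calc (#L' : ℝ) * κ ^ r ≤ (κ * #L) * κ ^ r :=
            mul_le_mul_of_nonneg_right hcard (by positivity)
        _ = #L * κ ^ (r + 1) := by ring
        _ < 1 := hL)
    refine ⟨fun v => if v ∈ L' then c₁ v else q * r + c₀ v, ?_, ?_⟩
    · intro v _
      beta_reduce
      split_ifs with h
      · have := hc₁ v h
        calc c₁ v < q * r := this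
          _ ≤ q * (r + 1) := Nat.mul_le_mul_left _ (by omega)
      · have := (c₀ v).2
        calc q * r + (c₀ v : ℕ) < q * r + q := by omega
          _ = q * (r + 1) := by ring
    · rintro S hS hSL ⟨a, ha⟩
      beta_reduce at ha
      by_cases h1 : S ⊆ L'
      · apply hc₁' S hS h1
        refine ⟨a, fun x hx => ?_⟩
        have := ha x hx
        rwa [if_pos (h1 hx)] at this
      · rw [not_subset] at h1
        obtain ⟨y, hy, hyL'⟩ := h1
        have hya := ha y hy
        rw [if_neg hyL'] at hya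
        -- no element of `S` is in `L'`
        have h2 : ∀ x ∈ S, x ∉ L' := by
          intro x hx hxL'
          have hxa := ha x hx
          rw [if_pos hxL'] at hxa
          have := hc₁ x hxL'
          omega
        have h3 : ∃ b, ∀ x ∈ S, c₀ x = b := by
          refine ⟨c₀ y, fun x hx => ?_⟩
          have hxa := ha x hx
          rw [if_neg (h2 x hx)] at hxa
          apply Fin.ext
          omega
        have hSBm : S ∈ Bm := by
          rw [hBm, mem_filter, mem_filter]
          exact ⟨⟨hS, hSL⟩, h3⟩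
        exact h2 (f S) (hf S hSBm) (mem_image_of_mem f hSBm)

open Classical in
/-- Deterministic part of the upper bound. -/
lemma upper_det (G : SimpleGraph V) (t s q r : ℕ) (hq : 0 < q) (x : Fin t → V)
    (U3 : ∀ K : Finset V, 2 ≤ #K → #K < s → ∃ u, ∀ w ∈ K, G.Adj u w) (hs : 2 ≤ s)
    (R₀ : Finset V) (hR₀ : ∀ v, v ∈ R₀ ↔ (∀ i, ¬ G.Adj (x i) v) ∧ ∀ i, x i ≠ v)
    (B : Finset (Finset V)) (hB : ∀ S ∈ B, S.Nonempty)
    (hB1 : ∀ S : Finset V, S ⊆ R₀ → #S = s → G.IsClique (S : Set V) →
      (¬ ∃ u, ∀ w ∈ S, G.Adj u w) → S ∈ B)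
    (hB2 : ∀ S : Finset V, S ⊆ R₀ → #S = s + 1 → G.IsClique (S : Set V) → S ∈ B)
    (κ : ℝ) (hκ : 0 ≤ κ)
    (hdeg : ∀ v ∈ R₀, ∑ S ∈ B.filter (fun S => v ∈ S), (1 : ℝ) / (q : ℝ) ^ (#S - 1) ≤ κ)
    (hr : (#R₀ : ℝ) * κ ^ r < 1) :
    ∃ c : V → Fin (t + (q * r + 1)), IsCliqueColouring G c := by
  obtain ⟨c', hc', hc''⟩ := hyper_colour q hq B R₀ κ hκ hB hdeg r R₀ (Subset.refl _) hr
  -- the first index of a neighbour
  set cc : V → ℕ := fun v => if h : ∃ i, G.Adj (x i) v then (Fin.find (fun i => G.Adj (x i) v) h : ℕ)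
    else if v ∈ R₀ then t + c' v else t with hcc
  have hlt : ∀ v, cc v < t + (q * r + 1) := by
    intro v
    simp only [hcc]
    split_ifs with h1 h2
    · have := (Fin.find (fun i => G.Adj (x i) v) h1).2
      omega
    · have := hc' v h2
      omega
    · omega
  refine ⟨fun v => ⟨cc v, hlt v⟩, ?_⟩
  rintro K hK hKn ⟨a, ha⟩
  have hcl : G.IsClique K := hK.prop
  have hKfin : K.Finite := Set.toFinite K
  have hmax : ¬ ∃ u, ∀ w ∈ K, G.Adj u w := by
    rintro ⟨u, hu⟩
    have huK : u ∉ K := fun h => (G.loopless.irrefl u) (hu u h)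
    have h1 : G.IsClique (insert u K) := hcl.insert fun b hb _ => hu b hb
    have h2 := hK.le_of_ge h1 (Set.subset_insert _ _)
    exact huK (h2 (Set.mem_insert _ _))
  have hval : ∀ v ∈ K, cc v = a := fun v hv => by
    have := ha v hv
    rw [Fin.ext_iff] at this
    exact this
  obtain ⟨v₀, hv₀⟩ := hKn.nonempty
  by_cases hcase : ∃ i, G.Adj (x i) v₀
  · -- the colour is an index `i` and `K ⊆ N(x i)`
    have h1 := hval v₀ hv₀
    simp only [hcc, dif_pos hcase] at h1
    have hat : (a : ℕ) < t := by rw [← h1]; exact (Fin.find _ hcase).2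
    apply hmax
    refine ⟨x ⟨a, hat⟩, fun w hw => ?_⟩
    have h2 := hval w hw
    by_cases h3 : ∃ i, G.Adj (x i) w
    · simp only [hcc, dif_pos h3] at h2
      have h4 : Fin.find (fun i => G.Adj (x i) w) h3 = ⟨a, hat⟩ := Fin.ext h2
      have h5 := Fin.find_spec (p := fun i => G.Adj (x i) w) h3
      rw [h4] at h5
      exact h5
    · simp only [hcc, dif_neg h3] at h2
      split_ifs at h2 <;> omega
  · -- `K` is inside the uncovered set
    have h1 := hval v₀ hv₀
    simp only [hcc, dif_neg hcase] at h1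
    have hat : t ≤ (a : ℕ) := by split_ifs at h1 <;> omega
    have hunc : ∀ w ∈ K, ¬ ∃ i, G.Adj (x i) w := by
      intro w hw h3
      have h2 := hval w hw
      simp only [hcc, dif_pos h3] at h2
      have := (Fin.find (fun i => G.Adj (x i) w) h3).2
      omega
    have hKR : ∀ w ∈ K, w ∈ R₀ := by
      intro w hw
      rw [hR₀]
      have h2 := hunc w hw
      push Not at h2
      refine ⟨h2, fun i hi => ?_⟩
      -- `w = x i` has a neighbour in `K`
      obtain ⟨w', hw', hne⟩ := hKn.exists_ne w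
      have h3 : G.Adj w w' := hcl hw hw' hne.symm
      apply hunc w' hw'
      exact ⟨i, by rw [hi]; exact h3⟩
    set K' := hKfin.toFinset with hK'
    have hK'c : (K' : Set V) = K := hKfin.coe_toFinset
    have hmem : ∀ w, w ∈ K' ↔ w ∈ K := fun w => hKfin.mem_toFinset
    have hK'R : K' ⊆ R₀ := fun w hw => hKR w ((hmem w).1 hw)
    have h2K : 2 ≤ #K' := by
      have : K'.Nontrivial := by rw [Finset.Nontrivial, hK'c]; exact hKn
      exact Finset.one_lt_card_iff_nontrivial.2 this
    have hmono : ∀ S ⊆ K', S ∉ B := by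
      intro S hSK hSB
      apply hc'' S hSB (hSK.trans hK'R)
      refine ⟨a - t, fun w hw => ?_⟩
      have hwK := (hmem w).1 (hSK hw)
      have h2 := hval w hwK
      simp only [hcc, dif_neg (hunc w hwK), if_pos (hKR w hwK)] at h2
      omega
    -- size of `K'`
    have hclK' : G.IsClique (K' : Set V) := by rw [hK'c]; exact hcl
    rcases lt_trichotomy (#K') s with h | h | h
    · obtain ⟨u, hu⟩ := U3 K' h2K h
      exact hmax ⟨u, fun w hw => hu w ((hmem w).2 hw)⟩
    · apply hmono K' (Subset.refl _)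
      apply hB1 K' hK'R h hclK'
      rintro ⟨u, hu⟩
      exact hmax ⟨u, fun w hw => hu w ((hmem w).2 hw)⟩
    · obtain ⟨S, hS, hSc⟩ := exists_subset_card_eq (s := K') (n := s + 1) h
      apply hmono S hS
      apply hB2 S (hS.trans hK'R) hSc
      exact hclK'.subset (by exact_mod_cast hS)

end Pool.Agent.H94.CC
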