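import Mathlib
import Pool.Agent.H94.CC.Cond

set_option linter.unusedSectionVars false

open Finset

namespace Pool.Agent.H94.CC

/-- The potential. -/
noncomputable def Psi (K θ : ℝ) (h : ℕ) : ℝ := if (h : ℝ) ≤ K then 1 else (K / h) ^ θ

lemma Psi_nonneg {K θ : ℝ} (hK : 0 ≤ K) (h : ℕ) : 0 ≤ Psi K θ h := by
  unfold Psi
  split_ifs
  · norm_num
  · positivity

lemma Psi_le_one {K θ : ℝ} (hK : 0 ≤ K) (hθ : 0 ≤ θ) (h : ℕ) : Psi K θ h ≤ 1 := by
  unfold Psi
  split_ifs with h1
  · exact le_rfl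
  · push Not at h1
    have : (0 : ℝ) < h := lt_of_le_of_lt hK h1
    apply Real.rpow_le_one (by positivity) _ hθ
    rw [div_le_one this]; exact h1.le

lemma Psi_step {K θ F ζ : ℝ} (hK : 0 < K) (hθ : 0 ≤ θ) (hF0 : 0 ≤ F) (hFζ : F ≤ ζ)
    (hζ : ζ ≤ 1 / 2) (hθF : θ * F ≤ ζ / 2) (h r : ℕ) (hr : r ≤ h) (hrF : (r : ℝ) ≤ F * K)
    (hh : K < h) :
    Psi K θ (h - r) ≤ Psi K θ h * (1 + θ * (1 + 6 * ζ) * (r / h)) := by
  have hh0 : (0 : ℝ) < h := hK.trans hh
  set y : ℝ := r / h with hy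
  have hy0 : 0 ≤ y := by positivity
  have hyF : y ≤ F := by
    rw [hy, div_le_iff₀ hh0]
    exact hrF.trans (mul_le_mul_of_nonneg_left hh.le hF0)
  have hy2 : y ≤ 1 / 2 := by linarith
  have hζ0 : 0 ≤ ζ := hF0.trans hFζ
  have hcast : ((h - r : ℕ) : ℝ) = h * (1 - y) := by
    rw [Nat.cast_sub hr, hy]; field_simp
  have hpos : 0 < (h : ℝ) * (1 - y) := by
    apply mul_pos hh0; linarith
  have h1 : Psi K θ (h - r) ≤ (K / (h * (1 - y))) ^ θ := by
    unfold Psi
    rw [hcast]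
    split_ifs with h2
    · apply Real.one_le_rpow _ hθ
      rw [le_div_iff₀ hpos]; linarith
    · exact le_rfl
  have h2 : Psi K θ h = (K / h) ^ θ := by
    unfold Psi; rw [if_neg (not_le.2 hh)]
  have h3 : (K / (h * (1 - y))) ^ θ = (K / h) ^ θ * (1 / (1 - y)) ^ θ := by
    rw [← Real.mul_rpow (by positivity) (by apply one_div_nonneg.2; linarith)]
    congr 1
    field_simp
  have h4 : (1 / (1 - y)) ^ θ ≤ 1 + θ * (1 + 6 * ζ) * y := by
    have e0 : 0 < 1 - y := by linarith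
    have e1 : Real.log (1 / (1 - y)) ≤ y * (1 + 2 * ζ) := by
      have := Real.log_le_sub_one_of_pos (x := 1 / (1 - y)) (by positivity)
      refine this.trans ?_
      rw [div_sub_one e0.ne', div_le_iff₀ e0]
      have e9 : y + 2 * ζ * y ≤ 2 * ζ := by nlinarith
      nlinarith [mul_nonneg hy0 (sub_nonneg.2 e9)]
    rw [Real.rpow_def_of_pos (by positivity)]
    set z := θ * y * (1 + 2 * ζ) with hz
    have hz0 : 0 ≤ z := by positivity
    have hzζ : z ≤ ζ := by
      have e2 : θ * y ≤ ζ / 2 := (mul_le_mul_of_nonneg_left hyF hθ).trans hθF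
      have e3 : 0 ≤ θ * y := by positivity
      nlinarith
    have e4 : Real.log (1 / (1 - y)) * θ ≤ z := by
      rw [hz]
      have := mul_le_mul_of_nonneg_right e1 hθ
      linarith
    have e5 : Real.exp z ≤ 1 + z * (1 + 2 * ζ) := by
      have e6 : 1 - z ≤ Real.exp (-z) := by
        have := Real.add_one_le_exp (-z)
        linarith
      have e7 : 0 < 1 - z := by linarith
      have e8 : Real.exp z ≤ 1 / (1 - z) := by
        rw [le_div_iff₀ e7]
        calc Real.exp z * (1 - z) ≤ Real.exp z * Real.exp (-z) :=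
              mul_le_mul_of_nonneg_left e6 (Real.exp_pos _).le
          _ = 1 := by rw [← Real.exp_add]; simp
      refine e8.trans ?_
      rw [div_le_iff₀ e7]
      nlinarith [mul_nonneg hz0 (sub_nonneg.2 hzζ), mul_nonneg hz0 hz0]
    refine (Real.exp_le_exp.2 e4).trans (e5.trans ?_)
    rw [hz]
    have e9 : 0 ≤ θ * y := by positivity
    nlinarith [mul_nonneg e9 hζ0, mul_nonneg (mul_nonneg e9 hζ0) (sub_nonneg.2 hζ)]
  refine h1.trans ?_
  rw [h2, h3]
  exact mul_le_mul_of_nonneg_left h4 (by positivity)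

variable {V : Type*} [Fintype V] [DecidableEq V]

/-- One exposure step. -/
lemma EL_step {p : ℝ} (h0 : 0 ≤ p) (h1 : p ≤ 1) {K θ F ζ D₀ : ℝ} (hK : 0 < K) (hθ : 0 ≤ θ)
    (hF0 : 0 ≤ F) (hFζ : F ≤ ζ) (hζ : ζ ≤ 1 / 2) (hθF : θ * F ≤ ζ / 2) (C : Finset V) (s : ℕ)
    (hD : D₀ ^ s ≤ F * K) (H : Finset (Finset V)) (hH : H ⊆ powersetCard s C) :
    Ex p C (fun N => Psi K θ #(H.filter (fun S => (#N : ℝ) ≤ D₀ → ¬ S ⊆ N))) ≤
      Psi K θ #H * (1 + θ * (1 + 6 * ζ) * p ^ s) := by
  have hζ0 : 0 ≤ ζ := hF0.trans hFζ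
  by_cases hHK : (#H : ℝ) ≤ K
  · have e1 : Psi K θ #H = 1 := by unfold Psi; rw [if_pos hHK]
    rw [e1, one_mul]
    calc Ex p C (fun N => Psi K θ #(H.filter (fun S => (#N : ℝ) ≤ D₀ → ¬ S ⊆ N))) ≤
        Ex p C (fun _ => 1) := Ex_mono h0 h1 C fun N _ => Psi_le_one hK.le hθ _
      _ = 1 := Ex_const _ _ _
      _ ≤ _ := by
        have : 0 ≤ θ * (1 + 6 * ζ) * p ^ s := by positivity
        linarith
  · push Not at hHK
    have hH0 : (0 : ℝ) < #H := hK.trans hHK
    have e1 : ∀ N ⊆ C, Psi K θ #(H.filter (fun S => (#N : ℝ) ≤ D₀ → ¬ S ⊆ N)) ≤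
        Psi K θ #H * (1 + θ * (1 + 6 * ζ) / #H * ∑ S ∈ H, ind (S ⊆ N)) := by
      intro N _
      set R := H.filter (fun S => (#N : ℝ) ≤ D₀ ∧ S ⊆ N) with hR
      have e2 : #(H.filter (fun S => (#N : ℝ) ≤ D₀ → ¬ S ⊆ N)) = #H - #R := by
        have e3 : H.filter (fun S => (#N : ℝ) ≤ D₀ → ¬ S ⊆ N) = H \ R := by
          ext S
          rw [mem_filter, mem_sdiff, hR, mem_filter]
          tauto
        rw [e3, card_sdiff_of_subset (filter_subset _ _)]
      have e3 : #R ≤ #H := card_le_card (filter_subset _ _)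
      have e4 : (#R : ℝ) ≤ F * K := by
        by_cases hN : (#N : ℝ) ≤ D₀
        · have e5 : R ⊆ powersetCard s N := by
            intro S hS
            rw [hR, mem_filter] at hS
            rw [mem_powersetCard]
            exact ⟨hS.2.2, (mem_powersetCard.1 (hH hS.1)).2⟩
          have e6 : #R ≤ #N ^ s := by
            refine (card_le_card e5).trans ?_
            rw [card_powersetCard]
            exact Nat.choose_le_pow _ _
          have e7 : (#R : ℝ) ≤ (#N : ℝ) ^ s := by exact_mod_cast e6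
          exact e7.trans ((pow_le_pow_left₀ (by positivity) hN s).trans hD)
        · have : R = ∅ := by
            rw [hR, filter_eq_empty_iff]
            intro S _ h
            exact hN h.1
          rw [this]; simp; positivity
      rw [e2]
      refine (Psi_step hK hθ hF0 hFζ hζ hθF #H #R e3 e4 hHK).trans ?_
      apply mul_le_mul_of_nonneg_left _ (Psi_nonneg hK.le _)
      have e8 : (#R : ℝ) ≤ ∑ S ∈ H, ind (S ⊆ N) := by
        rw [hR, card_filter]
        push_cast
        apply sum_le_sum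
        intro S _
        split_ifs with h
        · rw [ind_true h.2]
        · exact ind_nonneg _
      have e9 : θ * (1 + 6 * ζ) * (#R / #H) = θ * (1 + 6 * ζ) / #H * #R := by ring
      rw [e9]
      have e10 : 0 ≤ θ * (1 + 6 * ζ) / #H := by positivity
      nlinarith [mul_le_mul_of_nonneg_left e8 e10]
    calc Ex p C (fun N => Psi K θ #(H.filter (fun S => (#N : ℝ) ≤ D₀ → ¬ S ⊆ N))) ≤
        Ex p C (fun N => Psi K θ #H * (1 + θ * (1 + 6 * ζ) / #H * ∑ S ∈ H, ind (S ⊆ N))) :=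
          Ex_mono h0 h1 C e1
      _ = Psi K θ #H * (1 + θ * (1 + 6 * ζ) / #H * ∑ S ∈ H, Pr p C (fun N => S ⊆ N)) := by
          rw [Ex_mul_left, Ex_add, Ex_const, Ex_mul_left, Ex_sum]
          rfl
      _ = Psi K θ #H * (1 + θ * (1 + 6 * ζ) / #H * (#H * p ^ s)) := by
          have e2 : ∑ S ∈ H, Pr p C (fun N => S ⊆ N) = #H * p ^ s := by
            rw [← nsmul_eq_mul, ← sum_const]
            apply sum_congr rfl
            intro S hS
            have := mem_powersetCard.1 (hH hS)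
            rw [Pr_subset p this.1, this.2]
          rw [e2]
      _ = Psi K θ #H * (1 + θ * (1 + 6 * ζ) * p ^ s) := by
          congr 2
          field_simp

/-- The surviving family after the small neighbourhoods of `W` are exposed. -/
noncomputable def surv (C : Finset V) (D₀ : ℝ) (W : Finset V) (H : Finset (Finset V))
    (E : Finset (Sym2 V)) : Finset (Finset V) :=
  H.filter (fun S => ∀ u ∈ W, (#(nb u C E) : ℝ) ≤ D₀ → ¬ S ⊆ nb u C E)

/-- The exposure lemma. -/
lemma EL {p : ℝ} (h0 : 0 ≤ p) (h1 : p ≤ 1) {K θ F ζ D₀ : ℝ} (hK : 0 < K) (hθ : 0 ≤ θ)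
    (hF0 : 0 ≤ F) (hFζ : F ≤ ζ) (hζ : ζ ≤ 1 / 2) (hθF : θ * F ≤ ζ / 2) (C : Finset V) (s : ℕ)
    (hD : D₀ ^ s ≤ F * K) (W : Finset V) (hWC : Disjoint W C) :
    ∀ H : Finset (Finset V), H ⊆ powersetCard s C →
    Ex p (W.biUnion (fun u => star u C)) (fun E => Psi K θ #(surv C D₀ W H E)) ≤
      Psi K θ #H * (1 + θ * (1 + 6 * ζ) * p ^ s) ^ #W := by
  have hζ0 : 0 ≤ ζ := hF0.trans hFζ
  induction W using Finset.induction_on with
  | empty =>
    intro H _
    simp [Ex_empty, surv]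
  | insert u W hu ih =>
    intro H hH
    rw [disjoint_insert_left] at hWC
    have hWC' : ∀ w ∈ W, w ∉ C := fun w hw => disjoint_left.1 hWC.2 hw
    rw [biUnion_insert]
    have hdisj : Disjoint (star u C) (W.biUnion (fun u => star u C)) := by
      rw [disjoint_biUnion_right]
      intro w hw
      exact star_disjoint hWC.1 (hWC' w hw) (fun h => hu (h ▸ hw))
    rw [Ex_union p hdisj]
    set H' : Finset (Sym2 V) → Finset (Finset V) := fun E₁ =>
      H.filter (fun S => (#(nb u C E₁) : ℝ) ≤ D₀ → ¬ S ⊆ nb u C E₁) with hH'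
    have e1 : ∀ E₁ ⊆ star u C, Ex p (W.biUnion (fun u => star u C))
        (fun E₂ => Psi K θ #(surv C D₀ (insert u W) H (E₁ ∪ E₂))) ≤
        Psi K θ #(H' E₁) * (1 + θ * (1 + 6 * ζ) * p ^ s) ^ #W := by
      intro E₁ hE₁
      refine le_trans (le_of_eq ?_) (ih hWC.2 (H' E₁) ((filter_subset _ _).trans hH))
      apply Ex_congr
      intro E₂ hE₂
      congr 2
      have e2 : nb u C (E₁ ∪ E₂) = nb u C E₁ := by
        rw [← nb_local' (Subset.refl _) (E₁ ∪ E₂), ← nb_local' (Subset.refl _) E₁]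
        congr 1
        rw [union_inter_distrib_right]
        have : E₂ ∩ star u C = ∅ := by
          rw [← disjoint_iff_inter_eq_empty]
          exact (hdisj.mono_right hE₂).symm
        rw [this, union_empty]
      have e3 : ∀ w ∈ W, nb w C (E₁ ∪ E₂) = nb w C E₂ := by
        intro w hw
        rw [← nb_local' (Subset.refl _) (E₁ ∪ E₂), ← nb_local' (Subset.refl _) E₂]
        congr 1
        rw [union_inter_distrib_right]
        have : E₁ ∩ star w C = ∅ := by
          rw [← disjoint_iff_inter_eq_empty]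
          exact (star_disjoint hWC.1 (hWC' w hw) (fun h => hu (h ▸ hw))).mono_left hE₁
        rw [this, empty_union]
      ext S
      unfold surv
      rw [mem_filter, mem_filter, hH', mem_filter, forall_mem_insert, e2, and_assoc]
      apply and_congr_right
      intro _
      apply and_congr_right
      intro _
      apply forall₂_congr
      intro w hw
      rw [e3 w hw]
    calc Ex p (star u C) (fun E₁ => Ex p (W.biUnion (fun u => star u C))
        (fun E₂ => Psi K θ #(surv C D₀ (insert u W) H (E₁ ∪ E₂)))) ≤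
        Ex p (star u C) (fun E₁ => Psi K θ #(H' E₁) * (1 + θ * (1 + 6 * ζ) * p ^ s) ^ #W) :=
          Ex_mono h0 h1 _ e1
      _ = Ex p (star u C) (fun E₁ => Psi K θ #(H' E₁)) * (1 + θ * (1 + 6 * ζ) * p ^ s) ^ #W := by
          rw [Ex_mul_right]
      _ = Ex p C (fun N => Psi K θ #(H.filter (fun S => (#N : ℝ) ≤ D₀ → ¬ S ⊆ N))) *
          (1 + θ * (1 + 6 * ζ) * p ^ s) ^ #W := by
          rw [← Ex_nb p u C]
      _ ≤ (Psi K θ #H * (1 + θ * (1 + 6 * ζ) * p ^ s)) *
          (1 + θ * (1 + 6 * ζ) * p ^ s) ^ #W := by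
          apply mul_le_mul_of_nonneg_right _ (by positivity)
          exact EL_step h0 h1 hK hθ hF0 hFζ hζ hθF C s hD H hH
      _ = _ := by
          rw [card_insert_of_notMem hu]; ring

lemma surv_local (C : Finset V) (D₀ : ℝ) (W : Finset V) (H : Finset (Finset V))
    {B : Finset (Sym2 V)} (hB : W.biUnion (fun u => star u C) ⊆ B)
    (E : Finset (Sym2 V)) : surv C D₀ W H (E ∩ B) = surv C D₀ W H E := by
  unfold surv
  apply filter_congr
  intro S _
  apply forall₂_congr
  intro u hu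
  rw [nb_local' ((subset_biUnion_of_mem (fun u => star u C) hu).trans hB)]

lemma EL_prob {p : ℝ} (h0 : 0 ≤ p) (h1 : p ≤ 1) {K θ F ζ D₀ : ℝ} (hK : 0 < K) (hθ : 0 ≤ θ)
    (hF0 : 0 ≤ F) (hFζ : F ≤ ζ) (hζ : ζ ≤ 1 / 2) (hθF : θ * F ≤ ζ / 2) (C : Finset V) (s : ℕ)
    (hD : D₀ ^ s ≤ F * K) (W : Finset V) (hWC : Disjoint W C)
    (H : Finset (Finset V)) (hH : H ⊆ powersetCard s C) (h : ℝ) (hh : K < h) (hHh : h ≤ #H) :
    Pr p (allE V) (fun E => (#(surv C D₀ W H E) : ℝ) ≤ K) ≤
      (K / h) ^ θ * Real.exp (#W * (θ * (1 + 6 * ζ) * p ^ s)) := by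
  have hζ0 : 0 ≤ ζ := hF0.trans hFζ
  have hsub : W.biUnion (fun u => star u C) ⊆ allE V := by
    rw [biUnion_subset]
    exact fun u hu => star_subset_allE (disjoint_left.1 hWC hu)
  have e1 : Pr p (allE V) (fun E => (#(surv C D₀ W H E) : ℝ) ≤ K) ≤
      Ex p (allE V) (fun E => Psi K θ #(surv C D₀ W H E)) := by
    unfold Pr
    apply Ex_mono h0 h1
    intro E _
    by_cases hE : (#(surv C D₀ W H E) : ℝ) ≤ K
    · rw [ind_true hE]; unfold Psi; rw [if_pos hE]
    · rw [ind_false hE]; exact Psi_nonneg hK.le _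
  have e2 : Ex p (allE V) (fun E => Psi K θ #(surv C D₀ W H E)) =
      Ex p (W.biUnion (fun u => star u C)) (fun E => Psi K θ #(surv C D₀ W H E)) := by
    apply Ex_local p hsub
    intro E
    show Psi K θ #(surv C D₀ W H E) = Psi K θ #(surv C D₀ W H _)
    rw [surv_local C D₀ W H (Subset.refl _)]
  have e3 := EL h0 h1 hK hθ hF0 hFζ hζ hθF C s hD W hWC H hH
  have e4 : Psi K θ #H ≤ (K / h) ^ θ := by
    unfold Psi
    rw [if_neg (not_le.2 (hh.trans_le hHh))]
    apply Real.rpow_le_rpow (by positivity) _ hθ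
    exact div_le_div_of_nonneg_left hK.le (hK.trans hh) hHh
  have e5 : (1 + θ * (1 + 6 * ζ) * p ^ s) ^ #W ≤ Real.exp (#W * (θ * (1 + 6 * ζ) * p ^ s)) := by
    rw [Real.exp_nat_mul]
    apply pow_le_pow_left₀ (by positivity)
    rw [add_comm]
    exact Real.add_one_le_exp _
  rw [e2] at e1
  refine e1.trans (e3.trans ?_)
  exact mul_le_mul e4 e5 (by positivity) (by have := hK.trans hh; positivity)

end Pool.Agent.H94.CC
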