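import Mathlib

open Filter Topology

namespace Pool.Agent.H94.CC

/-- `a n ≤ n ^ (α + o(1))` along `l`. -/
def UB (l : Filter ℕ) (a : ℕ → ℝ) (α : ℝ) : Prop := ∀ β, α < β → ∀ᶠ n : ℕ in l, a n ≤ (n : ℝ) ^ β

/-- `a n ≥ n ^ (α - o(1))` along `l`. -/
def LB (l : Filter ℕ) (a : ℕ → ℝ) (α : ℝ) : Prop := ∀ β, β < α → ∀ᶠ n : ℕ in l, (n : ℝ) ^ β ≤ a n

variable {l : Filter ℕ} {a b : ℕ → ℝ} {α β : ℝ}

lemma ev_ge (hl : l ≤ atTop) (N : ℕ) : ∀ᶠ n : ℕ in l, N ≤ n := hl (eventually_ge_atTop N)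

lemma cast_tendsto (hl : l ≤ atTop) : Tendsto (fun n : ℕ => (n : ℝ)) l atTop :=
  tendsto_natCast_atTop_atTop.mono_left hl

lemma rpow_tendsto (hl : l ≤ atTop) {γ : ℝ} (hγ : 0 < γ) :
    Tendsto (fun n : ℕ => (n : ℝ) ^ γ) l atTop :=
  (tendsto_rpow_atTop hγ).comp (cast_tendsto hl)

lemma rpow_tendsto_zero (hl : l ≤ atTop) {γ : ℝ} (hγ : γ < 0) :
    Tendsto (fun n : ℕ => (n : ℝ) ^ γ) l (𝓝 0) := by
  have h := (tendsto_rpow_neg_atTop (y := -γ) (by linarith)).comp (cast_tendsto hl)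
  simpa [Function.comp_def] using h

lemma ev_rpow_ge (hl : l ≤ atTop) {γ : ℝ} (hγ : 0 < γ) (C : ℝ) : ∀ᶠ n : ℕ in l, C ≤ (n : ℝ) ^ γ :=
  (rpow_tendsto hl hγ).eventually_ge_atTop C

lemma log_tendsto (hl : l ≤ atTop) : Tendsto (fun n : ℕ => Real.log n) l atTop :=
  Real.tendsto_log_atTop.comp (cast_tendsto hl)

lemma ev_log_ge (hl : l ≤ atTop) (C : ℝ) : ∀ᶠ n : ℕ in l, C ≤ Real.log (n : ℝ) :=
  (log_tendsto hl).eventually_ge_atTop C

lemma UB.mono (h : UB l a α) (hαβ : α ≤ β) : UB l a β := fun γ hγ => h γ (lt_of_le_of_lt hαβ hγ)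

lemma LB.mono (h : LB l a α) (hαβ : β ≤ α) : LB l a β := fun γ hγ => h γ (lt_of_lt_of_le hγ hαβ)

lemma UB.congr (h : UB l a α) (hab : ∀ᶠ n : ℕ in l, b n ≤ a n) : UB l b α := fun γ hγ => by
  filter_upwards [h γ hγ, hab] with n h1 h2
  linarith

lemma LB.congr (h : LB l a α) (hab : ∀ᶠ n : ℕ in l, a n ≤ b n) : LB l b α := fun γ hγ => by
  filter_upwards [h γ hγ, hab] with n h1 h2
  linarith

lemma UB_rpow (hl : l ≤ atTop) (γ : ℝ) : UB l (fun n => (n : ℝ) ^ γ) γ := fun δ hδ => by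
  filter_upwards [ev_ge hl 1] with n hn
  have hn' : (1 : ℝ) ≤ n := by exact_mod_cast hn
  exact Real.rpow_le_rpow_of_exponent_le hn' hδ.le

lemma LB_rpow (hl : l ≤ atTop) (γ : ℝ) : LB l (fun n => (n : ℝ) ^ γ) γ := fun δ hδ => by
  filter_upwards [ev_ge hl 1] with n hn
  have hn' : (1 : ℝ) ≤ n := by exact_mod_cast hn
  exact Real.rpow_le_rpow_of_exponent_le hn' hδ.le

lemma UB_const (hl : l ≤ atTop) (C : ℝ) : UB l (fun _ => C) 0 := fun δ hδ => ev_rpow_ge hl hδ C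

lemma LB_const (hl : l ≤ atTop) {C : ℝ} (hC : 0 < C) : LB l (fun _ => C) 0 := fun δ hδ => by
  have := (rpow_tendsto_zero hl hδ).eventually (ge_mem_nhds hC)
  filter_upwards [this] with n hn
  exact hn

lemma UB.add (hl : l ≤ atTop) (ha : UB l a α) (hb : UB l b α) : UB l (fun n => a n + b n) α := by
  intro γ hγ
  have h1 : α < (α + γ) / 2 := by linarith
  have h2 : 0 < γ - (α + γ) / 2 := by linarith
  filter_upwards [ha _ h1, hb _ h1, ev_rpow_ge hl h2 2, ev_ge hl 1] with n e1 e2 e3 hn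
  have hn' : (0 : ℝ) < n := by exact_mod_cast hn
  have e4 : (n : ℝ) ^ γ = (n : ℝ) ^ (γ - (α + γ) / 2) * (n : ℝ) ^ ((α + γ) / 2) := by
    rw [← Real.rpow_add hn']; congr 1; ring
  rw [e4]
  have e5 : 0 ≤ (n : ℝ) ^ ((α + γ) / 2) := by positivity
  nlinarith

lemma UB.mul (hl : l ≤ atTop) (ha : UB l a α) (hb : UB l b β) (ha0 : ∀ᶠ n : ℕ in l, 0 ≤ a n)
    (hb0 : ∀ᶠ n : ℕ in l, 0 ≤ b n) : UB l (fun n => a n * b n) (α + β) := by
  intro γ hγ
  set ε := (γ - (α + β)) / 2 with hε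
  filter_upwards [ha (α + ε) (by linarith), hb (β + ε) (by linarith), ha0, hb0, ev_ge hl 1]
    with n e1 e2 e3 e4 hn
  have hn' : (0 : ℝ) < n := by exact_mod_cast hn
  have e5 : (n : ℝ) ^ γ = (n : ℝ) ^ (α + ε) * (n : ℝ) ^ (β + ε) := by
    rw [← Real.rpow_add hn']; congr 1; rw [hε]; ring
  rw [e5]
  exact mul_le_mul e1 e2 e4 (by positivity)

lemma LB.mul (hl : l ≤ atTop) (ha : LB l a α) (hb : LB l b β) :
    LB l (fun n => a n * b n) (α + β) := by
  intro γ hγ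
  set ε := ((α + β) - γ) / 2 with hε
  filter_upwards [ha (α - ε) (by linarith), hb (β - ε) (by linarith), ev_ge hl 1]
    with n e1 e2 hn
  have hn' : (0 : ℝ) < n := by exact_mod_cast hn
  have e5 : (n : ℝ) ^ γ = (n : ℝ) ^ (α - ε) * (n : ℝ) ^ (β - ε) := by
    rw [← Real.rpow_add hn']; congr 1; rw [hε]; ring
  rw [e5]
  exact mul_le_mul e1 e2 (by positivity) (le_trans (by positivity) e1)

lemma UB.pow (hl : l ≤ atTop) (ha : UB l a α) (ha0 : ∀ᶠ n : ℕ in l, 0 ≤ a n) (k : ℕ) :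
    UB l (fun n => a n ^ k) (k * α) := by
  induction k with
  | zero =>
    simp only [pow_zero, Nat.cast_zero, zero_mul]
    exact UB_const hl 1
  | succ k ih =>
    have h := ih.mul hl ha (ha0.mono fun n hn => pow_nonneg hn _) ha0
    have e : ((k + 1 : ℕ) : ℝ) * α = k * α + α := by push_cast; ring
    rw [e]
    exact h

lemma LB.pow (hl : l ≤ atTop) (ha : LB l a α) (k : ℕ) :
    LB l (fun n => a n ^ k) (k * α) := by
  induction k with
  | zero =>
    simp only [pow_zero, Nat.cast_zero, zero_mul]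
    exact LB_const hl one_pos
  | succ k ih =>
    have h := ih.mul hl ha
    have e : ((k + 1 : ℕ) : ℝ) * α = k * α + α := by push_cast; ring
    rw [e]
    exact h

lemma LB.inv (hl : l ≤ atTop) (ha : LB l a α) : UB l (fun n => 1 / a n) (-α) := by
  intro γ hγ
  filter_upwards [ha (-γ) (by linarith), ev_ge hl 1] with n e1 hn
  have hn' : (0 : ℝ) < n := by exact_mod_cast hn
  have e2 : 0 < (n : ℝ) ^ (-γ) := by positivity
  calc 1 / a n ≤ 1 / (n : ℝ) ^ (-γ) := one_div_le_one_div_of_le e2 e1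
    _ = (n : ℝ) ^ γ := by rw [Real.rpow_neg hn'.le, one_div, inv_inv]

lemma UB.inv (hl : l ≤ atTop) (ha : UB l a α) (ha0 : ∀ᶠ n : ℕ in l, 0 < a n) :
    LB l (fun n => 1 / a n) (-α) := by
  intro γ hγ
  filter_upwards [ha (-γ) (by linarith), ha0, ev_ge hl 1] with n e1 e0 hn
  have hn' : (0 : ℝ) < n := by exact_mod_cast hn
  calc (n : ℝ) ^ γ = 1 / (n : ℝ) ^ (-γ) := by rw [Real.rpow_neg hn'.le, one_div, inv_inv]
    _ ≤ 1 / a n := one_div_le_one_div_of_le e0 e1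

lemma UB.div (hl : l ≤ atTop) (ha : UB l a α) (hb : LB l b β) (ha0 : ∀ᶠ n : ℕ in l, 0 ≤ a n) :
    UB l (fun n => a n / b n) (α - β) := by
  have hb0 : ∀ᶠ n : ℕ in l, 0 < b n := by
    filter_upwards [hb (β - 1) (by linarith), ev_ge hl 1] with n e1 hn
    have hn' : (0 : ℝ) < n := by exact_mod_cast hn
    exact lt_of_lt_of_le (by positivity) e1
  have h := ha.mul hl (hb.inv hl) ha0 (hb0.mono fun n hn => by positivity)
  intro γ hγ
  filter_upwards [h γ (by linarith)] with n hn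
  rwa [mul_one_div] at hn

lemma UB_log (hl : l ≤ atTop) : UB l (fun n => Real.log n) 0 := by
  intro γ hγ
  filter_upwards [ev_ge hl 1, ev_rpow_ge hl (half_pos hγ) (1 / (γ / 2))] with n hn e1
  have hn' : (0 : ℝ) < n := by exact_mod_cast hn
  have e2 := Real.log_le_rpow_div hn'.le (half_pos hγ)
  have e3 : (n : ℝ) ^ γ = (n : ℝ) ^ (γ / 2) * (n : ℝ) ^ (γ / 2) := by
    rw [← Real.rpow_add hn']; congr 1; ring
  rw [e3]
  refine e2.trans ?_
  rw [div_eq_mul_one_div, mul_comm]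
  apply mul_le_mul_of_nonneg_right e1 (by positivity)

lemma UB.sum (hl : l ≤ atTop) {ι : Type*} (I : Finset ι) {f : ι → ℕ → ℝ}
    (h : ∀ i ∈ I, UB l (f i) α) (hα : 0 ≤ α ∨ I.Nonempty) :
    UB l (fun n => ∑ i ∈ I, f i n) α := by
  classical
  induction I using Finset.induction_on with
  | empty =>
    simp only [Finset.sum_empty]
    rcases hα with hα | hα
    · exact (UB_const hl 0).mono hα
    · exact absurd hα Finset.not_nonempty_empty
  | insert i I hi ih =>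
    have h1 : UB l (f i) α := h i (Finset.mem_insert_self _ _)
    rcases I.eq_empty_or_nonempty with h0 | h0
    · subst h0
      simpa using h1
    · have h2 := ih (fun j hj => h j (Finset.mem_insert_of_mem hj)) (Or.inr h0)
      have h3 := h1.add hl h2
      intro γ hγ
      filter_upwards [h3 γ hγ] with n hn
      rwa [Finset.sum_insert hi]

lemma UB.tendsto_zero (hl : l ≤ atTop) (ha : UB l a α) (ha0 : ∀ᶠ n : ℕ in l, 0 ≤ a n) (hα : α < 0) :
    Tendsto a l (𝓝 0) := by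
  have h1 : α < α / 2 := by linarith
  have h2 : α / 2 < 0 := by linarith
  exact tendsto_of_tendsto_of_tendsto_of_le_of_le' tendsto_const_nhds (rpow_tendsto_zero hl h2)
    ha0 (ha _ h1)

lemma UB_le_LB (ha : UB l a α) (hb : LB l b β) (h : α < β) : ∀ᶠ n : ℕ in l, a n ≤ b n := by
  have h1 : α < (α + β) / 2 := by linarith
  have h2 : (α + β) / 2 < β := by linarith
  filter_upwards [ha _ h1, hb _ h2] with n e1 e2
  linarith

lemma UB.eventually_le (hl : l ≤ atTop) (ha : UB l a α) (h : α < 0) {C : ℝ} (hC : 0 < C) :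
    ∀ᶠ n : ℕ in l, a n ≤ C := UB_le_LB ha (LB_const hl hC) h

lemma LB.eventually_ge (hl : l ≤ atTop) (ha : LB l a α) (h : 0 < α) (C : ℝ) :
    ∀ᶠ n : ℕ in l, C ≤ a n := UB_le_LB (UB_const hl C) ha h

lemma LB.pos (hl : l ≤ atTop) (hb : LB l b β) : ∀ᶠ n : ℕ in l, 0 < b n := by
  filter_upwards [hb (β - 1) (by linarith), ev_ge hl 1] with n e1 hn
  have hn' : (0 : ℝ) < n := by exact_mod_cast hn
  exact lt_of_lt_of_le (by positivity) e1

lemma UB_natCast (hl : l ≤ atTop) : UB l (fun n => (n : ℝ)) 1 := by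
  have h := UB_rpow hl 1
  simpa using h

lemma LB_natCast (hl : l ≤ atTop) : LB l (fun n => (n : ℝ)) 1 := by
  have h := LB_rpow hl 1
  simpa using h

lemma UB_ceil (hl : l ≤ atTop) (ha : UB l a α) (hα : 0 ≤ α) (ha0 : ∀ᶠ n : ℕ in l, 0 ≤ a n) :
    UB l (fun n => (⌈a n⌉₊ : ℝ)) α := by
  have h := ha.add hl ((UB_const hl 1).mono hα)
  apply h.congr
  filter_upwards [ha0] with n hn
  exact (Nat.ceil_lt_add_one hn).le

lemma LB_ceil (ha : LB l a α) : LB l (fun n => (⌈a n⌉₊ : ℝ)) α := by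
  apply ha.congr
  exact Eventually.of_forall fun n => Nat.le_ceil _

end Pool.Agent.H94.CC
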