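import Mathlib

/-!
The explicit function.
-/

namespace Pool.Agent.H94.CC

/-- The function `f(n,p) = (1/p) * sup_{s ≥ 2} (log (n p^(1 + s/2)) - n p^s / (s - 1))`. -/
noncomputable def cliqueF (n : ℕ) (p : ℝ) : ℝ :=
  (⨆ s : {s : ℕ // 2 ≤ s}, (Real.log ((n : ℝ) * p ^ (1 + (s.1 : ℝ) / 2)) -
    (n : ℝ) * p ^ s.1 / ((s.1 : ℝ) - 1))) / p

end Pool.Agent.H94.CC
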