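import Mathlib
import Pool.Agent.H94.CC.DL
import Pool.Agent.H94.CC.EL

set_option linter.unusedSectionVars false

open Finset

namespace Pool.Agent.H94.CC

variable {V : Type*} [Fintype V] [DecidableEq V]

/-- The denominator in Janson's inequality. -/
noncomputable def Th (p : ℝ) (s m : ℕ) : ℝ :=
  ∑ j ∈ Icc 2 s, (s : ℝ) ^ j * (m : ℝ) ^ (s - j) / p ^ (j.choose 2)

lemma Th_pos {p : ℝ} (h0 : 0 < p) (s m : ℕ) (hs : 2 ≤ s) (hm : 0 < m) : 0 < Th p s m := by
  unfold Th
  have hs' : (0 : ℝ) < s := by exact_mod_cast (by omega : 0 < s)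
  have hm' : (0 : ℝ) < m := by exact_mod_cast hm
  apply sum_pos
  · intro j _
    positivity
  · exact ⟨2, by rw [mem_Icc]; exact ⟨le_rfl, hs⟩⟩

/-- Janson's inequality for families of cliques. -/
lemma janson_cliques {p : ℝ} (h0 : 0 < p) (h1 : p ≤ 1) (C : Finset V) (s : ℕ) (hs : 2 ≤ s)
    (H : Finset (Finset V)) (hH : H ⊆ powersetCard s C) (K : ℝ) (hK : 0 < K) (hKH : K ≤ #H) :
    Pr p (allE V) (fun E => ∀ S ∈ H, ¬ cl S E) ≤ Real.exp (-(K / (2 * Th p s #C))) := by
  have hHs : ∀ S ∈ H, #S = s ∧ S ⊆ C := fun S hS =>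
    ⟨(mem_powersetCard.1 (hH hS)).2, (mem_powersetCard.1 (hH hS)).1⟩
  have hHpos : (0 : ℝ) < #H := hK.trans_le hKH
  have hHne : H.Nonempty := by
    rw [← card_pos]; exact_mod_cast hHpos
  have hCpos : 0 < #C := by
    obtain ⟨S, hS⟩ := hHne
    have := card_le_card (hHs S hS).2
    rw [(hHs S hS).1] at this
    omega
  set m := #C with hm
  have hTh := Th_pos h0 s m hs hCpos
  set μ : ℝ := #H * p ^ (s.choose 2) with hμ
  have hμ0 : 0 < μ := by positivity
  have hμ' : μ = ∑ S ∈ H, p ^ #(inE S) := by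
    rw [hμ, ← nsmul_eq_mul, ← sum_const]
    apply sum_congr rfl
    intro S hS
    rw [card_inE, (hHs S hS).1]
  have hs' : (1 : ℝ) ≤ s := by exact_mod_cast (by omega : 1 ≤ s)
  have hcorr : μ + corr p H inE ≤ #H * (p ^ (2 * s.choose 2) * Th p s m) := by
    have e1 : corr p H inE ≤ ∑ S ∈ H, ∑ j ∈ Icc 2 (s - 1), (s : ℝ) ^ j * (m : ℝ) ^ (s - j) *
        p ^ (2 * s.choose 2 - j.choose 2) := by
      unfold corr
      apply sum_le_sum
      intro S hS
      rw [← sum_filter]
      have e2 : ∑ S' ∈ H with S ≠ S' ∧ ¬ Disjoint (inE S) (inE S'), p ^ #(inE S ∪ inE S') =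
          ∑ S' ∈ H with S ≠ S' ∧ ¬ Disjoint (inE S) (inE S'),
            p ^ (2 * s.choose 2 - (#(S' ∩ S)).choose 2) := by
        apply sum_congr rfl
        intro S' hS'
        rw [mem_filter] at hS'
        congr 1
        have e3 := card_union_add_card_inter (inE S) (inE S')
        rw [inE_inter, card_inE, card_inE, card_inE, (hHs S hS).1, (hHs S' hS'.1).1,
          inter_comm] at e3
        omega
      rw [e2]
      have e4 := count_ext C S s (H.filter (fun S' => S ≠ S' ∧ ¬ Disjoint (inE S) (inE S')))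
        ((filter_subset _ _).trans hH) (fun j => p ^ (2 * s.choose 2 - j.choose 2))
        (fun j => pow_nonneg h0.le _) (Icc 2 (s - 1)) ?_
      · rw [(hHs S hS).1] at e4
        exact e4
      · intro S' hS'
        rw [mem_filter] at hS'
        obtain ⟨hS'H, hne, hd⟩ := hS'
        rw [mem_Icc]
        constructor
        · rw [disjoint_iff_inter_eq_empty, inE_inter, ← card_eq_zero, card_inE] at hd
          by_contra hcon
          push Not at hcon
          apply hd
          rw [inter_comm]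
          exact Nat.choose_eq_zero_of_lt hcon
        · have e5 : S' ∩ S ⊂ S' := by
            rw [ssubset_iff_subset_ne]
            refine ⟨inter_subset_left, fun h => hne ?_⟩
            have h6 : S' ⊆ S := by rw [← h]; exact inter_subset_right
            exact (eq_of_subset_of_card_le h6 (by
              rw [(hHs S hS).1, (hHs S' hS'H).1])).symm
          have := card_lt_card e5
          rw [(hHs S' hS'H).1] at this
          omega
    rw [sum_const, nsmul_eq_mul] at e1
    have e2 : p ^ (s.choose 2) + ∑ j ∈ Icc 2 (s - 1), (s : ℝ) ^ j * (m : ℝ) ^ (s - j) *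
        p ^ (2 * s.choose 2 - j.choose 2) ≤ p ^ (2 * s.choose 2) * Th p s m := by
      unfold Th
      have e3 : Icc 2 s = insert s (Icc 2 (s - 1)) := by
        ext j
        rw [mem_insert, mem_Icc, mem_Icc]
        omega
      have e4 : s ∉ Icc 2 (s - 1) := by
        rw [mem_Icc]; omega
      rw [e3, sum_insert e4, mul_add, mul_sum]
      apply add_le_add
      · rw [Nat.sub_self, pow_zero, mul_one, two_mul, pow_add, mul_assoc]
        have e5 : p ^ s.choose 2 * ((s : ℝ) ^ s / p ^ s.choose 2) = (s : ℝ) ^ s := by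
          have := pow_pos h0 (s.choose 2)
          field_simp
        rw [e5]
        have e6 : (1 : ℝ) ≤ (s : ℝ) ^ s := one_le_pow₀ hs'
        have := pow_pos h0 (s.choose 2)
        nlinarith
      · apply sum_le_sum
        intro j hj
        rw [mem_Icc] at hj
        have e7 : j.choose 2 ≤ 2 * s.choose 2 := by
          have : j.choose 2 ≤ s.choose 2 := Nat.choose_le_choose 2 (by omega)
          omega
        have e8 : p ^ (2 * s.choose 2) = p ^ (2 * s.choose 2 - j.choose 2) * p ^ j.choose 2 := by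
          rw [← pow_add]; congr 1; omega
        rw [e8]
        have := pow_pos h0 (j.choose 2)
        apply le_of_eq
        field_simp
    have e3 : μ + corr p H inE ≤ #H * (p ^ (s.choose 2) +
        ∑ j ∈ Icc 2 (s - 1), (s : ℝ) ^ j * (m : ℝ) ^ (s - j) *
        p ^ (2 * s.choose 2 - j.choose 2)) := by
      rw [hμ, mul_add]
      linarith
    exact e3.trans (mul_le_mul_of_nonneg_left e2 hHpos.le)
  set D := #H * (p ^ (2 * s.choose 2) * Th p s m) - μ with hD
  have h2 := janson h0.le h1 (allE V) H inE (fun S _ => inE_subset_allE S) hμ' hμ0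
    (D := D) (by rw [hD]; linarith)
  have e1 : μ ^ 2 / (2 * (μ + D)) = #H / (2 * Th p s m) := by
    have e2 : μ + D = #H * (p ^ (2 * s.choose 2) * Th p s m) := by rw [hD]; ring
    rw [e2, hμ, mul_pow, ← pow_mul, mul_comm (s.choose 2) 2]
    have := pow_pos h0 (2 * s.choose 2)
    field_simp
  rw [e1] at h2
  refine le_trans (le_of_eq ?_) (h2.trans ?_)
  · rfl
  · apply Real.exp_le_exp.2
    apply neg_le_neg
    exact div_le_div_of_nonneg_right hKH (by positivity)

/-- Number of small subsets. -/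
lemma card_small_subsets (W : Finset V) (m : ℕ) (hn : 0 < Fintype.card V) :
    #((range (m + 1)).biUnion (fun k => powersetCard k W)) ≤
      (m + 1) * Fintype.card V ^ m := by
  calc #((range (m + 1)).biUnion (fun k => powersetCard k W)) ≤
      ∑ k ∈ range (m + 1), #(powersetCard k W) := card_biUnion_le
    _ ≤ ∑ k ∈ range (m + 1), Fintype.card V ^ m := by
        apply sum_le_sum
        intro k hk
        rw [mem_range] at hk
        rw [card_powersetCard]
        calc (#W).choose k ≤ #W ^ k := Nat.choose_le_pow _ _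
          _ ≤ Fintype.card V ^ k := Nat.pow_le_pow_left (card_le_univ _) _
          _ ≤ Fintype.card V ^ m := Nat.pow_le_pow_right hn (by omega)
    _ = (m + 1) * Fintype.card V ^ m := by rw [sum_const, card_range, smul_eq_mul]

/-- The bad event for the set `C`. -/
def BadC (s g : ℕ) (C : Finset V) (E : Finset (Sym2 V)) : Prop :=
  (∀ u, u ∉ C → #C ≤ g * #(C \ nb u C E)) ∧
    ∀ K ⊆ C, #K = s → cl K E → ∃ u, u ∉ C ∧ K ⊆ nb u C E

/-- The family of `s`-sets not inside the neighbourhoods of `U`. -/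
def Hf (s : ℕ) (C U : Finset V) (E : Finset (Sym2 V)) : Finset (Finset V) :=
  (powersetCard s C).filter (fun S => ∀ u ∈ U, ¬ S ⊆ nb u C E)

lemma Hf_local (s : ℕ) (C U : Finset V) {B : Finset (Sym2 V)}
    (hB : U.biUnion (fun u => star u C) ⊆ B)
    (E : Finset (Sym2 V)) : Hf s C U (E ∩ B) = Hf s C U E := by
  unfold Hf
  apply filter_congr
  intro S _
  apply forall₂_congr
  intro u hu
  rw [nb_local' ((subset_biUnion_of_mem (fun u => star u C) hu).trans hB)]

/-- The bound for one set `C`. -/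
lemma badC_bound {p : ℝ} (h0 : 0 < p) (h1 : p ≤ 1) (s g : ℕ) (hs : 2 ≤ s) (hg : 0 < g)
    (C : Finset V) (m : ℕ) (hCm : #C = m) (hm : s ≤ m)
    {K θ F ζ D₀ D θ₀ β₁ β₁' β₂ β₂' : ℝ} (hK : 0 < K) (hθ : 0 ≤ θ)
    (hF0 : 0 ≤ F) (hFζ : F ≤ ζ) (hζ : ζ ≤ 1 / 2) (hθF : θ * F ≤ ζ / 2)
    (hD : D₀ ^ s ≤ F * K) (hD₀ : 0 < D₀) (hDD : D ≤ D₀) (hKc : K < c2 s g * (m : ℝ) ^ s)
    (hβ₁ : 0 ≤ β₁) (hβ₁' : β₁ ≤ β₁') (hβ₂ : 0 ≤ β₂) (hβ₂' : β₂ ≤ β₂') (hθ₀ : 0 ≤ θ₀)
    (hθD : θ₀ ^ (s - 1) * D ≤ c2 s g) :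
    Pr p (allE V) (BadC s g C) ≤
      Real.exp (-(β₁ * (D * m)) + Fintype.card V *
        Real.exp (-((β₁' - β₁) * D₀) + m * (p * Real.exp β₁'))) +
      Real.exp (-(β₂ * ((s - 1 / 2) * m)) + Fintype.card V *
        Real.exp (-((β₂' - β₂) * (θ₀ * m)) + m * (p * Real.exp β₂'))) +
      (m + 1) * (Fintype.card V : ℝ) ^ m * ((K / (c2 s g * (m : ℝ) ^ s)) ^ θ *
        Real.exp (Fintype.card V * (θ * (1 + 6 * ζ) * p ^ s))) +
      Real.exp (-(K / (2 * Th p s m))) := by
  classical
  have hζ0 : 0 ≤ ζ := hF0.trans hFζ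
  set W := univ \ C with hW
  have hWC : Disjoint W C := sdiff_disjoint
  have hWn : (#W : ℝ) ≤ Fintype.card V := by exact_mod_cast card_le_univ _
  have hn : 0 < Fintype.card V := by
    have : #C ≤ Fintype.card V := card_le_univ _
    omega
  have hm0 : (0 : ℝ) < m := by exact_mod_cast (by omega : 0 < m)
  set A1 : Finset (Sym2 V) → Prop := fun E => β₁ * (D * m) ≤
    β₁ * ∑ u ∈ W.filter (fun u => D₀ ≤ #(nb u C E)), (#(nb u C E) : ℝ) with hA1
  set A2 : Finset (Sym2 V) → Prop := fun E => β₂ * ((s - 1 / 2) * m) ≤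
    β₂ * ∑ u ∈ W.filter (fun u => θ₀ * m ≤ #(nb u C E)), (#(nb u C E) : ℝ) with hA2
  set 𝓘 := (range (m + 1)).biUnion (fun k => powersetCard k W) with h𝓘
  set Q : Finset V → Finset (Finset V) → Finset (Sym2 V) → Prop := fun U h E =>
    (h ⊆ powersetCard s C ∧ c2 s g * (m : ℝ) ^ s ≤ #h) ∧ (#(surv C D₀ (W \ U) h E) : ℝ) ≤ K with hQ
  set A3 : Finset (Sym2 V) → Prop := fun E => ∃ U ∈ 𝓘, Q U (Hf s C U E) E with hA3
  set Q' : Finset (Finset V) → Finset (Sym2 V) → Prop := fun h E =>
    (h ⊆ powersetCard s C ∧ K ≤ #h) ∧ ∀ S ∈ h, ¬ cl S E with hQ'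
  set A4 : Finset (Sym2 V) → Prop := fun E => Q' (Hf s C W E) E with hA4
  have hcover : ∀ E ⊆ allE V, BadC s g C E → ((A1 E ∨ A2 E) ∨ A3 E) ∨ A4 E := by
    rintro E _ ⟨hfar, hcl⟩
    by_contra hcon
    push Not at hcon
    obtain ⟨⟨⟨n1, n2⟩, n3⟩, n4⟩ := hcon
    set U := W.filter (fun u => D₀ ≤ #(nb u C E)) with hU
    set Wb := W.filter (fun u => θ₀ * m ≤ #(nb u C E)) with hWb
    have s1 : ∑ u ∈ U, (#(nb u C E) : ℝ) < D * m := by
      by_contra hc
      exact n1 (mul_le_mul_of_nonneg_left (not_lt.1 hc) hβ₁)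
    have s2 : ∑ u ∈ Wb, (#(nb u C E) : ℝ) < (s - 1 / 2) * m := by
      by_contra hc
      exact n2 (mul_le_mul_of_nonneg_left (not_lt.1 hc) hβ₂)
    have hUm : #U ≤ m := by
      have e1 : #U * D₀ ≤ ∑ u ∈ U, (#(nb u C E) : ℝ) := by
        rw [← nsmul_eq_mul, ← sum_const]
        apply sum_le_sum
        intro u hu
        exact (mem_filter.1 hu).2
      have e2 : (#U : ℝ) * D₀ < m * D₀ := by nlinarith
      have e3 : (#U : ℝ) < m := lt_of_mul_lt_mul_right e2 hD₀.le
      have : #U < m := by exact_mod_cast e3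
      omega
    have hU𝓘 : U ∈ 𝓘 := by
      rw [h𝓘, mem_biUnion]
      exact ⟨#U, mem_range.2 (by omega), mem_powersetCard.2 ⟨filter_subset _ _, rfl⟩⟩
    have hDL := DL C (fun u => nb u C E) Wb (U \ Wb) s g (by omega) (by omega) hg
      (fun u _ => nb_subset u C E)
      (fun u hu => hfar u (mem_sdiff.1 (mem_filter.1 hu).1).2) ?_ θ₀ D hθ₀ ?_ ?_ hθD
    rotate_left
    · have e1 : (2 : ℝ) * ∑ u ∈ Wb, (#(nb u C E) : ℝ) ≤ (2 * s - 1) * #C := by
        rw [hCm]; linarith
      have e2 : ((2 * s - 1 : ℕ) : ℝ) = 2 * s - 1 := by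
        rw [Nat.cast_sub (by omega)]; push_cast; ring
      rw [← e2] at e1
      exact_mod_cast e1
    · intro u hu
      rw [mem_sdiff] at hu
      rw [hCm]
      by_contra hc
      exact hu.2 (mem_filter.2 ⟨(mem_filter.1 hu.1).1, (not_le.1 hc).le⟩)
    · rw [hCm]
      refine le_trans ?_ s1.le
      apply sum_le_sum_of_subset_of_nonneg sdiff_subset
      intro u _ _
      positivity
    have hH0 : c2 s g * (m : ℝ) ^ s ≤ #(Hf s C U E) := by
      rw [hCm] at hDL
      refine hDL.trans ?_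
      have : (powersetCard s C).filter (fun S => ∀ u ∈ Wb ∪ U \ Wb, ¬ S ⊆ nb u C E) ⊆
          Hf s C U E := by
        intro S hS
        rw [mem_filter] at hS
        unfold Hf
        rw [mem_filter]
        refine ⟨hS.1, fun u hu => hS.2 u ?_⟩
        rw [mem_union, mem_sdiff]
        by_cases h : u ∈ Wb
        · left; exact h
        · right; exact ⟨hu, h⟩
      exact_mod_cast card_le_card this
    have hsurv : K < #(surv C D₀ (W \ U) (Hf s C U E) E) := by
      by_contra hc
      exact n3 ⟨U, hU𝓘, ⟨filter_subset _ _, hH0⟩, not_lt.1 hc⟩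
    have heq : surv C D₀ (W \ U) (Hf s C U E) E = Hf s C W E := by
      unfold surv Hf
      rw [filter_filter]
      apply filter_congr
      intro S _
      constructor
      · rintro ⟨h2, h3⟩ u hu
        by_cases hu' : u ∈ U
        · exact h2 u hu'
        · apply h3 u (mem_sdiff.2 ⟨hu, hu'⟩)
          rw [hU, mem_filter, not_and, not_le] at hu'
          exact (hu' hu).le
      · intro h
        refine ⟨fun u hu => h u (mem_filter.1 hu).1, fun u hu _ => h u (mem_sdiff.1 hu).1⟩
    rw [heq] at hsurv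
    apply n4
    refine ⟨⟨filter_subset _ _, hsurv.le⟩, ?_⟩
    intro S hS hScl
    unfold Hf at hS
    rw [mem_filter, mem_powersetCard] at hS
    obtain ⟨u, hu, hSu⟩ := hcl S hS.1.1 hS.1.2 hScl
    exact hS.2 u (mem_sdiff.2 ⟨mem_univ _, hu⟩) hSu
  -- the four probabilities
  have hstar : ∀ U ⊆ W, U.biUnion (fun u => star u C) ⊆ allE V := by
    intro U hU
    rw [biUnion_subset]
    exact fun u hu => star_subset_allE (disjoint_left.1 hWC (hU hu))
  have p1 : Pr p (allE V) A1 ≤ Real.exp (-(β₁ * (D * m)) + Fintype.card V *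
        Real.exp (-((β₁' - β₁) * D₀) + m * (p * Real.exp β₁'))) := by
    refine (tail_sum h0.le h1 C W hWC β₁ β₁' D₀ (β₁ * (D * m)) hβ₁').trans ?_
    rw [hCm]
    apply Real.exp_le_exp.2
    apply add_le_add le_rfl
    exact mul_le_mul_of_nonneg_right hWn (Real.exp_pos _).le
  have p2 : Pr p (allE V) A2 ≤ Real.exp (-(β₂ * ((s - 1 / 2) * m)) + Fintype.card V *
        Real.exp (-((β₂' - β₂) * (θ₀ * m)) + m * (p * Real.exp β₂'))) := by
    refine (tail_sum h0.le h1 C W hWC β₂ β₂' (θ₀ * m) (β₂ * ((s - 1 / 2) * m)) hβ₂').trans ?_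
    rw [hCm]
    apply Real.exp_le_exp.2
    apply add_le_add le_rfl
    exact mul_le_mul_of_nonneg_right hWn (Real.exp_pos _).le
  set b3 := (K / (c2 s g * (m : ℝ) ^ s)) ^ θ *
        Real.exp (Fintype.card V * (θ * (1 + 6 * ζ) * p ^ s)) with hb3
  have hb30 : 0 ≤ b3 := by
    have := c2_pos s g (by omega) hg
    positivity
  have p3 : Pr p (allE V) A3 ≤ (m + 1) * (Fintype.card V : ℝ) ^ m * b3 := by
    refine (Pr_exists h0.le h1 (allE V) 𝓘 _).trans ?_
    have e1 : ∀ U ∈ 𝓘, Pr p (allE V) (fun E => Q U (Hf s C U E) E) ≤ b3 := by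
      intro U hU
      rw [h𝓘, mem_biUnion] at hU
      obtain ⟨k, _, hUk⟩ := hU
      have hUW : U ⊆ W := (mem_powersetCard.1 hUk).1
      apply cond_bound h0.le h1 (B := U.biUnion (fun u => star u C))
        (C := (W \ U).biUnion (fun u => star u C)) (hstar U hUW) (hstar _ sdiff_subset)
      · rw [disjoint_biUnion_left]
        intro u hu
        rw [disjoint_biUnion_right]
        intro u' hu'
        rw [mem_sdiff] at hu'
        exact star_disjoint (disjoint_left.1 hWC (hUW hu)) (disjoint_left.1 hWC hu'.1)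
          (fun h => hu'.2 (h ▸ hu))
      · intro E
        exact (Hf_local s C U (Subset.refl _) E).symm
      · intro h E
        show (_ ∧ _) ↔ (_ ∧ _)
        rw [surv_local C D₀ (W \ U) h (Subset.refl _)]
      · intro h
        by_cases hh : h ⊆ powersetCard s C ∧ c2 s g * (m : ℝ) ^ s ≤ #h
        · have e2 := EL_prob h0.le h1 hK hθ hF0 hFζ hζ hθF C s hD (W \ U)
            (hWC.mono_left sdiff_subset) h hh.1 (c2 s g * (m : ℝ) ^ s) hKc hh.2
          refine le_trans (Pr_mono h0.le h1 _ fun E _ hE => hE.2) (e2.trans ?_)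
          rw [hb3]
          apply mul_le_mul_of_nonneg_left _ (by have := c2_pos s g (by omega) hg; positivity)
          apply Real.exp_le_exp.2
          apply mul_le_mul_of_nonneg_right _ (by positivity)
          exact_mod_cast card_le_univ _
        · have e2 : Pr p (allE V) (Q U h) = 0 := by
            unfold Pr
            rw [← Ex_const p (allE V) 0]
            apply Ex_congr
            intro E _
            exact ind_false fun hc => hh hc.1
          rw [e2]; exact hb30
    calc ∑ U ∈ 𝓘, Pr p (allE V) (fun E => Q U (Hf s C U E) E) ≤ ∑ U ∈ 𝓘, b3 := sum_le_sum e1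
      _ = #𝓘 * b3 := by rw [sum_const, nsmul_eq_mul]
      _ ≤ _ := by
          apply mul_le_mul_of_nonneg_right _ hb30
          exact_mod_cast card_small_subsets W m hn
  have p4 : Pr p (allE V) A4 ≤ Real.exp (-(K / (2 * Th p s m))) := by
    apply cond_bound h0.le h1 (B := W.biUnion (fun u => star u C)) (C := inE C)
      (hstar W (Subset.refl _)) (inE_subset_allE C)
    · rw [disjoint_biUnion_left]
      intro u hu
      exact star_inE_disjoint (disjoint_left.1 hWC hu)
    · intro E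
      exact (Hf_local s C W (Subset.refl _) E).symm
    · intro h E
      show (_ ∧ _) ↔ (_ ∧ _)
      apply and_congr_right
      rintro ⟨hh, _⟩
      apply forall₂_congr
      intro S hS
      unfold cl
      rw [subset_inter_iff]
      have : inE S ⊆ inE C := inE_mono (mem_powersetCard.1 (hh hS)).1
      tauto
    · intro h
      by_cases hh : h ⊆ powersetCard s C ∧ K ≤ #h
      · have e2 := janson_cliques h0 h1 C s hs h hh.1 K hK hh.2
        rw [hCm] at e2
        exact le_trans (Pr_mono h0.le h1 _ fun E _ hE => hE.2) e2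
      · have e2 : Pr p (allE V) (Q' h) = 0 := by
          unfold Pr
          rw [← Ex_const p (allE V) 0]
          apply Ex_congr
          intro E _
          exact ind_false fun hc => hh hc.1
        rw [e2]; exact (Real.exp_pos _).le
  calc Pr p (allE V) (BadC s g C) ≤ Pr p (allE V) (fun E => ((A1 E ∨ A2 E) ∨ A3 E) ∨ A4 E) :=
        Pr_mono h0.le h1 _ hcover
    _ ≤ Pr p (allE V) (fun E => (A1 E ∨ A2 E) ∨ A3 E) + Pr p (allE V) A4 := Pr_or h0.le h1 _ _ _
    _ ≤ (Pr p (allE V) (fun E => A1 E ∨ A2 E) + Pr p (allE V) A3) + Pr p (allE V) A4 :=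
        add_le_add (Pr_or h0.le h1 _ _ _) le_rfl
    _ ≤ ((Pr p (allE V) A1 + Pr p (allE V) A2) + Pr p (allE V) A3) + Pr p (allE V) A4 :=
        add_le_add (add_le_add (Pr_or h0.le h1 _ _ _) le_rfl) le_rfl
    _ ≤ _ := add_le_add (add_le_add (add_le_add p1 p2) p3) p4

end Pool.Agent.H94.CC
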