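import Mathlib
import Pool.Agent.H94.CC.JL

set_option linter.unusedSectionVars false

open Finset

namespace Pool.Agent.H94.CC

/-- `C(n,m) ≤ exp (m (log n + 1 - log m))`. -/
lemma choose_le_exp (n m : ℕ) (hn : 1 ≤ n) (hm : 1 ≤ m) :
    (n.choose m : ℝ) ≤ Real.exp (m * (Real.log n + 1 - Real.log m)) := by
  have hn' : (0 : ℝ) < n := by exact_mod_cast hn
  have hm' : (0 : ℝ) < m := by exact_mod_cast hm
  have h1 : (n.choose m : ℝ) ≤ (n : ℝ) ^ m / (m.factorial : ℝ) := Nat.choose_le_pow_div m n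
  have h2 : (m : ℝ) ^ m / (m.factorial : ℝ) ≤ Real.exp m :=
    Real.pow_div_factorial_le_exp (m : ℝ) hm'.le m
  have h3 : Real.exp (m * (Real.log n + 1 - Real.log m)) =
      (n : ℝ) ^ m * (Real.exp m / (m : ℝ) ^ m) := by
    have e1 : (n : ℝ) ^ m = Real.exp (m * Real.log n) := by
      rw [Real.exp_nat_mul, Real.exp_log hn']
    have e2 : (m : ℝ) ^ m = Real.exp (m * Real.log m) := by
      rw [Real.exp_nat_mul, Real.exp_log hm']
    rw [e1, e2, ← Real.exp_sub, ← Real.exp_add]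
    congr 1; ring
  rw [h3]
  refine h1.trans ?_
  rw [div_eq_mul_one_div]
  apply mul_le_mul_of_nonneg_left _ (by positivity)
  rw [le_div_iff₀ (by positivity)]
  calc 1 / (m.factorial : ℝ) * (m : ℝ) ^ m = (m : ℝ) ^ m / (m.factorial : ℝ) := by ring
    _ ≤ _ := h2

/-- The numerical bound for one set `C`. -/
lemma badC_num {n : ℕ} (hn : 2 ≤ n) {p : ℝ} (h0 : 0 < p) (h1 : p ≤ 1) (s g m : ℕ) (hs : 2 ≤ s)
    (hg : 0 < g) (hm : s ≤ m) {lam ε₂ δ δ₂ θ₀ ζ L : ℝ} (hL : L = Real.log n) (hL1 : 1 ≤ L)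
    (hlam : 0 ≤ lam) (hε₂ : 0 < ε₂) (hδ : 0 < δ) (hδ₂ : 0 < δ₂) (hθ₀ : 0 < θ₀)
    (hζ0 : 0 < ζ) (hζ : ζ ≤ 1 / 2) (hζ2 : ζ * (6 * lam + 4) ≤ ε₂ / 2)
    (hF : (n : ℝ) ^ (s * δ + lam + ε₂) * p ^ s / c2 s g ≤ ζ)
    (hD0a : 8 / δ ≤ (n : ℝ) ^ δ * p * m) (hD0b : L ≤ (n : ℝ) ^ δ * p * m)
    (hδL : 2 ≤ δ / 2 * L) (hδ₂L : 2 ≤ δ₂ * θ₀ * L) (hβ₂ : δ₂ * L ≤ -Real.log p)
    (hmL : L ≤ m) (hθD : θ₀ ^ (s - 1) * (8 / δ) ≤ c2 s g)
    (hb2 : m * (L + 1 - Real.log m) - (-Real.log p - δ₂ * L) * ((s - 1 / 2) * m) + 1 ≤ -(2 * L))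
    (hnp : n * p ^ s ≤ (lam + ζ) * L)
    (hb3 : 3 * m + 2 ≤ ζ / 2 / ((n : ℝ) ^ (s * δ + lam + ε₂) * p ^ s / c2 s g) * (ε₂ / 2))
    (hb4 : 3 * m * L ≤ c2 s g * (m : ℝ) ^ s * (n : ℝ) ^ (-(lam + ε₂)) / (2 * Th p s m))
    (C : Finset (Fin n)) (hC : #C = m) :
    (n.choose m : ℝ) * Pr p (allE (Fin n)) (BadC s g C) ≤ 4 * Real.exp (-(2 * L)) := by
  have hn0 : (0 : ℝ) < n := by exact_mod_cast (by omega : 0 < n)
  have hn1 : (1 : ℝ) < n := by exact_mod_cast (by omega : 1 < n)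
  have hm1 : 1 ≤ m := by omega
  have hm0 : (0 : ℝ) < m := by exact_mod_cast hm1
  have hm1' : (1 : ℝ) ≤ m := by exact_mod_cast hm1
  have hc := c2_pos s g (by omega) hg
  have hexpL : Real.exp L = n := by rw [hL, Real.exp_log hn0]
  have hnpow : ∀ γ : ℝ, (n : ℝ) ^ γ = Real.exp (L * γ) := by
    intro γ; rw [Real.rpow_def_of_pos hn0, hL]
  set c₂ := c2 s g with hc₂
  set F := (n : ℝ) ^ (s * δ + lam + ε₂) * p ^ s / c₂ with hFdef
  have hF0 : 0 < F := by positivity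
  set D₀ := (n : ℝ) ^ δ * p * m with hD₀
  have hD₀0 : 0 < D₀ := by positivity
  set K := c₂ * (m : ℝ) ^ s * (n : ℝ) ^ (-(lam + ε₂)) with hK
  have hK0 : 0 < K := by positivity
  set θ := ζ / 2 / F with hθ
  have hθ0 : 0 < θ := by positivity
  have hθF : θ * F ≤ ζ / 2 := by rw [hθ]; field_simp; exact le_rfl
  have hDF : D₀ ^ s ≤ F * K := by
    apply le_of_eq
    rw [hD₀, hFdef, hK, mul_pow, mul_pow, ← Real.rpow_natCast ((n : ℝ) ^ δ) s,
      ← Real.rpow_mul hn0.le]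
    have e1 : (n : ℝ) ^ (δ * s) = (n : ℝ) ^ (s * δ + lam + ε₂) * (n : ℝ) ^ (-(lam + ε₂)) := by
      rw [← Real.rpow_add hn0]; congr 1; ring
    rw [e1]
    field_simp
  have hKc : K < c₂ * (m : ℝ) ^ s := by
    rw [hK]
    have e1 : (n : ℝ) ^ (-(lam + ε₂)) < 1 := Real.rpow_lt_one_of_one_lt_of_neg hn1 (by linarith)
    have e2 : 0 < c₂ * (m : ℝ) ^ s := by positivity
    nlinarith
  have hb := badC_bound h0 h1 s g hs hg C m hC hm (K := K) (θ := θ) (F := F) (ζ := ζ) (D₀ := D₀)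
    (D := 8 / δ) (θ₀ := θ₀) (β₁ := δ / 2 * L) (β₁' := δ * L) (β₂ := -Real.log p - δ₂ * L)
    (β₂' := -Real.log p) hK0 hθ0.le hF0.le hF hζ hθF hDF hD₀0 hD0a hKc (by positivity)
    (by nlinarith) (by linarith) (by nlinarith) hθ₀.le hθD
  have hch0 : (0 : ℝ) ≤ (n.choose m : ℝ) := by positivity
  have hch1 : (n.choose m : ℝ) ≤ Real.exp (m * L) := by
    have e1 : (n.choose m : ℝ) ≤ (n : ℝ) ^ m := by exact_mod_cast Nat.choose_le_pow n m
    rw [Real.exp_nat_mul, hexpL]; exact e1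
  have hch2 : (n.choose m : ℝ) ≤ Real.exp (m * (L + 1 - Real.log m)) := by
    rw [hL]; exact choose_le_exp n m (by omega) hm1
  have hmL1 : L ≤ m * L := by nlinarith
  rw [Fintype.card_fin] at hb
  -- first term
  have t1 : (n.choose m : ℝ) * Real.exp (-(δ / 2 * L * (8 / δ * m)) + n *
      Real.exp (-((δ * L - δ / 2 * L) * D₀) + m * (p * Real.exp (δ * L)))) ≤
      Real.exp (-(2 * L)) := by
    have e1 : m * (p * Real.exp (δ * L)) = D₀ := by
      rw [hD₀, hnpow δ, mul_comm δ L]; ring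
    have e2 : -((δ * L - δ / 2 * L) * D₀) + D₀ ≤ -L := by nlinarith
    have e3 : (n : ℝ) * Real.exp (-((δ * L - δ / 2 * L) * D₀) + m * (p * Real.exp (δ * L))) ≤ 1 := by
      rw [e1]
      calc (n : ℝ) * Real.exp (-((δ * L - δ / 2 * L) * D₀) + D₀) ≤ n * Real.exp (-L) :=
            mul_le_mul_of_nonneg_left (Real.exp_le_exp.2 e2) hn0.le
        _ = 1 := by rw [Real.exp_neg, hexpL]; field_simp
    have e4 : δ / 2 * L * (8 / δ * m) = 4 * (m * L) := by field_simp; ring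
    calc (n.choose m : ℝ) * Real.exp (-(δ / 2 * L * (8 / δ * m)) + n *
      Real.exp (-((δ * L - δ / 2 * L) * D₀) + m * (p * Real.exp (δ * L)))) ≤
        Real.exp (m * L) * Real.exp (-(4 * (m * L)) + 1) := by
          rw [e4]
          apply mul_le_mul hch1 _ (Real.exp_pos _).le (Real.exp_pos _).le
          apply Real.exp_le_exp.2
          linarith
      _ = Real.exp (-(3 * (m * L)) + 1) := by rw [← Real.exp_add]; congr 1; ring
      _ ≤ Real.exp (-(2 * L)) := by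
          apply Real.exp_le_exp.2
          nlinarith
  -- second term
  have t2 : (n.choose m : ℝ) * Real.exp (-((-Real.log p - δ₂ * L) * ((s - 1 / 2) * m)) + n *
      Real.exp (-((-Real.log p - (-Real.log p - δ₂ * L)) * (θ₀ * m)) +
        m * (p * Real.exp (-Real.log p)))) ≤ Real.exp (-(2 * L)) := by
    have e1 : p * Real.exp (-Real.log p) = 1 := by
      rw [Real.exp_neg, Real.exp_log h0]; field_simp
    have e2 : -((-Real.log p - (-Real.log p - δ₂ * L)) * (θ₀ * m)) + m * 1 ≤ -L := by nlinarith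
    have e3 : (n : ℝ) * Real.exp (-((-Real.log p - (-Real.log p - δ₂ * L)) * (θ₀ * m)) +
        m * (p * Real.exp (-Real.log p))) ≤ 1 := by
      rw [e1]
      calc (n : ℝ) * Real.exp (-((-Real.log p - (-Real.log p - δ₂ * L)) * (θ₀ * m)) + m * 1) ≤
            n * Real.exp (-L) := mul_le_mul_of_nonneg_left (Real.exp_le_exp.2 e2) hn0.le
        _ = 1 := by rw [Real.exp_neg, hexpL]; field_simp
    calc (n.choose m : ℝ) * Real.exp (-((-Real.log p - δ₂ * L) * ((s - 1 / 2) * m)) + n *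
      Real.exp (-((-Real.log p - (-Real.log p - δ₂ * L)) * (θ₀ * m)) +
        m * (p * Real.exp (-Real.log p)))) ≤ Real.exp (m * (L + 1 - Real.log m)) *
        Real.exp (-((-Real.log p - δ₂ * L) * ((s - 1 / 2) * m)) + 1) := by
          apply mul_le_mul hch2 _ (Real.exp_pos _).le (Real.exp_pos _).le
          apply Real.exp_le_exp.2
          linarith
      _ = Real.exp (m * (L + 1 - Real.log m) -
          (-Real.log p - δ₂ * L) * ((s - 1 / 2) * m) + 1) := by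
          rw [← Real.exp_add]; congr 1; ring
      _ ≤ Real.exp (-(2 * L)) := Real.exp_le_exp.2 hb2
  -- third term
  have t3 : (n.choose m : ℝ) * ((m + 1) * (n : ℝ) ^ m * ((K / (c₂ * (m : ℝ) ^ s)) ^ θ *
      Real.exp (n * (θ * (1 + 6 * ζ) * p ^ s)))) ≤ Real.exp (-(2 * L)) := by
    have e1 : K / (c₂ * (m : ℝ) ^ s) = (n : ℝ) ^ (-(lam + ε₂)) := by
      rw [hK]; field_simp
    have e2 : (K / (c₂ * (m : ℝ) ^ s)) ^ θ = Real.exp (-(lam + ε₂) * L * θ) := by
      rw [e1, ← Real.rpow_mul hn0.le, hnpow]; congr 1; ring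
    have e3 : (n : ℝ) * (θ * (1 + 6 * ζ) * p ^ s) ≤ θ * (1 + 6 * ζ) * ((lam + ζ) * L) := by
      have : 0 ≤ θ * (1 + 6 * ζ) := by positivity
      calc (n : ℝ) * (θ * (1 + 6 * ζ) * p ^ s) = θ * (1 + 6 * ζ) * (n * p ^ s) := by ring
        _ ≤ _ := mul_le_mul_of_nonneg_left hnp this
    have e4 : (m : ℝ) + 1 ≤ Real.exp (m * L) := by
      calc (m : ℝ) + 1 ≤ Real.exp m := Real.add_one_le_exp _
        _ ≤ Real.exp (m * L) := by
          apply Real.exp_le_exp.2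
          nlinarith
    have e5 : (n : ℝ) ^ m = Real.exp (m * L) := by rw [Real.exp_nat_mul, hexpL]
    have e6 : -(lam + ε₂) * L * θ + θ * (1 + 6 * ζ) * ((lam + ζ) * L) ≤ -(θ * L * (ε₂ / 2)) := by
      have e7 : (1 + 6 * ζ) * (lam + ζ) - (lam + ε₂) ≤ -(ε₂ / 2) := by nlinarith
      have e8 : 0 ≤ θ * L := by positivity
      nlinarith [mul_le_mul_of_nonneg_left e7 e8]
    have e7 : 3 * (m * L) + 2 * L ≤ θ * L * (ε₂ / 2) := by
      have : 0 ≤ L := by linarith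
      have := mul_le_mul_of_nonneg_right hb3 this
      linarith
    calc (n.choose m : ℝ) * ((m + 1) * (n : ℝ) ^ m * ((K / (c₂ * (m : ℝ) ^ s)) ^ θ *
      Real.exp (n * (θ * (1 + 6 * ζ) * p ^ s)))) ≤
        Real.exp (m * L) * (Real.exp (m * L) * Real.exp (m * L) * (Real.exp (-(lam + ε₂) * L * θ) *
        Real.exp (θ * (1 + 6 * ζ) * ((lam + ζ) * L)))) := by
          rw [e2, e5]
          apply mul_le_mul hch1 _ (by positivity) (Real.exp_pos _).le
          apply mul_le_mul _ _ (by positivity) (by positivity)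
          · exact mul_le_mul_of_nonneg_right e4 (Real.exp_pos _).le
          · apply mul_le_mul_of_nonneg_left _ (Real.exp_pos _).le
            exact Real.exp_le_exp.2 e3
      _ = Real.exp (3 * (m * L) + (-(lam + ε₂) * L * θ +
          θ * (1 + 6 * ζ) * ((lam + ζ) * L))) := by
          rw [← Real.exp_add, ← Real.exp_add, ← Real.exp_add, ← Real.exp_add]
          congr 1; ring
      _ ≤ Real.exp (-(2 * L)) := by
          apply Real.exp_le_exp.2
          linarith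
  -- fourth term
  have t4 : (n.choose m : ℝ) * Real.exp (-(K / (2 * Th p s m))) ≤ Real.exp (-(2 * L)) := by
    calc (n.choose m : ℝ) * Real.exp (-(K / (2 * Th p s m))) ≤
        Real.exp (m * L) * Real.exp (-(3 * m * L)) := by
          apply mul_le_mul hch1 _ (Real.exp_pos _).le (Real.exp_pos _).le
          apply Real.exp_le_exp.2
          linarith
      _ = Real.exp (-(2 * (m * L))) := by rw [← Real.exp_add]; congr 1; ring
      _ ≤ Real.exp (-(2 * L)) := by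
          apply Real.exp_le_exp.2
          linarith
  calc (n.choose m : ℝ) * Pr p (allE (Fin n)) (BadC s g C) ≤ _ :=
        mul_le_mul_of_nonneg_left hb hch0
    _ ≤ 4 * Real.exp (-(2 * L)) := by
        rw [mul_add, mul_add, mul_add]
        linarith

end Pool.Agent.H94.CC
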