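import Mathlib
import Pool.Agent.H94.CC.Moment
import Pool.Agent.H94.CC.Det

set_option linter.unusedSectionVars false

open Finset

namespace Pool.Agent.H94.CC

variable {V : Type*} [Fintype V] [DecidableEq V]

/-- Probability that `J` has no common neighbour. -/
lemma no_common {p : ℝ} (h0 : 0 ≤ p) (h1 : p ≤ 1) (J : Finset V) :
    Pr p (allE V) (fun E => ∀ u ∈ univ \ J, ¬ star u J ⊆ E) ≤
      Real.exp (-((Fintype.card V - #J : ℝ) * p ^ #J)) := by
  have h2 := janson_basic h0 h1 (allE V) (univ \ J) (fun u => star u J)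
    (fun u hu => star_subset_allE (mem_sdiff.1 hu).2)
  have h3 : corr p (univ \ J) (fun u => star u J) = 0 := by
    unfold corr
    apply sum_eq_zero
    intro u hu
    apply sum_eq_zero
    intro u' hu'
    rw [if_neg]
    rintro ⟨hne, hd⟩
    exact hd (star_disjoint (mem_sdiff.1 hu).2 (mem_sdiff.1 hu').2 hne)
  rw [h3] at h2
  have h4 : ∑ u ∈ univ \ J, p ^ #(star u J) = (Fintype.card V - #J : ℝ) * p ^ #J := by
    rw [sum_congr rfl (fun u _ => by rw [card_star]), sum_const, nsmul_eq_mul,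
      card_sdiff_of_subset (subset_univ _), Nat.cast_sub (card_le_card (subset_univ _)), card_univ]
  rw [h4, zero_div, add_zero] at h2
  exact h2

/-- Common neighbours of all `k`-sets. -/
lemma no_common_union {p : ℝ} (h0 : 0 ≤ p) (h1 : p ≤ 1) (k : ℕ) :
    Pr p (allE V) (fun E => ∃ J ∈ powersetCard k (univ : Finset V), ∀ u ∈ univ \ J,
      ¬ star u J ⊆ E) ≤
      (Fintype.card V : ℝ) ^ k * Real.exp (-((Fintype.card V - k : ℝ) * p ^ k)) := by
  refine (Pr_exists h0 h1 (allE V) _ _).trans ?_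
  calc ∑ J ∈ powersetCard k (univ : Finset V), Pr p (allE V) (fun E => ∀ u ∈ univ \ J,
      ¬ star u J ⊆ E) ≤ ∑ J ∈ powersetCard k (univ : Finset V),
        Real.exp (-((Fintype.card V - k : ℝ) * p ^ k)) := by
        apply sum_le_sum
        intro J hJ
        have h2 := no_common h0 h1 J
        rw [(mem_powersetCard.1 hJ).2] at h2
        exact h2
    _ = #(powersetCard k (univ : Finset V)) * Real.exp (-((Fintype.card V - k : ℝ) * p ^ k)) := by
        rw [sum_const, nsmul_eq_mul]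
    _ ≤ (Fintype.card V : ℝ) ^ k * Real.exp (-((Fintype.card V - k : ℝ) * p ^ k)) := by
        apply mul_le_mul_of_nonneg_right _ (Real.exp_pos _).le
        rw [card_powersetCard, card_univ]
        exact_mod_cast Nat.choose_le_pow _ _

/-- The set of vertices outside `T` without neighbours in `T`. -/
def unc (T : Finset V) (E : Finset (Sym2 V)) : Finset V :=
  (univ \ T).filter (fun v => Disjoint (star v T) E)

lemma mem_unc {T : Finset V} {E : Finset (Sym2 V)} {v : V} :
    v ∈ unc T E ↔ v ∉ T ∧ Disjoint (star v T) E := by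
  unfold unc; rw [mem_filter, mem_sdiff]; simp

lemma unc_markov {p : ℝ} (h0 : 0 ≤ p) (h1 : p ≤ 1) (T : Finset V) (z : ℝ) (hz : 0 < z) :
    Pr p (allE V) (fun E => z ≤ #(unc T E)) ≤ Fintype.card V * (1 - p) ^ #T / z := by
  refine (Pr_markov h0 h1 (allE V) (F := fun E => (#(unc T E) : ℝ)) hz
    (fun _ _ => by positivity)).trans ?_
  apply div_le_div_of_nonneg_right _ hz.le
  have h2 : Ex p (allE V) (fun E => (#(unc T E) : ℝ)) =
      ∑ v ∈ univ \ T, Pr p (allE V) (fun E => Disjoint (star v T) E) := by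
    unfold Pr
    rw [← Ex_sum]
    apply Ex_congr
    intro E _
    unfold unc
    rw [card_filter]
    push_cast
    apply sum_congr rfl
    intro v _
    by_cases h : Disjoint (star v T) E
    · rw [if_pos h, ind_true h]
    · rw [if_neg h, ind_false h]
  rw [h2]
  calc ∑ v ∈ univ \ T, Pr p (allE V) (fun E => Disjoint (star v T) E) =
      ∑ v ∈ univ \ T, (1 - p) ^ #T := by
        apply sum_congr rfl
        intro v hv
        rw [Pr_disjoint p (star_subset_allE (mem_sdiff.1 hv).2), card_star]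
    _ = #(univ \ T) * (1 - p) ^ #T := by rw [sum_const, nsmul_eq_mul]
    _ ≤ Fintype.card V * (1 - p) ^ #T := by
        apply mul_le_mul_of_nonneg_right _ (pow_nonneg (by linarith) _)
        exact_mod_cast card_le_univ _

/-- Number of bad `k`-cliques in `Z` through `v`. -/
noncomputable def Xv (k : ℕ) (Z Y : Finset V) (v : V) (E : Finset (Sym2 V)) : ℝ :=
  ∑ S ∈ (powersetCard k Z).filter (fun S => v ∈ S), ind (badE Y S E)

lemma Xv_nonneg (k : ℕ) (Z Y : Finset V) (v : V) (E : Finset (Sym2 V)) : 0 ≤ Xv k Z Y v E :=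
  sum_nonneg fun _ _ => ind_nonneg _

lemma Xv_tail {p : ℝ} (h0 : 0 ≤ p) (h1 : p ≤ 1) (Z Y : Finset V) (hYZ : Disjoint Y Z)
    (v : V) (k B : ℕ) (a : ℝ) (ha : 0 < a) (y z : ℝ) (hy : y ≤ #Y) (hz : #Z ≤ z) :
    Pr p (allE V) (fun E => a ≤ Xv k Z Y v E) ≤
    ((B + Real.exp (-(y * p ^ k)) * ∑ j ∈ Icc 1 k, ((k * B + 1 : ℕ) : ℝ) ^ j *
      z ^ (k - j) * p ^ (k.choose 2 - j.choose 2)) / a) ^ B *
      Real.exp (B ^ 2 * #Y * p ^ (k + 1)) := by
  have h2 : Pr p (allE V) (fun E => a ≤ Xv k Z Y v E) ≤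
      Pr p (allE V) (fun E => a ^ B ≤ Xv k Z Y v E ^ B) := by
    apply Pr_mono h0 h1
    intro E _ h
    exact pow_le_pow_left₀ ha.le h B
  have h3 := Pr_markov h0 h1 (allE V) (F := fun E => Xv k Z Y v E ^ B) (c := a ^ B)
    (pow_pos ha B) (fun E _ => pow_nonneg (Xv_nonneg k Z Y v E) _)
  have h4 := clique_moment h0 h1 Z Y hYZ v k B
  have h5 : (B + Real.exp (-(#Y * p ^ k)) * ∑ j ∈ Icc 1 k, ((k * B + 1 : ℕ) : ℝ) ^ j *
      (#Z : ℝ) ^ (k - j) * p ^ (k.choose 2 - j.choose 2)) ^ B ≤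
      (B + Real.exp (-(y * p ^ k)) * ∑ j ∈ Icc 1 k, ((k * B + 1 : ℕ) : ℝ) ^ j *
      z ^ (k - j) * p ^ (k.choose 2 - j.choose 2)) ^ B := by
    apply pow_le_pow_left₀
    · positivity
    · apply add_le_add le_rfl
      apply mul_le_mul
      · apply Real.exp_le_exp.2
        apply neg_le_neg
        exact mul_le_mul_of_nonneg_right hy (by positivity)
      · apply sum_le_sum
        intro j _
        apply mul_le_mul_of_nonneg_right _ (by positivity)
        apply mul_le_mul_of_nonneg_left _ (by positivity)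
        exact pow_le_pow_left₀ (by positivity) hz _
      · exact sum_nonneg fun j _ => by positivity
      · positivity
  refine h2.trans (h3.trans ?_)
  rw [div_pow, div_mul_eq_mul_div]
  apply div_le_div_of_nonneg_right _ (pow_pos ha B).le
  refine le_trans h4 ?_
  exact mul_le_mul_of_nonneg_right h5 (Real.exp_pos _).le

lemma badE_local (Y S W : Finset V) (hS : S ⊆ W) (hY : Y ⊆ W) (hYS : Disjoint Y S) :
    LocalEv (inE W) (badE Y S) := by
  intro E
  unfold badE cl
  have h1 : inE S ⊆ E ↔ inE S ⊆ E ∩ inE W := by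
    rw [subset_inter_iff]
    exact ⟨fun h => ⟨h, inE_mono hS⟩, fun h => h.1⟩
  have h2 : ∀ u ∈ Y, (¬ star u S ⊆ E ↔ ¬ star u S ⊆ E ∩ inE W) := by
    intro u hu
    rw [subset_inter_iff]
    have : star u S ⊆ inE W := by
      intro e he
      obtain ⟨w, hw, rfl⟩ := mem_star.1 he
      rw [mem_inE]
      exact ⟨hY hu, hS hw, fun h => disjoint_left.1 hYS hu (h ▸ hw)⟩
    tauto
  rw [← h1]
  constructor
  · rintro ⟨h3, h4⟩; exact ⟨h3, fun u hu => (h2 u hu).1 (h4 u hu)⟩
  · rintro ⟨h3, h4⟩; exact ⟨h3, fun u hu => (h2 u hu).2 (h4 u hu)⟩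

lemma Xv_local (k : ℕ) (Z Y W : Finset V) (hZ : Z ⊆ W) (hY : Y ⊆ W) (hYZ : Disjoint Y Z) (v : V)
    (E : Finset (Sym2 V)) : Xv k Z Y v (E ∩ inE W) = Xv k Z Y v E := by
  unfold Xv
  apply sum_congr rfl
  intro S hS
  have hSZ : S ⊆ Z := (mem_powersetCard.1 (mem_filter.1 hS).1).1
  apply ind_congr
  exact (badE_local Y S W (hSZ.trans hZ) hY (hYZ.mono_right hSZ) E).symm

/-- The constant in the moment bound. -/
noncomputable def AA (p z : ℝ) (k B : ℕ) (y : ℝ) : ℝ :=
  B + Real.exp (-(y * p ^ k)) * ∑ j ∈ Icc 1 k, ((k * B + 1 : ℕ) : ℝ) ^ j *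
      z ^ (k - j) * p ^ (k.choose 2 - j.choose 2)

lemma AA_nonneg {p z : ℝ} (h0 : 0 ≤ p) (hz : 0 ≤ z) (k B : ℕ) (y : ℝ) : 0 ≤ AA p z k B y := by
  unfold AA; positivity

lemma deg_bound {p : ℝ} (h0 : 0 ≤ p) (h1 : p ≤ 1) (T Z : Finset V) (hZT : Disjoint Z T)
    (s q B : ℕ) (hq : 0 < q) (z κ : ℝ) (hz : #Z ≤ z) (hκ : 0 < κ) :
    Pr p (allE V) (fun E => ∃ v ∈ Z, κ < Xv s Z ((univ \ T) \ Z) v E / (q : ℝ) ^ (s - 1) +
      Xv (s + 1) Z ∅ v E / (q : ℝ) ^ s) ≤
    z * ((AA p z s B (Fintype.card V - #T - z) / (κ / 2 * (q : ℝ) ^ (s - 1))) ^ B *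
        Real.exp (B ^ 2 * Fintype.card V * p ^ (s + 1)) +
      (AA p z (s + 1) B 0 / (κ / 2 * (q : ℝ) ^ s)) ^ B) := by
  have hq' : (0 : ℝ) < q := by exact_mod_cast hq
  have hz0 : 0 ≤ z := le_trans (by positivity) hz
  set Y := (univ \ T) \ Z with hY
  have hYZ : Disjoint Y Z := sdiff_disjoint
  have hYcard : (Fintype.card V - #T - z : ℝ) ≤ #Y := by
    have e1 : #Y = Fintype.card V - #T - #Z := by
      rw [hY, card_sdiff_of_subset, card_sdiff_of_subset (subset_univ _), card_univ]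
      intro v hv
      rw [mem_sdiff]
      exact ⟨mem_univ _, disjoint_left.1 hZT hv⟩
    have e2 : #T + #Z ≤ Fintype.card V := by
      rw [← card_union_of_disjoint hZT.symm]
      exact card_le_univ _
    rw [e1, Nat.sub_sub, Nat.cast_sub e2]
    push_cast
    linarith
  have hYn : (#Y : ℝ) ≤ Fintype.card V := by exact_mod_cast card_le_univ _
  refine (Pr_exists h0 h1 (allE V) Z _).trans ?_
  set b := (AA p z s B (Fintype.card V - #T - z) / (κ / 2 * (q : ℝ) ^ (s - 1))) ^ B *
        Real.exp (B ^ 2 * Fintype.card V * p ^ (s + 1)) +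
      (AA p z (s + 1) B 0 / (κ / 2 * (q : ℝ) ^ s)) ^ B with hb
  have hb0 : 0 ≤ b := by
    have e1 := AA_nonneg h0 hz0 s B (Fintype.card V - #T - z)
    have e2 := AA_nonneg h0 hz0 (s + 1) B 0
    positivity
  have hv : ∀ v ∈ Z, Pr p (allE V) (fun E => κ < Xv s Z Y v E / (q : ℝ) ^ (s - 1) +
      Xv (s + 1) Z ∅ v E / (q : ℝ) ^ s) ≤ b := by
    intro v _
    have e1 : Pr p (allE V) (fun E => κ < Xv s Z Y v E / (q : ℝ) ^ (s - 1) +
      Xv (s + 1) Z ∅ v E / (q : ℝ) ^ s) ≤ Pr p (allE V) (fun E =>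
        κ / 2 * (q : ℝ) ^ (s - 1) ≤ Xv s Z Y v E ∨ κ / 2 * (q : ℝ) ^ s ≤ Xv (s + 1) Z ∅ v E) := by
      apply Pr_mono h0 h1
      intro E _ h
      by_contra hcon
      push Not at hcon
      have e2 : Xv s Z Y v E / (q : ℝ) ^ (s - 1) < κ / 2 := by
        rw [div_lt_iff₀ (by positivity)]; exact hcon.1
      have e3 : Xv (s + 1) Z ∅ v E / (q : ℝ) ^ s < κ / 2 := by
        rw [div_lt_iff₀ (by positivity)]; exact hcon.2
      linarith
    refine e1.trans ((Pr_or h0 h1 (allE V) _ _).trans ?_)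
    rw [hb]
    apply add_le_add
    · refine (Xv_tail h0 h1 Z Y hYZ v s B (κ / 2 * (q : ℝ) ^ (s - 1)) (by positivity)
        (Fintype.card V - #T - z) z hYcard hz).trans ?_
      apply mul_le_mul_of_nonneg_left
      · apply Real.exp_le_exp.2
        apply mul_le_mul_of_nonneg_right _ (by positivity)
        exact mul_le_mul_of_nonneg_left hYn (by positivity)
      · have e1 := AA_nonneg h0 hz0 s B (Fintype.card V - #T - z)
        unfold AA at e1
        positivity
    · refine (Xv_tail h0 h1 Z ∅ (disjoint_empty_left _) v (s + 1) B (κ / 2 * (q : ℝ) ^ s)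
        (by positivity) 0 z (by simp) hz).trans ?_
      simp [AA]
  calc ∑ v ∈ Z, Pr p (allE V) (fun E => κ < Xv s Z Y v E / (q : ℝ) ^ (s - 1) +
      Xv (s + 1) Z ∅ v E / (q : ℝ) ^ s) ≤ ∑ v ∈ Z, b := sum_le_sum hv
    _ = #Z * b := by rw [sum_const, nsmul_eq_mul]
    _ ≤ z * b := mul_le_mul_of_nonneg_right hz hb0

/-- The upper bound on the failure probability. -/
theorem upper_prob {p : ℝ} (h0 : 0 ≤ p) (h1 : p ≤ 1) {t : ℕ} (x : Fin t → V)
    (hx : Function.Injective x) (s q r B : ℕ) (hs : 2 ≤ s) (hq : 0 < q)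
    (hn : s ≤ Fintype.card V) (z κ : ℝ) (hz : 0 < z) (hκ : 0 < κ) (hr : z * κ ^ r < 1) :
    Pr p (allE V) (fun E => ¬ ∃ c : V → Fin (t + (q * r + 1)), IsCliqueColouring (gr E) c) ≤
    (Fintype.card V : ℝ) ^ (s - 1) *
      Real.exp (-((Fintype.card V - (s - 1 : ℕ) : ℝ) * p ^ (s - 1))) +
    Fintype.card V * (1 - p) ^ t / z +
    z * ((AA p z s B (Fintype.card V - t - z) / (κ / 2 * (q : ℝ) ^ (s - 1))) ^ B *
        Real.exp (B ^ 2 * Fintype.card V * p ^ (s + 1)) +
      (AA p z (s + 1) B 0 / (κ / 2 * (q : ℝ) ^ s)) ^ B) := by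
  classical
  have hq' : (0 : ℝ) < q := by exact_mod_cast hq
  set T : Finset V := univ.image x with hT
  have hTcard : #T = t := by
    rw [hT, card_image_of_injective _ hx]; simp
  -- the three failure events
  set P1 : Finset (Sym2 V) → Prop := fun E => ∃ J ∈ powersetCard (s - 1) (univ : Finset V),
    ∀ u ∈ univ \ J, ¬ star u J ⊆ E with hP1
  set P2 : Finset (Sym2 V) → Prop := fun E => z ≤ #(unc T E) with hP2
  set Q : Finset V → Finset (Sym2 V) → Prop := fun Z E => (Disjoint Z T ∧ (#Z : ℝ) ≤ z) ∧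
    ∃ v ∈ Z, κ < Xv s Z ((univ \ T) \ Z) v E / (q : ℝ) ^ (s - 1) +
      Xv (s + 1) Z ∅ v E / (q : ℝ) ^ s with hQ
  have hcover : ∀ E ⊆ allE V, (¬ ∃ c : V → Fin (t + (q * r + 1)), IsCliqueColouring (gr E) c) →
      (P1 E ∨ P2 E) ∨ Q (unc T E) E := by
    intro E _ hE
    by_contra hcon
    push Not at hcon
    obtain ⟨⟨hn1, hn2⟩, hn3⟩ := hcon
    apply hE
    have hRT : Disjoint (unc T E) T := by
      rw [disjoint_left]
      intro v hv
      exact (mem_unc.1 hv).1
    have hRz : (#(unc T E) : ℝ) < z := lt_of_not_ge hn2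
    have hdeg : ∀ v ∈ unc T E, Xv s (unc T E) ((univ \ T) \ (unc T E)) v E / (q : ℝ) ^ (s - 1) +
      Xv (s + 1) (unc T E) ∅ v E / (q : ℝ) ^ s ≤ κ := by
      intro v hv
      by_contra hc
      push Not at hc
      exact hn3 ⟨⟨hRT, hRz.le⟩, v, hv, hc⟩
    set R := unc T E with hR
    set Y := (univ \ T) \ R with hY
    set Bs : Finset (Finset V) := (powersetCard s R).filter (fun S => badE Y S E) with hBs
    set Bt : Finset (Finset V) := (powersetCard (s + 1) R).filter (fun S => badE ∅ S E) with hBt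
    apply upper_det (gr E) t s q r hq x ?_ hs R ?_ (Bs ∪ Bt) ?_ ?_ ?_ κ hκ.le ?_ ?_
    · -- common neighbours
      intro K hK2 hKs
      obtain ⟨J, hKJ, hJc⟩ : ∃ J, K ⊆ J ∧ #J = s - 1 := by
        obtain ⟨J, h1, h2, h3⟩ := exists_subsuperset_card_eq (subset_univ K) (n := s - 1)
          (by omega) (by rw [card_univ]; omega)
        exact ⟨J, h1, h3⟩
      have : ¬ ∀ u ∈ univ \ J, ¬ star u J ⊆ E := fun h => hn1
        ⟨J, by rw [mem_powersetCard]; exact ⟨subset_univ _, hJc⟩, h⟩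
      push Not at this
      obtain ⟨u, hu, huJ⟩ := this
      refine ⟨u, fun w hw => ?_⟩
      rw [gr_adj]
      refine ⟨huJ (mk_mem_star (hKJ hw)), ?_⟩
      rintro rfl
      exact (mem_sdiff.1 hu).2 (hKJ hw)
    · -- the uncovered set
      intro v
      rw [hR, mem_unc]
      constructor
      · rintro ⟨h2, h3⟩
        refine ⟨fun i hi => ?_, fun i hi => h2 ?_⟩
        · rw [gr_adj] at hi
          have : s(v, x i) ∈ star v T := mk_mem_star (by rw [hT]; exact mem_image_of_mem _ (mem_univ _))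
          rw [disjoint_left] at h3
          apply h3 this
          rw [Sym2.eq_swap]; exact hi.1
        · rw [hT, ← hi]; exact mem_image_of_mem _ (mem_univ _)
      · rintro ⟨h2, h3⟩
        constructor
        · intro hv
          rw [hT, mem_image] at hv
          obtain ⟨i, _, hi⟩ := hv
          exact h3 i hi
        · rw [disjoint_left]
          intro e he heE
          obtain ⟨w, hw, rfl⟩ := mem_star.1 he
          rw [hT, mem_image] at hw
          obtain ⟨i, _, rfl⟩ := hw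
          apply h2 i
          rw [gr_adj, Sym2.eq_swap]
          exact ⟨heE, h3 i⟩
    · -- nonempty
      intro S hS
      rw [mem_union, hBs, hBt, mem_filter, mem_filter, mem_powersetCard, mem_powersetCard] at hS
      rw [← card_pos]
      rcases hS with hS | hS <;> omega
    · intro S hSR hSs hScl hSn
      rw [mem_union]
      left
      rw [hBs, mem_filter, mem_powersetCard]
      refine ⟨⟨hSR, hSs⟩, (cl_iff S E).2 hScl, ?_⟩
      intro u hu hst
      apply hSn
      refine ⟨u, fun w hw => ?_⟩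
      rw [gr_adj]
      refine ⟨hst (mk_mem_star hw), ?_⟩
      rintro rfl
      exact (mem_sdiff.1 hu).2 (hSR hw)
    · intro S hSR hSs hScl
      rw [mem_union]
      right
      rw [hBt, mem_filter, mem_powersetCard]
      exact ⟨⟨hSR, hSs⟩, (cl_iff S E).2 hScl, by simp⟩
    · intro v hv
      refine le_trans ?_ (hdeg v hv)
      have e1 : ∑ S ∈ Bs ∪ Bt with v ∈ S, (1 : ℝ) / (q : ℝ) ^ (#S - 1) ≤
          ∑ S ∈ Bs with v ∈ S, (1 : ℝ) / (q : ℝ) ^ (#S - 1) +
          ∑ S ∈ Bt with v ∈ S, (1 : ℝ) / (q : ℝ) ^ (#S - 1) := by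
        rw [filter_union, ← sum_union_inter]
        have : 0 ≤ ∑ S ∈ (Bs.filter (fun S => v ∈ S)) ∩ (Bt.filter (fun S => v ∈ S)),
            (1 : ℝ) / (q : ℝ) ^ (#S - 1) := sum_nonneg fun S _ => by positivity
        linarith
      refine e1.trans ?_
      have e2 : ∀ (k : ℕ) (Y' : Finset V), ∑ S ∈ ((powersetCard k R).filter
          (fun S => badE Y' S E)) with v ∈ S, (1 : ℝ) / (q : ℝ) ^ (#S - 1) =
          Xv k R Y' v E / (q : ℝ) ^ (k - 1) := by
        intro k Y'
        unfold Xv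
        rw [sum_div, filter_filter, sum_filter, sum_filter]
        apply sum_congr rfl
        intro S hS
        rw [(mem_powersetCard.1 hS).2]
        by_cases h1 : badE Y' S E <;> by_cases h2 : v ∈ S <;> simp [h1, h2, ind]
      rw [hBs, hBt, e2, e2]
      simp
    · exact lt_of_le_of_lt (mul_le_mul_of_nonneg_right hRz.le (pow_nonneg hκ.le r)) hr
  -- the third event
  have hQ3 : Pr p (allE V) (fun E => Q (unc T E) E) ≤
      z * ((AA p z s B (Fintype.card V - t - z) / (κ / 2 * (q : ℝ) ^ (s - 1))) ^ B *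
        Real.exp (B ^ 2 * Fintype.card V * p ^ (s + 1)) +
      (AA p z (s + 1) B 0 / (κ / 2 * (q : ℝ) ^ s)) ^ B) := by
    apply cond_bound h0 h1 (B := (univ \ T).biUnion (fun v => star v T)) (C := inE (univ \ T))
    · rw [biUnion_subset]
      intro v hv
      exact star_subset_allE (mem_sdiff.1 hv).2
    · exact inE_subset_allE _
    · rw [disjoint_left]
      intro e he he'
      rw [mem_biUnion] at he
      obtain ⟨v, _, he⟩ := he
      obtain ⟨w, hw, rfl⟩ := mem_star.1 he
      rw [mem_inE] at he'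
      exact (mem_sdiff.1 he'.2.1).2 hw
    · intro E
      ext v
      rw [mem_unc, mem_unc]
      apply and_congr_right
      intro hv
      have : star v T ⊆ (univ \ T).biUnion (fun v => star v T) :=
        subset_biUnion_of_mem (fun v => star v T) (mem_sdiff.2 ⟨mem_univ v, hv⟩)
      rw [disjoint_left, disjoint_left]
      constructor
      · intro h e he he'
        exact h he (mem_inter.1 he').1
      · intro h e he he'
        exact h he (mem_inter.2 ⟨he', this he⟩)
    · intro Z E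
      show (_ ∧ _) ↔ (_ ∧ _)
      apply and_congr_right
      rintro ⟨hZT, _⟩
      have hZW : Z ⊆ univ \ T := fun v hv => mem_sdiff.2 ⟨mem_univ v, disjoint_left.1 hZT hv⟩
      have e1 : ∀ v, Xv s Z ((univ \ T) \ Z) v (E ∩ inE (univ \ T)) =
          Xv s Z ((univ \ T) \ Z) v E := fun v =>
        Xv_local s Z _ (univ \ T) hZW sdiff_subset sdiff_disjoint v E
      have e2 : ∀ v, Xv (s + 1) Z ∅ v (E ∩ inE (univ \ T)) =
          Xv (s + 1) Z ∅ v E := fun v =>
        Xv_local (s + 1) Z _ (univ \ T) hZW (empty_subset _) (disjoint_empty_left _) v E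
      simp only [e1, e2]
    · intro Z
      by_cases hZ : Disjoint Z T ∧ (#Z : ℝ) ≤ z
      · have := deg_bound h0 h1 T Z hZ.1 s q B hq z κ hZ.2 hκ
        rw [hTcard] at this
        refine le_trans ?_ this
        apply Pr_mono h0 h1
        intro E _ h
        exact h.2
      · have e1 : Pr p (allE V) (Q Z) = 0 := by
          unfold Pr
          rw [← Ex_const p (allE V) 0]
          apply Ex_congr
          intro E _
          exact ind_false fun h => hZ h.1
        rw [e1]
        have e1 := AA_nonneg h0 hz.le s B (Fintype.card V - t - z)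
        have e2 := AA_nonneg h0 hz.le (s + 1) B 0
        positivity
  calc Pr p (allE V) (fun E => ¬ ∃ c : V → Fin (t + (q * r + 1)), IsCliqueColouring (gr E) c) ≤
      Pr p (allE V) (fun E => (P1 E ∨ P2 E) ∨ Q (unc T E) E) := Pr_mono h0 h1 _ hcover
    _ ≤ Pr p (allE V) (fun E => P1 E ∨ P2 E) + Pr p (allE V) (fun E => Q (unc T E) E) :=
        Pr_or h0 h1 _ _ _
    _ ≤ (Pr p (allE V) P1 + Pr p (allE V) P2) + Pr p (allE V) (fun E => Q (unc T E) E) :=
        add_le_add (Pr_or h0 h1 _ _ _) le_rfl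
    _ ≤ _ := by
        apply add_le_add _ hQ3
        apply add_le_add
        · exact no_common_union h0 h1 (s - 1)
        · have := unc_markov h0 h1 T z hz
          rw [hTcard] at this
          exact this

end Pool.Agent.H94.CC
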