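import Mathlib
import Pool.Agent.H94.CC.JL
import Pool.Agent.H94.CC.UpperProb

set_option linter.unusedSectionVars false

open Finset

namespace Pool.Agent.H94.CC

variable {V : Type*} [Fintype V] [DecidableEq V]

/-- Lower tail for the number of uncovered vertices. -/
lemma unc_lower {p : ℝ} (h0 : 0 ≤ p) (h1 : p ≤ 1) (T : Finset V) (a : ℝ) :
    Pr p (allE V) (fun E => (#(unc T E) : ℝ) ≤ a) ≤
      Real.exp (a - (Fintype.card V - #T : ℝ) * (1 - p) ^ #T / 2) := by
  set f : V → Finset (Sym2 V) → ℝ := fun v E => Real.exp (-ind (Disjoint (star v T) E)) with hf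
  have hTn : ∀ v ∈ univ \ T, v ∉ T := fun v hv => (mem_sdiff.1 hv).2
  have hloc : ∀ v, LocalEv (star v T) (fun E => Disjoint (star v T) E) := by
    intro v E
    show Disjoint (star v T) E ↔ Disjoint (star v T) (E ∩ star v T)
    constructor
    · intro h; exact h.mono_right inter_subset_left
    · intro h
      rw [disjoint_left] at h ⊢
      intro e he he'
      exact h he (mem_inter.2 ⟨he', he⟩)
  have e0 : ∀ E, (#(unc T E) : ℝ) = ∑ v ∈ univ \ T, ind (Disjoint (star v T) E) := by
    intro E
    unfold unc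
    rw [card_filter]
    push_cast
    apply sum_congr rfl
    intro v _
    by_cases h : Disjoint (star v T) E
    · rw [if_pos h, ind_true h]
    · rw [if_neg h, ind_false h]
  have e1 : ∀ E, ∏ v ∈ univ \ T, f v E = Real.exp (-(#(unc T E) : ℝ)) := by
    intro E
    rw [e0 E]
    simp only [hf]
    rw [← Real.exp_sum, sum_neg_distrib]
  have e2 : Ex p (allE V) (fun E => ∏ v ∈ univ \ T, f v E) =
      ∏ v ∈ univ \ T, Ex p (allE V) (f v) := by
    apply Ex_prod p (B := fun v => star v T)
    · intro v _ E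
      simp only [hf]
      rw [ind_congr (hloc v E)]
    · intro v hv
      exact star_subset_allE (hTn v hv)
    · intro v hv v' hv' hne
      exact star_disjoint (hTn v hv) (hTn v' hv') hne
  set π := (1 - p) ^ #T with hπ
  have hπ0 : 0 ≤ π := pow_nonneg (by linarith) _
  have e3 : ∀ v ∈ univ \ T, Ex p (allE V) (f v) ≤ Real.exp (-(π / 2)) := by
    intro v hv
    have e4 : ∀ E, f v E = 1 - (1 - Real.exp (-1)) * ind (Disjoint (star v T) E) := by
      intro E
      simp only [hf]
      by_cases h : Disjoint (star v T) E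
      · rw [ind_true h]; ring
      · rw [ind_false h]; simp
    have e5 : Ex p (allE V) (f v) = 1 - (1 - Real.exp (-1)) * π := by
      rw [Ex_congr p (allE V) (fun E _ => e4 E), Ex_sub, Ex_const, Ex_mul_left]
      congr 2
      have := Pr_disjoint p (star_subset_allE (hTn v hv))
      rw [card_star] at this
      exact this
    rw [e5]
    have e6 : Real.exp (-1) ≤ 1 / 2 := by
      rw [Real.exp_neg, ← one_div]
      apply one_div_le_one_div_of_le (by norm_num)
      have := Real.add_one_le_exp (1 : ℝ)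
      linarith
    have e7 := Real.add_one_le_exp (-(π / 2))
    nlinarith
  have e4 : Ex p (allE V) (fun E => Real.exp (-(#(unc T E) : ℝ))) ≤
      Real.exp (-((Fintype.card V - #T : ℝ) * π / 2)) := by
    have e5 : Ex p (allE V) (fun E => Real.exp (-(#(unc T E) : ℝ))) =
        ∏ v ∈ univ \ T, Ex p (allE V) (f v) := by
      rw [← e2]
      apply Ex_congr
      intro E _
      exact (e1 E).symm
    rw [e5]
    calc ∏ v ∈ univ \ T, Ex p (allE V) (f v) ≤ ∏ v ∈ univ \ T, Real.exp (-(π / 2)) := by
          apply prod_le_prod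
          · intro v _
            apply Ex_nonneg h0 h1
            intro E _
            exact (Real.exp_pos _).le
          · exact e3
      _ = Real.exp (-((Fintype.card V - #T : ℝ) * π / 2)) := by
          rw [prod_const, ← Real.exp_nat_mul, card_sdiff_of_subset (subset_univ _),
            Nat.cast_sub (card_le_card (subset_univ _)), card_univ]
          congr 1; ring
  have e5 := Pr_markov h0 h1 (allE V) (F := fun E => Real.exp (-(#(unc T E) : ℝ)))
    (c := Real.exp (-a)) (Real.exp_pos _) (fun E _ => (Real.exp_pos _).le)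
  have e6 : Pr p (allE V) (fun E => (#(unc T E) : ℝ) ≤ a) =
      Pr p (allE V) (fun E => Real.exp (-a) ≤ Real.exp (-(#(unc T E) : ℝ))) := by
    apply Pr_congr
    intro E _
    rw [Real.exp_le_exp, neg_le_neg_iff]
  rw [e6]
  refine e5.trans ?_
  rw [div_eq_mul_inv, ← Real.exp_neg, neg_neg, sub_eq_add_neg, Real.exp_add, mul_comm]
  exact mul_le_mul_of_nonneg_left e4 (Real.exp_pos _).le

lemma F1_bound {p : ℝ} (h0 : 0 ≤ p) (h1 : p ≤ 1) (t : ℕ) (a : ℝ) :
    Pr p (allE V) (fun E => ∃ T ∈ powersetCard t (univ : Finset V), (#(unc T E) : ℝ) ≤ a) ≤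
      (Fintype.card V : ℝ) ^ t *
        Real.exp (a - (Fintype.card V - t : ℝ) * (1 - p) ^ t / 2) := by
  refine (Pr_exists h0 h1 (allE V) _ _).trans ?_
  calc ∑ T ∈ powersetCard t (univ : Finset V), Pr p (allE V) (fun E => (#(unc T E) : ℝ) ≤ a) ≤
      ∑ T ∈ powersetCard t (univ : Finset V),
        Real.exp (a - (Fintype.card V - t : ℝ) * (1 - p) ^ t / 2) := by
        apply sum_le_sum
        intro T hT
        have := unc_lower h0 h1 T a
        rw [(mem_powersetCard.1 hT).2] at this
        exact this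
    _ = #(powersetCard t (univ : Finset V)) *
        Real.exp (a - (Fintype.card V - t : ℝ) * (1 - p) ^ t / 2) := by
        rw [sum_const, nsmul_eq_mul]
    _ ≤ _ := by
        apply mul_le_mul_of_nonneg_right _ (Real.exp_pos _).le
        rw [card_powersetCard, card_univ]
        exact_mod_cast Nat.choose_le_pow _ _

lemma F2_bound {p : ℝ} (h0 : 0 ≤ p) (h1 : p ≤ 1) (J L : ℕ) :
    Pr p (allE V) (fun E => ∃ T ∈ powersetCard J (univ : Finset V),
      ∃ D ∈ powersetCard L (univ \ T), D.biUnion (fun v => star v T) ⊆ E) ≤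
      (Fintype.card V : ℝ) ^ J * (Fintype.card V * p ^ J) ^ L := by
  have e1 : ∀ T ∈ powersetCard J (univ : Finset V), ∀ D ∈ powersetCard L (univ \ T),
      Pr p (allE V) (fun E => D.biUnion (fun v => star v T) ⊆ E) = p ^ (J * L) := by
    intro T hT D hD
    have hDT : ∀ v ∈ D, v ∉ T := fun v hv => (mem_sdiff.1 ((mem_powersetCard.1 hD).1 hv)).2
    rw [Pr_subset]
    · congr 1
      rw [card_biUnion]
      · rw [sum_congr rfl (fun v _ => card_star v T), sum_const, (mem_powersetCard.1 hT).2,
          (mem_powersetCard.1 hD).2, smul_eq_mul, mul_comm]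
      · intro v hv v' hv' hne
        exact star_disjoint (hDT v hv) (hDT v' hv') hne
    · rw [biUnion_subset]
      exact fun v hv => star_subset_allE (hDT v hv)
  refine (Pr_exists h0 h1 (allE V) _ _).trans ?_
  calc ∑ T ∈ powersetCard J (univ : Finset V), Pr p (allE V) (fun E =>
        ∃ D ∈ powersetCard L (univ \ T), D.biUnion (fun v => star v T) ⊆ E) ≤
      ∑ T ∈ powersetCard J (univ : Finset V), (Fintype.card V : ℝ) ^ L * p ^ (J * L) := by
        apply sum_le_sum
        intro T hT
        refine (Pr_exists h0 h1 (allE V) _ _).trans ?_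
        rw [sum_congr rfl (e1 T hT), sum_const, nsmul_eq_mul]
        apply mul_le_mul_of_nonneg_right _ (by positivity)
        rw [card_powersetCard]
        have : (#(univ \ T)).choose L ≤ Fintype.card V ^ L :=
          (Nat.choose_le_pow _ _).trans (Nat.pow_le_pow_left (card_le_univ _) _)
        exact_mod_cast this
    _ = #(powersetCard J (univ : Finset V)) * ((Fintype.card V : ℝ) ^ L * p ^ (J * L)) := by
        rw [sum_const, nsmul_eq_mul]
    _ ≤ (Fintype.card V : ℝ) ^ J * ((Fintype.card V : ℝ) ^ L * p ^ (J * L)) := by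
        apply mul_le_mul_of_nonneg_right _ (by positivity)
        rw [card_powersetCard, card_univ]
        exact_mod_cast Nat.choose_le_pow _ _
    _ = _ := by rw [mul_pow, ← pow_mul]

/-- The lower bound on the failure probability. -/
theorem lower_prob {p : ℝ} (h0 : 0 ≤ p) (h1 : p ≤ 1) (t M J s : ℕ) (hM : 0 < M) (hJ : 0 < J)
    (hs : 2 ≤ s) (hne : Nonempty V) (htn : t ≤ Fintype.card V) (b : ℕ → ℝ)
    (hb : ∀ m ∈ Icc M ((J + 1) * M), ∀ C : Finset V, #C = m →
      Pr p (allE V) (BadC s (2 * J * (J + 1)) C) ≤ b m) :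
    Pr p (allE V) (fun E => ∃ k ≤ t, ∃ c : V → Fin k, IsCliqueColouring (gr E) c) ≤
      (Fintype.card V : ℝ) ^ t *
        Real.exp (t * M - (Fintype.card V - t : ℝ) * (1 - p) ^ t / 2) +
      (Fintype.card V : ℝ) ^ J * (Fintype.card V * p ^ J) ^ ((M + 1) / 2) +
      ∑ m ∈ Icc M ((J + 1) * M), ((Fintype.card V).choose m : ℝ) * b m := by
  classical
  set P1 : Finset (Sym2 V) → Prop := fun E => ∃ T ∈ powersetCard t (univ : Finset V),
    (#(unc T E) : ℝ) ≤ t * M with hP1
  set P2 : Finset (Sym2 V) → Prop := fun E => ∃ T ∈ powersetCard J (univ : Finset V),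
      ∃ D ∈ powersetCard ((M + 1) / 2) (univ \ T), D.biUnion (fun v => star v T) ⊆ E with hP2
  set P3 : Finset (Sym2 V) → Prop := fun E => ∃ m ∈ Icc M ((J + 1) * M),
    ∃ C ∈ powersetCard m (univ : Finset V), BadC s (2 * J * (J + 1)) C E with hP3
  have hcover : ∀ E ⊆ allE V, (∃ k ≤ t, ∃ c : V → Fin k, IsCliqueColouring (gr E) c) →
      (P1 E ∨ P2 E) ∨ P3 E := by
    rintro E _ ⟨k, hk, c, hc⟩
    by_contra hcon
    push Not at hcon
    obtain ⟨⟨n1, n2⟩, n3⟩ := hcon
    have hlt := lower_det (gr E) t M J hM hJ hne ?_ ?_ ?_ c hc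
    · omega
    · -- F1
      intro T hT
      obtain ⟨T', hT1, _, hT3⟩ := exists_subsuperset_card_eq (subset_univ T) hT
        (by rw [card_univ]; exact htn)
      have h2 : (t * M : ℝ) < #(unc T' E) := by
        by_contra h
        exact n1 ⟨T', mem_powersetCard.2 ⟨subset_univ _, hT3⟩, not_lt.1 h⟩
      have h3 : t * M < #(unc T' E) := by exact_mod_cast h2
      refine lt_of_lt_of_le h3 (card_le_card ?_)
      intro v hv
      rw [mem_unc] at hv
      rw [mem_filter]
      refine ⟨mem_univ _, fun h => hv.1 (hT1 h), fun w hw hadj => ?_⟩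
      rw [gr_adj] at hadj
      have : s(v, w) ∈ star v T' := mk_mem_star (hT1 hw)
      apply disjoint_left.1 hv.2 this
      rw [Sym2.eq_swap]; exact hadj.1
    · -- F2
      intro T hT
      by_contra hcon
      push Not at hcon
      apply n2
      refine ⟨T, mem_powersetCard.2 ⟨subset_univ _, hT⟩, ?_⟩
      obtain ⟨D, hD1, hD2⟩ := exists_subset_card_eq (s := univ.filter fun v => ∀ w ∈ T,
        (gr E).Adj w v) (n := (M + 1) / 2) (by omega)
      refine ⟨D, mem_powersetCard.2 ⟨?_, hD2⟩, ?_⟩
      · intro v hv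
        rw [mem_sdiff]
        refine ⟨mem_univ _, fun hvT => ?_⟩
        have := (mem_filter.1 (hD1 hv)).2 v hvT
        exact (gr E).loopless.irrefl v this
      · rw [biUnion_subset]
        intro v hv e he
        obtain ⟨w, hw, rfl⟩ := mem_star.1 he
        have := (mem_filter.1 (hD1 hv)).2 w hw
        rw [gr_adj] at this
        rw [Sym2.eq_swap]; exact this.1
    · -- F3
      intro C hC1 hC2 hC3
      by_contra hcon
      apply n3
      refine ⟨#C, mem_Icc.2 ⟨hC1, hC2⟩, C, mem_powersetCard.2 ⟨subset_univ _, rfl⟩, ?_, ?_⟩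
      · intro u hu
        refine (hC3 u).trans ?_
        apply Nat.mul_le_mul_left
        apply card_le_card
        intro w hw
        rw [mem_filter] at hw
        rw [mem_sdiff, mem_nb]
        refine ⟨hw.1, fun h => hw.2 ?_⟩
        rw [gr_adj]
        refine ⟨h.2, ?_⟩
        rintro rfl
        exact hu hw.1
      · intro K hK hKs hKcl
        by_contra hno
        push Not at hno
        apply hcon
        refine ⟨K, hK, by omega, (cl_iff K E).1 hKcl, fun u hu => ?_⟩
        have := hno u hu
        rw [not_subset] at this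
        obtain ⟨w, hw, hwn⟩ := this
        refine ⟨w, hw, fun hadj => hwn ?_⟩
        rw [gr_adj] at hadj
        rw [mem_nb]
        exact ⟨hK hw, hadj.1⟩
  have p3 : Pr p (allE V) P3 ≤ ∑ m ∈ Icc M ((J + 1) * M), ((Fintype.card V).choose m : ℝ) * b m := by
    refine (Pr_exists h0 h1 (allE V) _ _).trans ?_
    apply sum_le_sum
    intro m hm
    refine (Pr_exists h0 h1 (allE V) _ _).trans ?_
    calc ∑ C ∈ powersetCard m (univ : Finset V), Pr p (allE V) (BadC s (2 * J * (J + 1)) C) ≤
        ∑ C ∈ powersetCard m (univ : Finset V), b m := by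
          apply sum_le_sum
          intro C hC
          exact hb m hm C (mem_powersetCard.1 hC).2
      _ = _ := by
          rw [sum_const, card_powersetCard, card_univ, nsmul_eq_mul]
  calc Pr p (allE V) (fun E => ∃ k ≤ t, ∃ c : V → Fin k, IsCliqueColouring (gr E) c) ≤
      Pr p (allE V) (fun E => (P1 E ∨ P2 E) ∨ P3 E) := Pr_mono h0 h1 _ hcover
    _ ≤ Pr p (allE V) (fun E => P1 E ∨ P2 E) + Pr p (allE V) P3 := Pr_or h0 h1 _ _ _
    _ ≤ (Pr p (allE V) P1 + Pr p (allE V) P2) + Pr p (allE V) P3 :=
        add_le_add (Pr_or h0 h1 _ _ _) le_rfl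
    _ ≤ _ := by
        apply add_le_add _ p3
        apply add_le_add
        · exact F1_bound h0 h1 t (t * M)
        · exact F2_bound h0 h1 J ((M + 1) / 2)

end Pool.Agent.H94.CC
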