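import Mathlib
import Pool.Agent.H94.CC.Expo
import Pool.Agent.H94.CC.UpperProb

set_option linter.unusedSectionVars false

open Filter Topology Finset

namespace Pool.Agent.H94.CC

lemma chi_le {V : Type*} (G : SimpleGraph V) {k : ℕ} (h : ∃ c : V → Fin k, IsCliqueColouring G c) :
    cliqueChromaticNumber G ≤ k := Nat.sInf_le h

lemma chi_mem (n : ℕ) (G : SimpleGraph (Fin n)) :
    ∃ c : Fin n → Fin (cliqueChromaticNumber G), IsCliqueColouring G c := by
  have hne : {k : ℕ | ∃ c : Fin n → Fin k, IsCliqueColouring G c}.Nonempty := by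
    refine ⟨n, id, ?_⟩
    rintro K _ hKn ⟨a, ha⟩
    obtain ⟨u, hu, v, hv, huv⟩ := hKn
    apply huv
    rw [← id_def u, ← id_def v, ha u hu, ha v hv]
  exact Nat.sInf_mem hne

lemma choose_two_sub (k j : ℕ) (hj : j ≤ k) :
    ((k.choose 2 - j.choose 2 : ℕ) : ℝ) = ((k : ℝ) * (k - 1) - j * (j - 1)) / 2 := by
  rw [Nat.cast_sub (Nat.choose_le_choose 2 hj), Nat.cast_choose_two, Nat.cast_choose_two]
  ring

lemma UB_AA {l : Filter ℕ} (hl : l ≤ atTop) (p z y : ℕ → ℝ) (x ω ρ α : ℝ) (k B : ℕ) (hα : 0 ≤ α)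
    (hp : ∀ᶠ n : ℕ in l, 0 ≤ p n) (hpu : UB l p (-x)) (hz : ∀ᶠ n : ℕ in l, 0 ≤ z n)
    (hzu : UB l z ω) (hy : UB l (fun n => Real.exp (-(y n * p n ^ k))) (-ρ))
    (h : ∀ j ∈ Icc 1 k, ((k : ℝ) - j) * ω - x * (((k : ℝ) * (k - 1) - j * (j - 1)) / 2) ≤ α + ρ)
    (hk : 1 ≤ k) :
    UB l (fun n => AA (p n) (z n) k B (y n)) α := by
  have h1 : UB l (fun n => ∑ j ∈ Icc 1 k, ((k * B + 1 : ℕ) : ℝ) ^ j *
      z n ^ (k - j) * p n ^ (k.choose 2 - j.choose 2)) (α + ρ) := by
    apply UB.sum hl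
    · intro j hj
      have hjk := (mem_Icc.1 hj).2
      have e1 := (UB_const hl (((k * B + 1 : ℕ) : ℝ) ^ j)).mul hl (hzu.pow hl hz (k - j))
        (Eventually.of_forall fun n => by positivity) (hz.mono fun n hn => by positivity)
      have e2 := e1.mul hl (hpu.pow hl hp (k.choose 2 - j.choose 2))
        (hz.mono fun n hn => by positivity) (hp.mono fun n hn => by positivity)
      apply e2.mono
      rw [choose_two_sub k j hjk, Nat.cast_sub hjk]
      have := h j hj
      linarith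
    · right
      exact ⟨1, by rw [mem_Icc]; exact ⟨le_rfl, hk⟩⟩
  have h2 := hy.mul hl h1 (Eventually.of_forall fun n => (Real.exp_pos _).le) (by
    filter_upwards [hp, hz] with n h3 h4
    exact sum_nonneg fun j _ => by positivity)
  have h3 := ((UB_const hl (B : ℝ)).mono hα).add hl (h2.mono (by linarith : -ρ + (α + ρ) ≤ α))
  exact h3

/-- Parameters of the asymptotic regime. -/
structure Regime (l : Filter ℕ) (p : ℕ → ℝ) (x : ℝ) : Prop where
  hl : l ≤ atTop
  pos : ∀ᶠ n : ℕ in l, 0 < p n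
  le_one : ∀ᶠ n : ℕ in l, p n ≤ 1
  x0 : 0 < x
  x1 : x < 1 / 3
  ub : UB l p (-x)
  lb : LB l p (-x)

lemma Regime.nonneg {l : Filter ℕ} {p : ℕ → ℝ} {x : ℝ} (R : Regime l p x) :
    ∀ᶠ n : ℕ in l, 0 ≤ p n := R.pos.mono fun _ h => h.le

lemma Regime.inv_lb {l : Filter ℕ} {p : ℕ → ℝ} {x : ℝ} (R : Regime l p x) :
    LB l (fun n => 1 / p n) x := by
  have := R.ub.inv R.hl R.pos
  rwa [neg_neg] at this

lemma Regime.inv_ub {l : Filter ℕ} {p : ℕ → ℝ} {x : ℝ} (R : Regime l p x) :
    UB l (fun n => 1 / p n) x := by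
  have := R.lb.inv R.hl
  rwa [neg_neg] at this

/-- `log n / p` has exponent `x`. -/
lemma Regime.logp_ub {l : Filter ℕ} {p : ℕ → ℝ} {x : ℝ} (R : Regime l p x) {c : ℝ} (hc : 0 ≤ c) :
    UB l (fun n => c * Real.log n / p n) x := by
  have h1 := ((UB_const R.hl c).mul R.hl (UB_log R.hl) (Eventually.of_forall fun n => hc)
    (Eventually.of_forall fun n => Real.log_natCast_nonneg n)).mul R.hl R.inv_ub
    (Eventually.of_forall fun n => mul_nonneg hc (Real.log_natCast_nonneg n))
    (R.pos.mono fun n h => by positivity)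
  rw [add_zero, zero_add] at h1
  intro γ hγ
  filter_upwards [h1 γ hγ] with n hn
  rwa [mul_one_div] at hn

lemma Regime.logp_lb {l : Filter ℕ} {p : ℕ → ℝ} {x : ℝ} (R : Regime l p x) {c : ℝ} (hc : 0 < c) :
    LB l (fun n => c * Real.log n / p n) x := by
  have h1 := (LB_const R.hl hc).mul R.hl R.inv_lb
  rw [zero_add] at h1
  apply h1.congr
  filter_upwards [ev_log_ge R.hl 1, R.pos] with n h2 h3
  rw [mul_one_div]
  apply div_le_div_of_nonneg_right _ h3.le
  nlinarith

theorem upper_asymp {l : Filter ℕ} {p : ℕ → ℝ} {x : ℝ} (R : Regime l p x) (s : ℕ) (hs : 4 ≤ s)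
    (hs1 : 1 ≤ s * x) (hs2 : ((s : ℝ) - 1) * x < 1) (lam : ℝ) (hlam0 : 0 ≤ lam)
    (hlam1 : lam ≤ ((s : ℝ) - 1) * x / 2)
    (hlam : ∀ δ > 0, ∀ᶠ n : ℕ in l, (lam - δ) * Real.log n ≤ n * p n ^ s) (c : ℝ)
    (hc0 : 0 < 1 - x * (1 + s / 2) - lam / ((s : ℝ) - 1))
    (hc : 1 - x * (1 + s / 2) - lam / ((s : ℝ) - 1) < c) :
    Tendsto (fun n => Pr (p n) (allE (Fin n))
      (fun E => c * Real.log n / p n < cliqueChromaticNumber (gr E))) l (𝓝 0) := by
  have hl := R.hl
  have hx0 := R.x0
  have hx1 := R.x1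
  have hs4 : (4 : ℝ) ≤ s := by exact_mod_cast hs
  have hsm : (0 : ℝ) < (s : ℝ) - 1 := by linarith
  set cs := 1 - x * (1 + s / 2) - lam / ((s : ℝ) - 1) with hcs
  set u := lam / ((s : ℝ) - 1) with hu
  have hu0 : 0 ≤ u := by positivity
  have hlamu : lam = u * ((s : ℝ) - 1) := by rw [hu]; field_simp
  have hu1 : u ≤ x / 2 := by
    rw [hu, div_le_iff₀ hsm]; linarith
  set η := min (c - cs) x / 2 with hη
  have hη0 : 0 < η := by
    have : 0 < min (c - cs) x := lt_min (by linarith) hx0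
    linarith
  have hηx : η ≤ x / 2 := by
    have : min (c - cs) x ≤ x := min_le_right _ _
    linarith
  have hηc : η ≤ (c - cs) / 2 := by
    have : min (c - cs) x ≤ c - cs := min_le_left _ _
    linarith
  set c' := cs + 3 * η / 2 with hc'
  have hc'c : c' < c := by rw [hc']; linarith
  have hc'0 : 0 < c' := by rw [hc']; linarith
  set ω := 1 - (cs + η) with hω
  have hω1 : ω < 1 := by rw [hω]; linarith
  set z : ℕ → ℝ := fun n => (n : ℝ) ^ ω with hz
  set t : ℕ → ℕ := fun n => ⌈c' * Real.log n / p n⌉₊ with ht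
  set q : ℕ → ℕ := fun n => ⌈(n : ℝ) ^ (x - η / 2)⌉₊ with hq
  set κ : ℕ → ℝ := fun n => (n : ℝ) ^ (-(η / 2)) with hκ
  set r : ℕ := ⌈2 / (η / 2)⌉₊ with hr
  set B : ℕ := ⌈2 / η⌉₊ with hB
  have hBη : 2 ≤ B * η := by
    have := Nat.le_ceil (2 / η)
    rw [div_le_iff₀ hη0] at this
    exact this
  have hrη : 2 ≤ r * (η / 2) := by
    have := Nat.le_ceil (2 / (η / 2))
    rw [div_le_iff₀ (by linarith)] at this
    exact this
  -- exponents of the parameters
  have hz0 : ∀ᶠ n : ℕ in l, 0 ≤ z n := Eventually.of_forall fun n => by simp only [hz]; positivity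
  have hzu : UB l z ω := UB_rpow hl ω
  have hlp0 : ∀ᶠ n : ℕ in l, 0 ≤ c' * Real.log n / p n := R.pos.mono fun n h => by
    have := Real.log_natCast_nonneg n
    positivity
  have htu : UB l (fun n => (t n : ℝ)) x := UB_ceil hl (R.logp_ub hc'0.le) hx0.le hlp0
  have hqu : UB l (fun n => (q n : ℝ)) (x - η / 2) :=
    UB_ceil hl (UB_rpow hl _) (by linarith) (Eventually.of_forall fun n => by positivity)
  have hql : LB l (fun n => (q n : ℝ)) (x - η / 2) := LB_ceil (LB_rpow hl _)
  have hκl : LB l κ (-(η / 2)) := LB_rpow hl _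
  have htn : ∀ᶠ n : ℕ in l, t n ≤ n := by
    filter_upwards [UB_le_LB htu (LB_natCast hl) (by linarith)] with n hn
    exact_mod_cast hn
  -- the size of `Y`
  have hY : ∀ δ > 0, ∀ᶠ n : ℕ in l, (1 - δ) * n ≤ (n : ℝ) - t n - z n := by
    intro δ hδ
    have e1 := (htu.mono (le_max_left x ω)).add hl (hzu.mono (le_max_right x ω))
    have e2 := (LB_const hl hδ).mul hl (LB_natCast hl)
    filter_upwards [UB_le_LB e1 e2 (by rw [zero_add]; exact max_lt (by linarith) hω1)] with n hn
    linarith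
  -- the exponential factor
  have hYexp : UB l (fun n => Real.exp (-(((n : ℝ) - t n - z n) * p n ^ s))) (-lam) := by
    intro β hβ
    by_cases hβ0 : 0 < β
    · filter_upwards [hY (1 / 2) (by norm_num), R.pos, ev_rpow_ge hl hβ0 1] with n h1 h2 h3
      refine le_trans ?_ h3
      apply Real.exp_le_one_iff.2
      have : 0 ≤ ((n : ℝ) - t n - z n) := by
        have : (0 : ℝ) ≤ n := Nat.cast_nonneg n
        linarith
      have := mul_nonneg this (pow_nonneg h2.le s)
      linarith
    · push Not at hβ0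
      set δ := (lam + β) / (2 + lam) with hδ
      have hδ0 : 0 < δ := by
        rw [hδ]; apply div_pos <;> linarith
      have hδ1 : δ ≤ 1 := by
        rw [hδ, div_le_one (by linarith)]; linarith
      have hδ2 : δ * (2 + lam) = lam + β := by rw [hδ]; field_simp
      filter_upwards [hY δ hδ0, R.pos, hlam δ hδ0, ev_log_ge hl 0, ev_ge hl 1]
        with n h1 h2 h3 h4 h5
      have hn : (0 : ℝ) < n := by exact_mod_cast h5
      have h6 : (1 - δ) * ((lam - δ) * Real.log n) ≤ ((n : ℝ) - t n - z n) * p n ^ s := by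
        calc (1 - δ) * ((lam - δ) * Real.log n) ≤ (1 - δ) * (n * p n ^ s) :=
              mul_le_mul_of_nonneg_left h3 (by linarith)
          _ = ((1 - δ) * n) * p n ^ s := by ring
          _ ≤ _ := mul_le_mul_of_nonneg_right h1 (by positivity)
      rw [Real.rpow_def_of_pos hn]
      apply Real.exp_le_exp.2
      have h7 : -β ≤ (1 - δ) * (lam - δ) := by nlinarith
      have h8 := mul_le_mul_of_nonneg_right h7 h4
      linarith
  -- the two moments
  have hAA1 : UB l (fun n => AA (p n) (z n) s B ((n : ℝ) - t n - z n)) (((s : ℝ) - 1) * (x - η)) := by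
    apply UB_AA hl p z (fun n => (n : ℝ) - t n - z n) x ω lam _ s B (by nlinarith) R.nonneg R.ub
      hz0 hzu hYexp _ (by omega)
    intro j hj
    rw [mem_Icc] at hj
    have hj1 : (1 : ℝ) ≤ j := by exact_mod_cast hj.1
    have hjs : (j : ℝ) ≤ s := by exact_mod_cast hj.2
    have e1 : ω = x * (1 + s / 2) + u - η := by rw [hω, hcs]; ring
    rw [e1, hlamu]
    have e2 : ((s : ℝ) - j) * (x * (1 + s / 2) + u - η) - x * (((s : ℝ) * (s - 1) - j * (j - 1)) / 2)
        = ((s : ℝ) - j) * (x * (3 - j) / 2 + u - η) := by ring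
    rw [e2]
    rcases Nat.lt_or_ge 1 j with h | h
    · have hj2 : (2 : ℝ) ≤ j := by exact_mod_cast h
      have e3 : x * (3 - j) / 2 ≤ x / 2 := by nlinarith
      have e4 : ((s : ℝ) - j) * (x * (3 - j) / 2 + u - η) ≤ ((s : ℝ) - j) * (x / 2 + u - η) :=
        mul_le_mul_of_nonneg_left (by linarith) (by linarith)
      have e5 : ((s : ℝ) - j) * (x / 2 + u - η) ≤ ((s : ℝ) - 1) * (x / 2 + u - η) :=
        mul_le_mul_of_nonneg_right (by linarith) (by linarith)
      nlinarith
    · have hj1' : j = 1 := le_antisymm h hj.1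
      rw [hj1']
      push_cast
      nlinarith
  have hAA2 : UB l (fun n => AA (p n) (z n) (s + 1) B 0) ((s : ℝ) * (x - η)) := by
    apply UB_AA hl p z (fun _ => 0) x ω 0 _ (s + 1) B (by nlinarith) R.nonneg R.ub
      hz0 hzu _ _ (by omega)
    · rw [neg_zero]
      simp only [zero_mul, neg_zero, Real.exp_zero]
      exact UB_const hl 1
    · intro j hj
      rw [mem_Icc] at hj
      have hj1 : (1 : ℝ) ≤ j := by exact_mod_cast hj.1
      have hjs : (j : ℝ) ≤ s + 1 := by exact_mod_cast hj.2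
      have e1 : ω = x * (1 + s / 2) + u - η := by rw [hω, hcs]; ring
      rw [e1]
      push_cast
      have e2 : ((s : ℝ) + 1 - j) * (x * (1 + s / 2) + u - η) -
          x * ((((s : ℝ) + 1) * (s + 1 - 1) - j * (j - 1)) / 2)
          = ((s : ℝ) + 1 - j) * (x * (2 - j) / 2 + u - η) := by ring
      rw [e2]
      have e6 : ((s : ℝ) + 1 - j) * (x * (2 - j) / 2 + u - η) ≤
          ((s : ℝ) + 1 - j) * (x * (3 - j) / 2 - η) :=
        mul_le_mul_of_nonneg_left (by linarith) (by linarith)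
      refine e6.trans ?_
      rcases Nat.lt_or_ge 1 j with h | h
      · have hj2 : (2 : ℝ) ≤ j := by exact_mod_cast h
        have e3 : x * (3 - j) / 2 ≤ x / 2 := by nlinarith
        have e4 : ((s : ℝ) + 1 - j) * (x * (3 - j) / 2 - η) ≤ ((s : ℝ) + 1 - j) * (x / 2 - η) :=
          mul_le_mul_of_nonneg_left (by linarith) (by linarith)
        have e5 : ((s : ℝ) + 1 - j) * (x / 2 - η) ≤ (s : ℝ) * (x / 2 - η) :=
          mul_le_mul_of_nonneg_right (by linarith) (by linarith)
        nlinarith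
      · have hj1' : j = 1 := le_antisymm h hj.1
        rw [hj1']
        push_cast
        nlinarith
  -- the denominators
  have hden1 : LB l (fun n => κ n / 2 * (q n : ℝ) ^ (s - 1)) (-(η / 2) + ((s : ℝ) - 1) * (x - η / 2)) := by
    have e1 := (hκl.mul hl (LB_const hl (by norm_num : (0 : ℝ) < 1 / 2))).mul hl
      (hql.pow hl (s - 1))
    rw [Nat.cast_sub (by omega : 1 ≤ s)] at e1
    have e2 : LB l (fun n => κ n / 2 * (q n : ℝ) ^ (s - 1))
        (-(η / 2) + 0 + ((s : ℝ) - (1 : ℕ)) * (x - η / 2)) := by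
      apply e1.congr
      apply Eventually.of_forall
      intro n
      apply le_of_eq; ring
    apply e2.mono
    push_cast; linarith
  have hden2 : LB l (fun n => κ n / 2 * (q n : ℝ) ^ s) (-(η / 2) + (s : ℝ) * (x - η / 2)) := by
    have e1 := (hκl.mul hl (LB_const hl (by norm_num : (0 : ℝ) < 1 / 2))).mul hl
      (hql.pow hl s)
    have e2 : LB l (fun n => κ n / 2 * (q n : ℝ) ^ s)
        (-(η / 2) + 0 + (s : ℝ) * (x - η / 2)) := by
      apply e1.congr
      apply Eventually.of_forall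
      intro n
      apply le_of_eq; ring
    apply e2.mono
    linarith
  have hAAnn1 : ∀ᶠ n : ℕ in l, 0 ≤ AA (p n) (z n) s B ((n : ℝ) - t n - z n) := by
    filter_upwards [R.nonneg, hz0] with n h1 h2
    exact AA_nonneg h1 h2 _ _ _
  have hAAnn2 : ∀ᶠ n : ℕ in l, 0 ≤ AA (p n) (z n) (s + 1) B 0 := by
    filter_upwards [R.nonneg, hz0] with n h1 h2
    exact AA_nonneg h1 h2 _ _ _
  have hr1 : UB l (fun n => AA (p n) (z n) s B ((n : ℝ) - t n - z n) /
      (κ n / 2 * (q n : ℝ) ^ (s - 1))) (-η) := by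
    apply (hAA1.div hl hden1 hAAnn1).mono
    nlinarith
  have hr2 : UB l (fun n => AA (p n) (z n) (s + 1) B 0 / (κ n / 2 * (q n : ℝ) ^ s)) (-η) := by
    apply (hAA2.div hl hden2 hAAnn2).mono
    nlinarith
  have hrn1 : ∀ᶠ n : ℕ in l, 0 ≤ AA (p n) (z n) s B ((n : ℝ) - t n - z n) /
      (κ n / 2 * (q n : ℝ) ^ (s - 1)) := by
    filter_upwards [hAAnn1, hden1.pos hl] with n h1 h2
    exact div_nonneg h1 h2.le
  have hrn2 : ∀ᶠ n : ℕ in l, 0 ≤ AA (p n) (z n) (s + 1) B 0 / (κ n / 2 * (q n : ℝ) ^ s) := by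
    filter_upwards [hAAnn2, hden2.pos hl] with n h1 h2
    exact div_nonneg h1 h2.le
  have hexp : UB l (fun n => Real.exp ((B : ℝ) ^ 2 * n * p n ^ (s + 1))) 0 := by
    have e1 := (UB_natCast hl).mul hl (R.ub.pow hl R.nonneg (s + 1))
      (Eventually.of_forall fun n => Nat.cast_nonneg n) (R.nonneg.mono fun n h => by positivity)
    apply (UB_const hl (Real.exp ((B : ℝ) ^ 2))).congr
    filter_upwards [e1.eventually_le hl (by push_cast; nlinarith) one_pos] with n hn
    apply Real.exp_le_exp.2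
    have : (0 : ℝ) ≤ (B : ℝ) ^ 2 := by positivity
    nlinarith
  -- three terms
  set T1 : ℕ → ℝ := fun n => (n : ℝ) ^ (s - 1) *
      Real.exp (-(((n : ℝ) - (s - 1 : ℕ)) * p n ^ (s - 1))) with hT1
  set T2 : ℕ → ℝ := fun n => n * (1 - p n) ^ t n / z n with hT2
  set T3 : ℕ → ℝ := fun n => z n * ((AA (p n) (z n) s B ((n : ℝ) - t n - z n) /
      (κ n / 2 * (q n : ℝ) ^ (s - 1))) ^ B * Real.exp ((B : ℝ) ^ 2 * n * p n ^ (s + 1)) +
      (AA (p n) (z n) (s + 1) B 0 / (κ n / 2 * (q n : ℝ) ^ s)) ^ B) with hT3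
  have hT1z : Tendsto T1 l (𝓝 0) := by
    have e1 : LB l (fun n => ((n : ℝ) - (s - 1 : ℕ)) * p n ^ (s - 1)) (1 - ((s : ℝ) - 1) * x) := by
      have e2 := (((LB_const hl (by norm_num : (0 : ℝ) < 1 / 2)).mul hl (LB_natCast hl)).mul hl
        (R.lb.pow hl (s - 1)))
      rw [Nat.cast_sub (by omega : 1 ≤ s)] at e2
      have e3 : LB l (fun n => ((n : ℝ) - (s - 1 : ℕ)) * p n ^ (s - 1))
          (0 + 1 + ((s : ℝ) - (1 : ℕ)) * -x) := by
        apply e2.congr
        filter_upwards [R.nonneg, ev_ge hl (2 * (s - 1))] with n h1 h2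
        apply mul_le_mul_of_nonneg_right _ (pow_nonneg h1 _)
        have : ((2 * (s - 1) : ℕ) : ℝ) ≤ n := by exact_mod_cast h2
        push_cast at this ⊢
        linarith
      apply e3.mono
      push_cast; linarith
    have e4 := (UB_const hl (s : ℝ)).mul hl (UB_log hl)
      (Eventually.of_forall fun n => Nat.cast_nonneg s)
      (Eventually.of_forall fun n => Real.log_natCast_nonneg n)
    have e5 := UB_le_LB e4 e1 (by linarith)
    apply tendsto_of_tendsto_of_tendsto_of_le_of_le' tendsto_const_nhds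
      (rpow_tendsto_zero hl (by norm_num : (-1 : ℝ) < 0))
    · apply Eventually.of_forall
      intro n; simp only [hT1]; positivity
    · filter_upwards [e5, ev_ge hl 1] with n h1 h2
      have hn : (0 : ℝ) < n := by exact_mod_cast h2
      simp only [hT1]
      calc (n : ℝ) ^ (s - 1) * Real.exp (-(((n : ℝ) - (s - 1 : ℕ)) * p n ^ (s - 1))) ≤
          (n : ℝ) ^ (s - 1) * Real.exp (-(s * Real.log n)) := by
            apply mul_le_mul_of_nonneg_left _ (by positivity)
            apply Real.exp_le_exp.2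
            linarith
        _ = (n : ℝ) ^ (((s - 1 : ℕ) : ℝ) + -(s : ℝ)) := by
            rw [Real.rpow_add hn, Real.rpow_natCast, Real.rpow_def_of_pos hn]
            congr 2; ring
        _ = (n : ℝ) ^ (-1 : ℝ) := by
            congr 1
            rw [Nat.cast_sub (by omega : 1 ≤ s)]
            push_cast; ring
  have hT2z : Tendsto T2 l (𝓝 0) := by
    apply tendsto_of_tendsto_of_tendsto_of_le_of_le' tendsto_const_nhds
      (rpow_tendsto_zero hl (by linarith : (-(η / 2) : ℝ) < 0))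
    · filter_upwards [R.le_one] with n h1
      simp only [hT2, hz]
      have : 0 ≤ 1 - p n := by linarith
      positivity
    · filter_upwards [R.le_one, R.pos, ev_ge hl 1] with n h1 h2 h3
      have hn : (0 : ℝ) < n := by exact_mod_cast h3
      simp only [hT2, hz]
      have e1 : (1 - p n) ^ t n ≤ (n : ℝ) ^ (-c') := by
        have e2 : 1 - p n ≤ Real.exp (-p n) := by
          have := Real.add_one_le_exp (-p n)
          linarith
        calc (1 - p n) ^ t n ≤ Real.exp (-p n) ^ t n :=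
              pow_le_pow_left₀ (by linarith) e2 _
          _ = Real.exp (t n * -p n) := by rw [← Real.exp_nat_mul]
          _ ≤ Real.exp (Real.log n * -c') := by
              apply Real.exp_le_exp.2
              have e3 : c' * Real.log n / p n ≤ t n := Nat.le_ceil _
              rw [div_le_iff₀ h2] at e3
              linarith
          _ = (n : ℝ) ^ (-c') := by rw [Real.rpow_def_of_pos hn]
      calc n * (1 - p n) ^ t n / (n : ℝ) ^ ω ≤ n * (n : ℝ) ^ (-c') / (n : ℝ) ^ ω := by
            apply div_le_div_of_nonneg_right _ (by positivity)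
            exact mul_le_mul_of_nonneg_left e1 hn.le
        _ = (n : ℝ) ^ (-(η / 2)) := by
            have e4 : (n : ℝ) * (n : ℝ) ^ (-c') = (n : ℝ) ^ (1 + -c') := by
              rw [Real.rpow_add hn, Real.rpow_one]
            rw [e4, ← Real.rpow_sub hn]
            congr 1
            rw [hω, hc']; ring
  have hT3nn : ∀ᶠ n : ℕ in l, 0 ≤ T3 n := by
    filter_upwards [hrn1, hrn2, hz0] with n h1 h2 h3
    simp only [hT3]
    positivity
  have hT3z : Tendsto T3 l (𝓝 0) := by
    have e1 := ((hr1.pow hl hrn1 B).mul hl hexp (hrn1.mono fun n h => pow_nonneg h _)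
      (Eventually.of_forall fun n => (Real.exp_pos _).le))
    have e2 := hr2.pow hl hrn2 B
    have e3 := (e1.mono (by linarith : (B : ℝ) * -η + 0 ≤ -2)).add hl
      (e2.mono (by linarith : (B : ℝ) * -η ≤ -2))
    have e4 := hzu.mul hl e3 hz0 (by
      filter_upwards [hrn1, hrn2] with n h1 h2
      positivity)
    exact e4.tendsto_zero hl hT3nn (by linarith)
  have hTz : Tendsto (fun n => T1 n + T2 n + T3 n) l (𝓝 0) := by
    have := (hT1z.add hT2z).add hT3z
    simpa using this
  -- number of colours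
  have hcol : ∀ᶠ n : ℕ in l, ((t n + (q n * r + 1) : ℕ) : ℝ) ≤ c * Real.log n / p n := by
    have e1 := (hqu.mul hl (UB_const hl (r : ℝ)) (Eventually.of_forall fun n => Nat.cast_nonneg _)
      (Eventually.of_forall fun n => Nat.cast_nonneg _)).add hl
      ((UB_const hl 2).mono (by linarith : (0 : ℝ) ≤ x - η / 2 + 0))
    have e2 := R.logp_lb (c := c - c') (by linarith)
    filter_upwards [UB_le_LB e1 e2 (by linarith), hlp0] with n h1 h2
    have e3 := (Nat.ceil_lt_add_one h2).le
    have e4 : (t n : ℝ) ≤ c' * Real.log n / p n + 1 := e3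
    push_cast
    have e5 : c * Real.log n / p n = c' * Real.log n / p n + (c - c') * Real.log n / p n := by ring
    rw [e5]
    linarith
  have hκr : ∀ᶠ n : ℕ in l, z n * κ n ^ r < 1 := by
    filter_upwards [ev_ge hl 2] with n h1
    have hn : (1 : ℝ) < n := by exact_mod_cast (by omega : 1 < n)
    have hn0 : (0 : ℝ) < n := by linarith
    simp only [hz, hκ]
    rw [← Real.rpow_natCast, ← Real.rpow_mul hn0.le, ← Real.rpow_add hn0]
    apply Real.rpow_lt_one_of_one_lt_of_neg hn
    have : -(η / 2) * (r : ℝ) = -(r * (η / 2)) := by ring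
    rw [this]
    linarith
  apply tendsto_of_tendsto_of_tendsto_of_le_of_le' tendsto_const_nhds hTz
  · filter_upwards [R.nonneg, R.le_one] with n h1 h2
    exact Pr_nonneg h1 h2 _ _
  · filter_upwards [R.nonneg, R.le_one, hcol, hκr, htn, ev_ge hl s, ev_ge hl 1]
      with n h1 h2 h3 h4 h5 h6 h7
    have hn : (0 : ℝ) < n := by exact_mod_cast h7
    have e1 := upper_prob (V := Fin n) h1 h2 (t := t n) (Fin.castLE h5)
      (Fin.castLE_injective h5) s (q n) r B (by omega) (by
        rw [hq]; apply Nat.ceil_pos.2; positivity) (by rw [Fintype.card_fin]; exact h6)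
      (z n) (κ n) (by simp only [hz]; positivity) (by simp only [hκ]; positivity) h4
    rw [Fintype.card_fin] at e1
    refine le_trans (Pr_mono h1 h2 _ ?_) e1
    intro E _ hE hc2
    have e2 := chi_le (gr E) hc2
    have e3 : (cliqueChromaticNumber (gr E) : ℝ) ≤ ((t n + (q n * r + 1) : ℕ) : ℝ) := by
      exact_mod_cast e2
    linarith

end Pool.Agent.H94.CC
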