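import Mathlib
import Pool.Agent.H94.CC.LowerNum
import Pool.Agent.H94.CC.LowerProb
import Pool.Agent.H94.CC.UpperAsymp

set_option linter.unusedSectionVars false

open Filter Topology Finset

namespace Pool.Agent.H94.CC

/-- `log p ≤ - (x - ξ) log n`. -/
lemma Regime.neglog {l : Filter ℕ} {p : ℕ → ℝ} {x : ℝ} (R : Regime l p x) {y : ℝ} (hy : y < x) :
    ∀ᶠ n : ℕ in l, y * Real.log n ≤ -Real.log (p n) := by
  filter_upwards [R.ub (-y) (by linarith), R.pos, ev_ge R.hl 1] with n h1 h2 h3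
  have hn : (0 : ℝ) < n := by exact_mod_cast h3
  have h4 := Real.log_le_log h2 h1
  rw [Real.log_rpow hn] at h4
  linarith


/-- Lower bound for `(1 - p) ^ t`. -/
lemma Regime.one_sub_pow {l : Filter ℕ} {p : ℕ → ℝ} {x : ℝ} (R : Regime l p x) {c : ℝ}
    (hc0 : 0 < c) (t : ℕ → ℕ) (ht : ∀ᶠ n : ℕ in l, (t n : ℝ) ≤ c * Real.log n / p n) :
    LB l (fun n => (1 - p n) ^ t n) (-c) := by
  have hl := R.hl
  have hx0 := R.x0
  intro β hβ
  have e2 : Tendsto p l (𝓝 0) := R.ub.tendsto_zero hl R.nonneg (by linarith)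
  have hγ : 0 < (-β - c) / c := by
    apply div_pos _ hc0; linarith
  have e3 : ∀ᶠ n : ℕ in l, p n < min (1 / 2) ((-β - c) / c / 2) :=
    e2.eventually (gt_mem_nhds (lt_min (by norm_num) (by linarith)))
  filter_upwards [e3, R.pos, ev_ge hl 1, ht] with n h1 h2 h3 h4
  have hn : (0 : ℝ) < n := by exact_mod_cast h3
  have hL : 0 ≤ Real.log n := Real.log_natCast_nonneg n
  have h5 : p n ≤ 1 / 2 := (h1.le).trans (min_le_left _ _)
  have h6 : p n ≤ (-β - c) / c / 2 := (h1.le).trans (min_le_right _ _)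
  have h7 : (0 : ℝ) < 1 - p n := by linarith
  have h8 : -(p n * (1 + 2 * p n)) ≤ Real.log (1 - p n) := by
    have h9 : Real.log (1 / (1 - p n)) ≤ 1 / (1 - p n) - 1 :=
      Real.log_le_sub_one_of_pos (by positivity)
    rw [one_div, Real.log_inv] at h9
    have h10 : (1 - p n)⁻¹ - 1 ≤ p n * (1 + 2 * p n) := by
      rw [sub_le_iff_le_add, inv_le_iff_one_le_mul₀ h7]
      have h11 : 0 ≤ p n ^ 2 * (1 - 2 * p n) := mul_nonneg (sq_nonneg _) (by linarith)
      nlinarith only [h11]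
    linarith
  rw [Real.rpow_def_of_pos hn, ← Real.rpow_natCast, Real.rpow_def_of_pos h7]
  apply Real.exp_le_exp.2
  have h9 : (t n : ℝ) * (p n * (1 + 2 * p n)) ≤ -β * Real.log n := by
    calc (t n : ℝ) * (p n * (1 + 2 * p n)) ≤ c * Real.log n / p n * (p n * (1 + 2 * p n)) :=
          mul_le_mul_of_nonneg_right h4 (by positivity)
      _ = (c * (1 + 2 * p n)) * Real.log n := by field_simp
      _ ≤ -β * Real.log n := by
        apply mul_le_mul_of_nonneg_right _ hL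
        have h12 : 2 * p n * c ≤ -β - c := by
          rw [div_div, le_div_iff₀ (by positivity)] at h6
          linarith
        linarith
  have h10 := mul_le_mul_of_nonneg_left h8 (Nat.cast_nonneg (α := ℝ) (t n))
  linarith

/-- The first term tends to zero. -/
lemma Regime.F1_asymp {l : Filter ℕ} {p : ℕ → ℝ} {x : ℝ} (R : Regime l p x) {c σ : ℝ}
    (hc0 : 0 < c) (hσ0 : 0 < σ) (hσ1 : σ + x < 1 - c) (t M : ℕ → ℕ)
    (ht : ∀ᶠ n : ℕ in l, (t n : ℝ) ≤ c * Real.log n / p n)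
    (hMu : UB l (fun n => (M n : ℝ)) σ) :
    Tendsto (fun n : ℕ => (n : ℝ) ^ t n *
      Real.exp (t n * M n - ((n : ℝ) - t n) * (1 - p n) ^ t n / 2)) l (𝓝 0) := by
  have hl := R.hl
  have hx0 := R.x0
  have hx1 := R.x1
  have htu : UB l (fun n => (t n : ℝ)) x := (R.logp_ub hc0.le).congr ht
  have e1 := R.one_sub_pow hc0 t ht
  have e2 : LB l (fun n => ((n : ℝ) - t n) * (1 - p n) ^ t n / 2) (1 - c) := by
    have e3 := ((LB_const hl (by norm_num : (0 : ℝ) < 1 / 4)).mul hl (LB_natCast hl)).mul hl e1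
    have e4 : LB l (fun n => ((n : ℝ) - t n) * (1 - p n) ^ t n / 2) (0 + 1 + -c) := by
      apply e3.congr
      have e5 := UB_le_LB htu ((LB_const hl (by norm_num : (0 : ℝ) < 1 / 2)).mul hl
        (LB_natCast hl)) (by linarith)
      filter_upwards [e5, e1.pos hl] with n h1 h2
      have h3 : (1 : ℝ) / 4 * n ≤ ((n : ℝ) - t n) / 2 := by linarith
      calc 1 / 4 * (n : ℝ) * (1 - p n) ^ t n ≤ ((n : ℝ) - t n) / 2 * (1 - p n) ^ t n :=
            mul_le_mul_of_nonneg_right h3 h2.le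
        _ = _ := by ring
    apply e4.mono; linarith
  have e3 : UB l (fun n => t n * Real.log n + t n * M n + Real.log n) (x + σ) := by
    have f1 := htu.mul hl (UB_log hl) (Eventually.of_forall fun n => Nat.cast_nonneg _)
      (Eventually.of_forall fun n => Real.log_natCast_nonneg n)
    have f2 := htu.mul hl hMu (Eventually.of_forall fun n => Nat.cast_nonneg _)
      (Eventually.of_forall fun n => Nat.cast_nonneg _)
    exact ((f1.mono (by linarith)).add hl f2).add hl ((UB_log hl).mono (by linarith))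
  have e4 := UB_le_LB e3 e2 (by linarith)
  apply tendsto_of_tendsto_of_tendsto_of_le_of_le' tendsto_const_nhds
    (rpow_tendsto_zero hl (by norm_num : (-1 : ℝ) < 0))
  · exact Eventually.of_forall fun n => by positivity
  · filter_upwards [e4, ev_ge hl 1] with n h1 h2
    have hn : (0 : ℝ) < n := by exact_mod_cast h2
    have h3 : (n : ℝ) ^ t n = Real.exp (t n * Real.log n) := by
      rw [Real.exp_nat_mul, Real.exp_log hn]
    rw [h3, ← Real.exp_add, Real.rpow_def_of_pos hn]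
    apply Real.exp_le_exp.2
    linarith

/-- The second term tends to zero. -/
lemma Regime.F2_asymp {l : Filter ℕ} {p : ℕ → ℝ} {x : ℝ} (R : Regime l p x) {σ : ℝ}
    (hσ0 : 0 < σ) (J : ℕ) (hJx : 3 ≤ J * x) (M : ℕ → ℕ)
    (hMl : LB l (fun n => (M n : ℝ)) σ) :
    Tendsto (fun n : ℕ => (n : ℝ) ^ J * (n * p n ^ J) ^ ((M n + 1) / 2)) l (𝓝 0) := by
  have hl := R.hl
  have e1 := (UB_natCast hl).mul hl (R.ub.pow hl R.nonneg J)
    (Eventually.of_forall fun n => Nat.cast_nonneg n) (R.nonneg.mono fun n h => pow_nonneg h _)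
  have e2 := UB_le_LB e1 (LB_rpow hl (-1)) (by linarith)
  have e3 := hMl.eventually_ge hl hσ0 (2 * (J + 1))
  apply tendsto_of_tendsto_of_tendsto_of_le_of_le' tendsto_const_nhds
    (rpow_tendsto_zero hl (by norm_num : (-1 : ℝ) < 0))
  · filter_upwards [R.nonneg] with n h1
    positivity
  · filter_upwards [e2, e3, ev_ge hl 1, R.nonneg] with n h1 h2 h3 h4
    have hn : (0 : ℝ) < n := by exact_mod_cast h3
    have hn1 : (1 : ℝ) ≤ n := by exact_mod_cast h3
    have h5 : J + 1 ≤ (M n + 1) / 2 := by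
      have : 2 * (J + 1) ≤ M n := by exact_mod_cast h2
      omega
    have h6 : (n : ℝ) ^ (-1 : ℝ) ≤ 1 := Real.rpow_le_one_of_one_le_of_nonpos hn1 (by norm_num)
    have h7 : 0 ≤ (n : ℝ) * p n ^ J := by positivity
    calc (n : ℝ) ^ J * (n * p n ^ J) ^ ((M n + 1) / 2) ≤
        (n : ℝ) ^ J * ((n : ℝ) ^ (-1 : ℝ)) ^ ((M n + 1) / 2) := by
          apply mul_le_mul_of_nonneg_left _ (by positivity)
          exact pow_le_pow_left₀ h7 h1 _
      _ ≤ (n : ℝ) ^ J * ((n : ℝ) ^ (-1 : ℝ)) ^ (J + 1) := by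
          apply mul_le_mul_of_nonneg_left _ (by positivity)
          exact pow_le_pow_of_le_one (by positivity) h6 h5
      _ = (n : ℝ) ^ (-1 : ℝ) := by
          rw [Real.rpow_neg_one, pow_succ, inv_pow]
          field_simp

/-- The exponent inequality in Janson's condition. -/
lemma expo_ineq {s j x u ε₁ : ℝ} (hj2 : 2 ≤ j) (hjs : j ≤ s) (hux : u ≤ x / 2) (hx : 0 ≤ x)
    (hε₁ : 0 ≤ ε₁) :
    u * (s - 1) + ε₁ ≤ (j - 1) * (s * x / 2 + u + ε₁ - x * j / 2) := by
  have f7 : (s - j) * u ≤ (s - j) * (x / 2) := mul_le_mul_of_nonneg_left hux (by linarith)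
  have f8 : 0 ≤ (s - j) * (x / 2) := mul_nonneg (by linarith) (by linarith)
  have f9 := mul_nonneg (by linarith : (0 : ℝ) ≤ j - 2) f8
  have f10 := mul_nonneg (by linarith : (0 : ℝ) ≤ j - 2) hε₁
  have f11 : (j - 1) * (s * x / 2 + u + ε₁ - x * j / 2) - (u * (s - 1) + ε₁) =
      (j - 2) * ((s - j) * (x / 2)) + ((s - j) * (x / 2) - (s - j) * u) + (j - 2) * ε₁ := by ring
  linarith

/-- Janson's condition. -/
lemma Regime.janson_cond {l : Filter ℕ} {p : ℕ → ℝ} {x : ℝ} (R : Regime l p x) (s : ℕ)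
    (hs : 4 ≤ s) {u ε₁ σ c₂ lam ε₂ : ℝ} (hux : u ≤ x / 2) (hε₁ : 0 < ε₁)
    (hσ : σ = s * x / 2 + u + ε₁) (hlamu : lam = u * ((s : ℝ) - 1)) (hε₂ : ε₂ < ε₁)
    (hc2 : 0 < c₂) (M : ℕ → ℕ) (hMl : LB l (fun n => (M n : ℝ)) σ) :
    ∀ᶠ n : ℕ in l, ∑ j ∈ Icc 2 s, 6 * Real.log n * (s : ℝ) ^ j /
        ((M n : ℝ) ^ (j - 1) * p n ^ (j.choose 2)) ≤ c₂ * (n : ℝ) ^ (-(lam + ε₂)) := by
  have hl := R.hl
  have hx0 := R.x0
  have f1 : UB l (fun n => ∑ j ∈ Icc 2 s, 6 * Real.log n * (s : ℝ) ^ j /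
    ((M n : ℝ) ^ (j - 1) * p n ^ (j.choose 2))) (-(lam + ε₁)) := by
    apply UB.sum hl
    · intro j hj
      rw [mem_Icc] at hj
      have hj2 : (2 : ℝ) ≤ j := by exact_mod_cast hj.1
      have hjs : (j : ℝ) ≤ s := by exact_mod_cast hj.2
      have f2 := ((UB_const hl 6).mul hl (UB_log hl) (Eventually.of_forall fun n => by norm_num)
        (Eventually.of_forall fun n => Real.log_natCast_nonneg n)).mul hl
        (UB_const hl ((s : ℝ) ^ j))
        (Eventually.of_forall fun n => mul_nonneg (by norm_num) (Real.log_natCast_nonneg n))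
        (Eventually.of_forall fun n => by positivity)
      have f3 := (hMl.pow hl (j - 1)).mul hl (R.lb.pow hl (j.choose 2))
      have f4 := f2.div hl f3 (Eventually.of_forall fun n => by
        have := Real.log_natCast_nonneg n
        positivity)
      apply f4.mono
      rw [Nat.cast_choose_two, Nat.cast_sub (by omega : 1 ≤ j)]
      push_cast
      have f5 := expo_ineq hj2 hjs hux hx0.le hε₁.le
      rw [← hlamu, ← hσ] at f5
      have f6 : ((j : ℝ) - 1) * (σ - x * j / 2) = ((j : ℝ) - 1) * σ + (j * (j - 1) / 2) * -x := by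
        ring
      rw [f6] at f5
      linarith
    · right; exact ⟨2, by rw [mem_Icc]; omega⟩
  have f2 := (LB_const hl hc2).mul hl (LB_rpow hl (-(lam + ε₂)))
  exact UB_le_LB f1 f2 (by rw [zero_add]; linarith)

/-- The numerical inequality for the second tail. -/
lemma second_ineq {s x u ε₁ σ ξ δ₂ L m lp lm : ℝ} (hσ : σ = s * x / 2 + u + ε₁) (hx1 : x < 1 / 3)
    (hs1 : 1 ≤ s * x) (hu0 : 0 ≤ u) (hε₁ : 0 ≤ ε₁) (hξ0 : 0 ≤ ξ) (hδ₂0 : 0 ≤ δ₂)
    (hsξ : s * ξ = 1 / 24) (hsδ₂ : s * δ₂ = 1 / 4) (hs4 : 4 ≤ s) (hL : 48 ≤ L) (hm : 145 ≤ m)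
    (hlp : (x - ξ) * L ≤ -lp) (hlm : σ * L ≤ lm) :
    m * (L + 1 - lm) - (-lp - δ₂ * L) * ((s - 1 / 2) * m) + 1 ≤ -(2 * L) := by
  have hm0 : 0 ≤ m := by linarith
  have hL0 : 0 ≤ L := by linarith
  have e1 : (x - ξ - δ₂) * L ≤ -lp - δ₂ * L := by linarith
  have e2 : (0 : ℝ) ≤ (s - 1 / 2) * m := mul_nonneg (by linarith) hm0
  have e3 := mul_le_mul_of_nonneg_right e1 e2
  have e4 : m * (L + 1 - lm) ≤ m * (L + 1 - σ * L) :=
    mul_le_mul_of_nonneg_left (by linarith) hm0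
  have e5 : 1 - σ - (x - ξ - δ₂) * (s - 1 / 2) ≤ -(1 / 24) := by
    have e6 : (x - ξ - δ₂) * (s - 1 / 2) = s * x - x / 2 - s * ξ + ξ / 2 - s * δ₂ + δ₂ / 2 := by
      ring
    rw [e6, hsξ, hsδ₂, hσ]
    linarith
  have e7 : m * (L + 1 - σ * L) - (x - ξ - δ₂) * L * ((s - 1 / 2) * m) =
      m * (1 + L * (1 - σ - (x - ξ - δ₂) * (s - 1 / 2))) := by ring
  have e8 : 1 + L * (1 - σ - (x - ξ - δ₂) * (s - 1 / 2)) ≤ -(L / 48) := by
    have := mul_le_mul_of_nonneg_left e5 hL0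
    linarith
  have e9 := mul_le_mul_of_nonneg_left e8 hm0
  have e11 : 145 * (L / 48) ≤ m * (L / 48) := mul_le_mul_of_nonneg_right hm (by linarith)
  linarith

/-- Janson's condition for all larger sizes. -/
lemma janson_num {s m M : ℕ} {p L c₂ y : ℝ} (hp : 0 < p) (hs : 4 ≤ s) (hm : M ≤ m) (hsM : s ≤ M)
    (hL : 0 ≤ L) (h13 : ∑ j ∈ Icc 2 s, 6 * L * (s : ℝ) ^ j /
        ((M : ℝ) ^ (j - 1) * p ^ (j.choose 2)) ≤ c₂ * y) :
    3 * m * L ≤ c₂ * (m : ℝ) ^ s * y / (2 * Th p s m) := by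
  have hM0 : (0 : ℝ) < M := by exact_mod_cast (by omega : 0 < M)
  have hm0 : (0 : ℝ) < m := by exact_mod_cast (by omega : 0 < m)
  have hMm : (M : ℝ) ≤ m := by exact_mod_cast hm
  have hTh := Th_pos hp s m (by omega) (by omega)
  rw [le_div_iff₀ (by positivity)]
  have e1 : 3 * m * L * (2 * Th p s m) = ∑ j ∈ Icc 2 s, (m : ℝ) ^ s *
      (6 * L * (s : ℝ) ^ j / ((m : ℝ) ^ (j - 1) * p ^ (j.choose 2))) := by
    unfold Th
    rw [mul_sum, mul_sum]
    apply sum_congr rfl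
    intro j hj
    rw [mem_Icc] at hj
    have e2 : (m : ℝ) ^ s = (m : ℝ) ^ (s - j) * (m : ℝ) ^ (j - 1) * m := by
      rw [mul_assoc, ← pow_succ, ← pow_add]; congr 1; omega
    rw [e2]
    have := pow_pos hp (j.choose 2)
    field_simp
    ring
  rw [e1, ← mul_sum]
  have e2 : ∑ j ∈ Icc 2 s, 6 * L * (s : ℝ) ^ j / ((m : ℝ) ^ (j - 1) * p ^ (j.choose 2)) ≤
      ∑ j ∈ Icc 2 s, 6 * L * (s : ℝ) ^ j / ((M : ℝ) ^ (j - 1) * p ^ (j.choose 2)) := by
    apply sum_le_sum
    intro j _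
    apply div_le_div_of_nonneg_left (by positivity)
      (mul_pos (pow_pos hM0 _) (pow_pos hp _))
    apply mul_le_mul_of_nonneg_right _ (pow_pos hp _).le
    exact pow_le_pow_left₀ hM0.le hMm _
  calc (m : ℝ) ^ s * ∑ j ∈ Icc 2 s, 6 * L * (s : ℝ) ^ j /
        ((m : ℝ) ^ (j - 1) * p ^ (j.choose 2)) ≤
      (m : ℝ) ^ s * (c₂ * y) :=
        mul_le_mul_of_nonneg_left (e2.trans h13) (by positivity)
    _ = c₂ * (m : ℝ) ^ s * y := by ring

theorem lower_asymp {l : Filter ℕ} {p : ℕ → ℝ} {x : ℝ} (R : Regime l p x) (s : ℕ) (hs : 4 ≤ s)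
    (hs1 : 1 ≤ s * x) (lam : ℝ) (hlam0 : 0 ≤ lam)
    (hlam1 : lam < ((s : ℝ) - 1) * x / 2)
    (hlam : ∀ δ > 0, ∀ᶠ n : ℕ in l, n * p n ^ s ≤ (lam + δ) * Real.log n) (c : ℝ)
    (hc0 : 0 < c) (hc : c < 1 - x * (1 + s / 2) - lam / ((s : ℝ) - 1)) :
    Tendsto (fun n => Pr (p n) (allE (Fin n))
      (fun E => (cliqueChromaticNumber (gr E) : ℝ) ≤ c * Real.log n / p n)) l (𝓝 0) := by
  have hl := R.hl
  have hx0 := R.x0
  have hx1 := R.x1
  have hs4 : (4 : ℝ) ≤ s := by exact_mod_cast hs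
  have hsm : (0 : ℝ) < (s : ℝ) - 1 := by linarith
  set u := lam / ((s : ℝ) - 1) with hu
  have hu0 : 0 ≤ u := by positivity
  have hlamu : lam = u * ((s : ℝ) - 1) := by rw [hu]; field_simp
  set Δ := ((s : ℝ) - 1) * (x / 2 - u) with hΔ
  have hΔ0 : 0 < Δ := by rw [hΔ]; nlinarith
  have hux : u < x / 2 := by
    by_contra h
    push Not at h
    have : Δ ≤ 0 := by rw [hΔ]; nlinarith
    linarith
  set η := 1 - x * (1 + s / 2) - u - c with hη
  have hη0 : 0 < η := by rw [hη]; linarith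
  set ε₁ := min (η / 2) (Δ / 4) with hε₁
  have hε₁0 : 0 < ε₁ := lt_min (by linarith) (by linarith)
  have hε₁η : ε₁ ≤ η / 2 := min_le_left _ _
  have hε₁Δ : ε₁ ≤ Δ / 4 := min_le_right _ _
  set ε₂ := ε₁ / 2 with hε₂
  have hε₂0 : 0 < ε₂ := by linarith
  set δ := Δ / (4 * s) with hδ
  have hδ0 : 0 < δ := by positivity
  have hsδ : s * δ = Δ / 4 := by rw [hδ]; field_simp
  set σ := s * x / 2 + u + ε₁ with hσ
  have hσ0 : 0 < σ := by rw [hσ]; positivity
  have hσx : 2 * x ≤ σ := by rw [hσ]; nlinarith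
  have hσ1 : σ + x < 1 - c := by rw [hσ, hη] at *; linarith
  set J : ℕ := ⌈3 / x⌉₊ with hJ
  have hJx : 3 ≤ J * x := by
    have := Nat.le_ceil (3 / x)
    rw [div_le_iff₀ hx0] at this
    exact this
  have hJ0 : 0 < J := by
    rw [hJ]; apply Nat.ceil_pos.2; positivity
  set g := 2 * J * (J + 1) with hg
  have hg0 : 0 < g := by positivity
  have hc2 := c2_pos s g (by omega) hg0
  set c₂ := c2 s g with hc₂
  set θ₀ := min 1 (c₂ / (8 / δ)) with hθ₀
  have hD0 : 0 < 8 / δ := by positivity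
  have hθ₀0 : 0 < θ₀ := lt_min one_pos (by positivity)
  have hθ₀1 : θ₀ ≤ 1 := min_le_left _ _
  have hθD : θ₀ ^ (s - 1) * (8 / δ) ≤ c₂ := by
    have e1 : θ₀ ^ (s - 1) ≤ θ₀ := by
      have := pow_le_pow_of_le_one hθ₀0.le hθ₀1 (by omega : 1 ≤ s - 1)
      simpa using this
    have e2 : θ₀ ≤ c₂ / (8 / δ) := min_le_right _ _
    calc θ₀ ^ (s - 1) * (8 / δ) ≤ c₂ / (8 / δ) * (8 / δ) :=
          mul_le_mul_of_nonneg_right (e1.trans e2) hD0.le
      _ = c₂ := by field_simp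
  set δ₂ : ℝ := 1 / (4 * s) with hδ₂
  have hδ₂0 : 0 < δ₂ := by positivity
  have hsδ₂ : s * δ₂ = 1 / 4 := by rw [hδ₂]; field_simp
  set ξ : ℝ := 1 / (24 * s) with hξ
  have hξ0 : 0 < ξ := by positivity
  have hsξ : s * ξ = 1 / 24 := by rw [hξ]; field_simp
  set ζ := min (1 / 2) (ε₂ / (2 * (6 * lam + 4))) with hζ
  have hζ0 : 0 < ζ := lt_min (by norm_num) (by positivity)
  have hζ1 : ζ ≤ 1 / 2 := min_le_left _ _
  have hζ2 : ζ * (6 * lam + 4) ≤ ε₂ / 2 := by
    have e1 : ζ ≤ ε₂ / (2 * (6 * lam + 4)) := min_le_right _ _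
    rw [le_div_iff₀ (by positivity)] at e1
    linarith
  set M : ℕ → ℕ := fun n => ⌈(n : ℝ) ^ σ⌉₊ with hM
  set t : ℕ → ℕ := fun n => ⌊c * Real.log n / p n⌋₊ with ht
  have hMu : UB l (fun n => (M n : ℝ)) σ :=
    UB_ceil hl (UB_rpow hl σ) hσ0.le (Eventually.of_forall fun n => by positivity)
  have hMl : LB l (fun n => (M n : ℝ)) σ := LB_ceil (LB_rpow hl σ)
  have hlp0 : ∀ᶠ n : ℕ in l, 0 ≤ c * Real.log n / p n := R.pos.mono fun n h => by
    have := Real.log_natCast_nonneg n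
    positivity
  have htu : UB l (fun n => (t n : ℝ)) x := by
    apply (R.logp_ub hc0.le).congr
    filter_upwards [hlp0] with n hn
    exact Nat.floor_le hn
  have htn : ∀ᶠ n : ℕ in l, t n ≤ n := by
    filter_upwards [UB_le_LB htu (LB_natCast hl) (by linarith)] with n hn
    exact_mod_cast hn
  -- upper bound for the largest size
  have hJM : UB l (fun n => (((J + 1) * M n : ℕ) : ℝ)) σ := by
    have e1 := (UB_const hl ((J + 1 : ℕ) : ℝ)).mul hl hMu
      (Eventually.of_forall fun n => Nat.cast_nonneg _)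
      (Eventually.of_forall fun n => Nat.cast_nonneg _)
    rw [zero_add] at e1
    apply e1.congr
    apply Eventually.of_forall
    intro n; push_cast; exact le_rfl
  have hσlt1 : σ < 1 := by linarith
  have hJMn : ∀ᶠ n : ℕ in l, (J + 1) * M n ≤ n := by
    filter_upwards [UB_le_LB hJM (LB_natCast hl) hσlt1] with n hn
    exact_mod_cast hn
  have htle : ∀ᶠ n : ℕ in l, (t n : ℝ) ≤ c * Real.log n / p n := by
    filter_upwards [hlp0] with n hn
    exact Nat.floor_le hn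
  have hF1 := R.F1_asymp hc0 hσ0 hσ1 t M htle hMu
  have hF2 := R.F2_asymp hσ0 J hJx M hMl
  -- conditions for the third term
  have hnum : ∀ᶠ n : ℕ in l, ∀ m ∈ Icc (M n) ((J + 1) * M n), ∀ C : Finset (Fin n), #C = m →
      (n.choose m : ℝ) * Pr (p n) (allE (Fin n)) (BadC s g C) ≤ 4 * Real.exp (-(2 * Real.log n)) := by
    -- F
    have g1 : UB l (fun n => (n : ℝ) ^ (s * δ + lam + ε₂) * p n ^ s / c₂)
        (s * δ + lam + ε₂ - s * x) := by
      have f1 := ((UB_rpow hl (s * δ + lam + ε₂)).mul hl (R.ub.pow hl R.nonneg s)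
        (Eventually.of_forall fun n => by positivity)
        (R.nonneg.mono fun n h => pow_nonneg h _)).div hl (LB_const hl hc2) (by
          filter_upwards [R.nonneg] with n h
          positivity)
      apply f1.mono; linarith
    have g1pos : ∀ᶠ n : ℕ in l, 0 < (n : ℝ) ^ (s * δ + lam + ε₂) * p n ^ s / c₂ := by
      filter_upwards [R.pos, ev_ge hl 1] with n h1 h2
      have hn : (0 : ℝ) < n := by exact_mod_cast h2
      positivity
    have hexpo : σ < s * x - (s * δ + lam + ε₂) := by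
      -- σ = s x/2 + u + ε₁
      rw [hσ, hsδ, hlamu]
      have : s * (x / 2 - u) = Δ + (x / 2 - u) := by rw [hΔ]; ring
      nlinarith
    have g2 := g1.eventually_le hl (by linarith) hζ0
    -- D₀
    have g3 : LB l (fun n => (n : ℝ) ^ δ * p n * M n) (δ + -x + σ) :=
      ((LB_rpow hl δ).mul hl R.lb).mul hl hMl
    have g4 := g3.eventually_ge hl (by linarith) (8 / δ)
    have g5 := UB_le_LB (UB_log hl) g3 (by linarith)
    have g6 := ev_log_ge hl (max 48 (max (4 / δ) (2 / (δ₂ * θ₀))))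
    have g7 := R.neglog (y := δ₂) (by nlinarith)
    have g8 := R.neglog (y := x - ξ) (by linarith)
    have g9 := UB_le_LB (UB_log hl) hMl hσ0
    have g10 := hMl.eventually_ge hl hσ0 (s + 145)
    have g11 := hlam ζ hζ0
    -- θ
    have g12 : ∀ᶠ n : ℕ in l, 3 * (((J + 1) * M n : ℕ) : ℝ) + 2 ≤
        ζ / 2 / ((n : ℝ) ^ (s * δ + lam + ε₂) * p n ^ s / c₂) * (ε₂ / 2) := by
      have f1 := ((UB_const hl 3).mul hl hJM (Eventually.of_forall fun n => by norm_num)
        (Eventually.of_forall fun n => Nat.cast_nonneg _)).add hl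
        ((UB_const hl 2).mono (by linarith : (0 : ℝ) ≤ 0 + σ))
      have f2 := (((LB_const hl (half_pos hζ0)).mul hl (g1.inv hl g1pos)).mul hl
        (LB_const hl (half_pos hε₂0)))
      filter_upwards [UB_le_LB f1 f2 (by linarith)] with n hn
      rw [mul_one_div] at hn
      exact hn
    -- Janson
    have g13 := R.janson_cond s hs hux.le hε₁0 hσ hlamu (by linarith : ε₂ < ε₁) hc2 M hMl
    filter_upwards [g1pos, g2, g4, g5, g6, g7, g8, g9, g10, g11, g12, g13, R.pos, R.le_one,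
      ev_ge hl 2] with n h1 h2 h4 h5 h6 h7 h8 h9 h10 h11 h12 h13 h14 h15 h16
    intro m hm C hC
    rw [mem_Icc] at hm
    have hn0 : (0 : ℝ) < n := by exact_mod_cast (by omega : 0 < n)
    have hn1 : (1 : ℝ) ≤ n := by exact_mod_cast (by omega : 1 ≤ n)
    have hMm : (M n : ℝ) ≤ m := by exact_mod_cast hm.1
    have hM0 : (0 : ℝ) < M n := by
      have : (0 : ℝ) ≤ s := Nat.cast_nonneg _
      linarith
    have hm0 : (0 : ℝ) < m := by linarith
    have hsM : s ≤ M n := by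
      have : (s : ℝ) ≤ M n := by linarith
      exact_mod_cast this
    set L := Real.log n with hL
    have hL48 : 48 ≤ L := (le_max_left _ _).trans h6
    have hLδ : 4 / δ ≤ L := ((le_max_left _ _).trans (le_max_right _ _)).trans h6
    have hLδ₂ : 2 / (δ₂ * θ₀) ≤ L := ((le_max_right _ _).trans (le_max_right _ _)).trans h6
    have hD0m : (n : ℝ) ^ δ * p n * M n ≤ (n : ℝ) ^ δ * p n * m :=
      mul_le_mul_of_nonneg_left hMm (by positivity)
    have hlogm : σ * L ≤ Real.log m := by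
      have e1 : (n : ℝ) ^ σ ≤ m := (Nat.le_ceil _).trans hMm
      have e2 := Real.log_le_log (by positivity) e1
      rw [Real.log_rpow hn0] at e2
      exact e2
    apply badC_num h16 h14 h15 s g m (by omega) hg0 (by omega) (lam := lam) (ε₂ := ε₂) (δ := δ)
      (δ₂ := δ₂) (θ₀ := θ₀) (ζ := ζ) (L := L) hL (by linarith) hlam0 hε₂0 hδ0 hδ₂0 hθ₀0 hζ0 hζ1
      hζ2 h2 (h4.trans hD0m) (h5.trans hD0m)
    · rw [div_le_iff₀ hδ0] at hLδ
      linarith
    · rw [div_le_iff₀ (by positivity)] at hLδ₂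
      linarith
    · exact h7
    · exact h9.trans hMm
    · exact hθD
    · -- the second term
      have e10 : (145 : ℝ) ≤ m := by
        have : (0 : ℝ) ≤ s := Nat.cast_nonneg _
        linarith
      exact second_ineq hσ hx1 hs1 hu0 hε₁0.le hξ0.le hδ₂0.le hsξ hsδ₂ hs4 hL48 e10 h8 hlogm
    · exact h11
    · have e1 : (m : ℝ) ≤ (((J + 1) * M n : ℕ) : ℝ) := by exact_mod_cast hm.2
      linarith
    · -- Janson
      exact janson_num h14 hs hm.1 hsM (by linarith) h13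
    · exact hC
  -- third term
  have hF3 : Tendsto (fun n : ℕ => (n : ℝ) * (4 * Real.exp (-(2 * Real.log n)))) l (𝓝 0) := by
    have e1 : Tendsto (fun n : ℕ => 4 * (n : ℝ) ^ (-1 : ℝ)) l (𝓝 0) := by
      have := (rpow_tendsto_zero hl (by norm_num : (-1 : ℝ) < 0)).const_mul 4
      simpa using this
    apply e1.congr'
    filter_upwards [ev_ge hl 1] with n h1
    have hn : (0 : ℝ) < n := by exact_mod_cast h1
    have e2 : Real.exp (-(2 * Real.log n)) = (n : ℝ) ^ (-1 : ℝ) * (n : ℝ) ^ (-1 : ℝ) := by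
      rw [Real.rpow_def_of_pos hn, ← Real.exp_add]; congr 1; ring
    rw [e2, Real.rpow_neg_one]
    field_simp
  have hsum : Tendsto (fun n : ℕ => (n : ℝ) ^ t n *
      Real.exp (t n * M n - ((n : ℝ) - t n) * (1 - p n) ^ t n / 2) +
      (n : ℝ) ^ J * (n * p n ^ J) ^ ((M n + 1) / 2) +
      (n : ℝ) * (4 * Real.exp (-(2 * Real.log n)))) l (𝓝 0) := by
    have := (hF1.add hF2).add hF3
    simpa using this
  apply tendsto_of_tendsto_of_tendsto_of_le_of_le' tendsto_const_nhds hsum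
  · filter_upwards [R.nonneg, R.le_one] with n h1 h2
    exact Pr_nonneg h1 h2 _ _
  · filter_upwards [R.nonneg, R.le_one, htn, hJMn, hnum, hlp0, ev_ge hl 1,
      hMl.eventually_ge hl hσ0 1] with n h1 h2 h3 h4 h5 h6 h7 h8
    have hM0 : 0 < M n := by
      have : 1 ≤ M n := by exact_mod_cast h8
      omega
    have hne : Nonempty (Fin n) := ⟨⟨0, by omega⟩⟩
    have e1 := lower_prob (V := Fin n) h1 h2 (t n) (M n) J s hM0 hJ0 (by omega) hne
      (by rw [Fintype.card_fin]; exact h3)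
      (fun m => 4 * Real.exp (-(2 * Real.log n)) / (n.choose m : ℝ)) (by
        intro m hm C hC
        beta_reduce
        have hmn : m ≤ n := (mem_Icc.1 hm).2.trans h4
        have hch : (0 : ℝ) < (n.choose m : ℝ) := by exact_mod_cast Nat.choose_pos hmn
        rw [le_div_iff₀ hch, mul_comm]
        exact h5 m hm C hC)
    rw [Fintype.card_fin] at e1
    have e2 : ∑ m ∈ Icc (M n) ((J + 1) * M n), (n.choose m : ℝ) *
        (4 * Real.exp (-(2 * Real.log n)) / (n.choose m : ℝ)) ≤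
        (n : ℝ) * (4 * Real.exp (-(2 * Real.log n))) := by
      calc ∑ m ∈ Icc (M n) ((J + 1) * M n), (n.choose m : ℝ) *
          (4 * Real.exp (-(2 * Real.log n)) / (n.choose m : ℝ)) =
          ∑ m ∈ Icc (M n) ((J + 1) * M n), (4 * Real.exp (-(2 * Real.log n))) := by
            apply sum_congr rfl
            intro m hm
            have hmn : m ≤ n := (mem_Icc.1 hm).2.trans h4
            have hch : (0 : ℝ) < (n.choose m : ℝ) := by exact_mod_cast Nat.choose_pos hmn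
            field_simp
        _ = #(Icc (M n) ((J + 1) * M n)) * (4 * Real.exp (-(2 * Real.log n))) := by
            rw [sum_const, nsmul_eq_mul]
        _ ≤ _ := by
            apply mul_le_mul_of_nonneg_right _ (by positivity)
            rw [Nat.card_Icc]
            have : (J + 1) * M n + 1 - M n ≤ n := by omega
            exact_mod_cast this
    refine le_trans (Pr_mono h1 h2 _ ?_) (e1.trans (add_le_add le_rfl e2))
    intro E _ hE
    refine ⟨cliqueChromaticNumber (gr E), ?_, chi_mem n (gr E)⟩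
    exact Nat.le_floor hE

end Pool.Agent.H94.CC
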