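import Mathlib
import Pool.Agent.H94.CC.LowerAsymp
import Pool.Agent.H94.CC.Formula

set_option linter.unusedSectionVars false

open Filter Topology Finset

namespace Pool.Agent.H94.CC

/-- The terms of the supremum. -/
noncomputable def aT (n : ℕ) (p : ℝ) (s : ℕ) : ℝ :=
  Real.log ((n : ℝ) * p ^ (1 + (s : ℝ) / 2)) - (n : ℝ) * p ^ s / ((s : ℝ) - 1)

lemma aT_eq {n : ℕ} (hn : 1 ≤ n) {p : ℝ} (hp : 0 < p) (s : ℕ) :
    aT n p s = Real.log n + (1 + (s : ℝ) / 2) * Real.log p - (n : ℝ) * p ^ s / ((s : ℝ) - 1) := by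
  have hn' : (0 : ℝ) < n := by exact_mod_cast hn
  unfold aT
  rw [Real.log_mul hn'.ne' (by positivity), Real.log_rpow hp]

lemma aT_bdd {n : ℕ} (hn : 1 ≤ n) {p : ℝ} (hp : 0 < p) (hp1 : p ≤ 1) :
    BddAbove (Set.range fun s : {s : ℕ // 2 ≤ s} => aT n p s.1) := by
  refine ⟨Real.log n, ?_⟩
  rintro _ ⟨⟨s, hs⟩, rfl⟩
  show aT n p s ≤ _
  rw [aT_eq hn hp]
  have h1 : Real.log p ≤ 0 := Real.log_nonpos hp.le hp1
  have h2 : (2 : ℝ) ≤ s := by exact_mod_cast hs
  have h3 : 0 ≤ (n : ℝ) * p ^ s / ((s : ℝ) - 1) := by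
    apply div_nonneg (by positivity); linarith
  have h4 : (1 + (s : ℝ) / 2) * Real.log p ≤ 0 :=
    mul_nonpos_of_nonneg_of_nonpos (by linarith) h1
  linarith

lemma le_sup {n : ℕ} (hn : 1 ≤ n) {p : ℝ} (hp : 0 < p) (hp1 : p ≤ 1) (s : ℕ) (hs : 2 ≤ s) :
    aT n p s ≤ ⨆ s : {s : ℕ // 2 ≤ s}, aT n p s.1 :=
  le_ciSup (aT_bdd hn hp hp1) (⟨s, hs⟩ : {s : ℕ // 2 ≤ s})

lemma sup_le_of {n : ℕ} {p b : ℝ} (h : ∀ s : ℕ, 2 ≤ s → aT n p s ≤ b) :
    ⨆ s : {s : ℕ // 2 ≤ s}, aT n p s.1 ≤ b := by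
  have : Nonempty {s : ℕ // 2 ≤ s} := ⟨⟨2, le_rfl⟩⟩
  exact ciSup_le fun s => h s.1 s.2

/-- `-log p ≤ y log n`. -/
lemma Regime.neglog' {l : Filter ℕ} {p : ℕ → ℝ} {x : ℝ} (R : Regime l p x) {y : ℝ} (hy : x < y) :
    ∀ᶠ n : ℕ in l, -Real.log (p n) ≤ y * Real.log n := by
  filter_upwards [R.lb (-y) (by linarith), ev_ge R.hl 1] with n h1 h3
  have hn : (0 : ℝ) < n := by exact_mod_cast h3
  have h4 := Real.log_le_log (by positivity) h1
  rw [Real.log_rpow hn] at h4
  linarith

/-- The data extracted from the ultrafilter. -/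
structure Data (l : Filter ℕ) (p : ℕ → ℝ) (x : ℝ) (s : ℕ) (lam : ℝ) : Prop where
  R : Regime l p x
  hs : 4 ≤ s
  hs1 : 1 ≤ s * x
  hs2 : ((s : ℝ) - 1) * x < 1
  hlam0 : 0 ≤ lam
  hlam1 : lam ≤ ((s : ℝ) - 1) * x / 2
  hlow : ∀ δ > 0, ∀ᶠ n : ℕ in l, (lam - δ) * Real.log n ≤ n * p n ^ s
  hdich : (lam < ((s : ℝ) - 1) * x / 2 ∧
    ∀ δ > 0, ∀ᶠ n : ℕ in l, n * p n ^ s ≤ (lam + δ) * Real.log n) ∨
    lam = ((s : ℝ) - 1) * x / 2
  hcs : 0 < 1 - x * (1 + s / 2) - lam / ((s : ℝ) - 1)

lemma Data.sup_upper {l : Filter ℕ} {p : ℕ → ℝ} {x lam : ℝ} {s : ℕ} (D : Data l p x s lam)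
    {δ : ℝ} (hδ : 0 < δ) :
    ∀ᶠ n : ℕ in l, ⨆ s : {s : ℕ // 2 ≤ s}, aT n (p n) s.1 ≤
      (1 - x * (1 + s / 2) - lam / ((s : ℝ) - 1) + δ) * Real.log n := by
  have hl := D.R.hl
  have hx0 := D.R.x0
  have hs4 : (4 : ℝ) ≤ s := by exact_mod_cast D.hs
  have hsm : (0 : ℝ) < (s : ℝ) - 1 := by linarith
  have hcs := D.hcs
  set δ' := δ / (s + 2) with hδ'
  have hδ'0 : 0 < δ' := by positivity
  have hδδ : δ' * (s + 2) = δ := by rw [hδ']; field_simp
  have hu1 : lam / ((s : ℝ) - 1) ≤ x / 2 := by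
    rw [div_le_iff₀ hsm]; have := D.hlam1; linarith
  -- many common neighbours for s - 1
  have e1 : LB l (fun n => (n : ℝ) * p n ^ (s - 1)) (1 - ((s : ℝ) - 1) * x) := by
    have e2 := (LB_natCast hl).mul hl (D.R.lb.pow hl (s - 1))
    rw [Nat.cast_sub (by have := D.hs; omega : 1 ≤ s)] at e2
    apply e2.mono
    push_cast; linarith
  have e2 := (UB_const hl (s : ℝ)).mul hl (UB_log hl)
      (Eventually.of_forall fun n => Nat.cast_nonneg s)
      (Eventually.of_forall fun n => Real.log_natCast_nonneg n)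
  have e3 := UB_le_LB e2 e1 (by have := D.hs2; linarith)
  filter_upwards [e3, D.hlow δ' hδ'0, D.R.neglog (y := x - δ') (by linarith), D.R.pos, D.R.le_one,
    ev_ge hl 1] with n h1 h2 h3 h4 h5 h6
  have hL : 0 ≤ Real.log n := Real.log_natCast_nonneg n
  have hn : (0 : ℝ) < n := by exact_mod_cast h6
  have hlogp : Real.log (p n) ≤ 0 := Real.log_nonpos h4.le h5
  apply sup_le_of
  intro k hk
  rw [aT_eq h6 h4]
  have hk2 : (2 : ℝ) ≤ k := by exact_mod_cast hk
  have hkp : 0 ≤ (n : ℝ) * p n ^ k / ((k : ℝ) - 1) := by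
    apply div_nonneg (by positivity); linarith
  rcases lt_trichotomy k s with hks | hks | hks
  · -- small k
    have hks' : (k : ℝ) ≤ (s : ℝ) - 1 := by
      have : k + 1 ≤ s := hks
      have : ((k + 1 : ℕ) : ℝ) ≤ s := by exact_mod_cast this
      push_cast at this; linarith
    have f1 : (n : ℝ) * p n ^ (s - 1) / s ≤ (n : ℝ) * p n ^ k / ((k : ℝ) - 1) := by
      apply div_le_div₀ (by positivity) _ (by linarith) (by linarith)
      apply mul_le_mul_of_nonneg_left _ hn.le
      exact pow_le_pow_of_le_one h4.le h5 (by omega)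
    have f2 : Real.log n ≤ (n : ℝ) * p n ^ (s - 1) / s := by
      rw [le_div_iff₀ (by linarith)]; linarith
    have f3 : (1 + (k : ℝ) / 2) * Real.log (p n) ≤ 0 :=
      mul_nonpos_of_nonneg_of_nonpos (by linarith) hlogp
    have f4 : 0 ≤ (1 - x * (1 + s / 2) - lam / ((s : ℝ) - 1) + δ) * Real.log n :=
      mul_nonneg (by linarith) hL
    linarith
  · subst hks
    have f1 : (lam - δ') * Real.log n / ((k : ℝ) - 1) ≤ (n : ℝ) * p n ^ k / ((k : ℝ) - 1) :=
      div_le_div_of_nonneg_right h2 hsm.le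
    have f2 : (1 + (k : ℝ) / 2) * Real.log (p n) ≤ (1 + (k : ℝ) / 2) * -((x - δ') * Real.log n) :=
      mul_le_mul_of_nonneg_left (by linarith) (by linarith)
    have f3 : (lam - δ') * Real.log n / ((k : ℝ) - 1) =
        (lam / ((k : ℝ) - 1)) * Real.log n - δ' / ((k : ℝ) - 1) * Real.log n := by ring
    have f4 : δ' / ((k : ℝ) - 1) ≤ δ' := div_le_self hδ'0.le (by linarith)
    have f5 : δ' / ((k : ℝ) - 1) * Real.log n ≤ δ' * Real.log n := mul_le_mul_of_nonneg_right f4 hL
    have f6 : (1 + (k : ℝ) / 2) * δ' + δ' ≤ δ := by nlinarith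
    have f7 := mul_le_mul_of_nonneg_right f6 hL
    linarith
  · have hks' : (s : ℝ) + 1 ≤ k := by exact_mod_cast hks
    have f1 : (1 + (k : ℝ) / 2) * Real.log (p n) ≤ (1 + ((s : ℝ) + 1) / 2) * Real.log (p n) :=
      mul_le_mul_of_nonpos_right (by linarith) hlogp
    have f2 : (1 + ((s : ℝ) + 1) / 2) * Real.log (p n) ≤
        (1 + ((s : ℝ) + 1) / 2) * -((x - δ') * Real.log n) :=
      mul_le_mul_of_nonneg_left (by linarith) (by linarith)
    have f6 : 1 - (1 + ((s : ℝ) + 1) / 2) * (x - δ') ≤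
        1 - x * (1 + s / 2) - lam / ((s : ℝ) - 1) + δ := by nlinarith
    have f7 := mul_le_mul_of_nonneg_right f6 hL
    linarith

lemma Data.sup_lower {l : Filter ℕ} {p : ℕ → ℝ} {x lam : ℝ} {s : ℕ} (D : Data l p x s lam)
    {δ : ℝ} (hδ : 0 < δ) :
    ∀ᶠ n : ℕ in l, (1 - x * (1 + s / 2) - lam / ((s : ℝ) - 1) - δ) * Real.log n ≤
      ⨆ s : {s : ℕ // 2 ≤ s}, aT n (p n) s.1 := by
  have hl := D.R.hl
  have hx0 := D.R.x0
  have hs4 : (4 : ℝ) ≤ s := by exact_mod_cast D.hs
  have hsm : (0 : ℝ) < (s : ℝ) - 1 := by linarith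
  set δ' := δ / (s + 3) with hδ'
  have hδ'0 : 0 < δ' := by positivity
  have hδδ : δ' * (s + 3) = δ := by rw [hδ']; field_simp
  rcases D.hdich with ⟨_, hup⟩ | heq
  · filter_upwards [hup δ' hδ'0, D.R.neglog' (y := x + δ') (by linarith), D.R.pos, D.R.le_one,
      ev_ge hl 1] with n h2 h3 h4 h5 h6
    have hL : 0 ≤ Real.log n := Real.log_natCast_nonneg n
    refine le_trans ?_ (le_sup h6 h4 h5 s (by have := D.hs; omega))
    rw [aT_eq h6 h4]
    have f1 : (n : ℝ) * p n ^ s / ((s : ℝ) - 1) ≤ (lam + δ') * Real.log n / ((s : ℝ) - 1) :=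
      div_le_div_of_nonneg_right h2 hsm.le
    have f2 : (1 + (s : ℝ) / 2) * -((x + δ') * Real.log n) ≤ (1 + (s : ℝ) / 2) * Real.log (p n) :=
      mul_le_mul_of_nonneg_left (by linarith) (by linarith)
    have f3 : (lam + δ') * Real.log n / ((s : ℝ) - 1) =
        (lam / ((s : ℝ) - 1)) * Real.log n + δ' / ((s : ℝ) - 1) * Real.log n := by ring
    have f4 : δ' / ((s : ℝ) - 1) ≤ δ' := div_le_self hδ'0.le (by linarith)
    have f5 : δ' / ((s : ℝ) - 1) * Real.log n ≤ δ' * Real.log n := mul_le_mul_of_nonneg_right f4 hL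
    have f6 : (1 + (s : ℝ) / 2) * δ' + δ' ≤ δ := by nlinarith
    have f7 := mul_le_mul_of_nonneg_right f6 hL
    linarith
  · have e1 := (UB_natCast hl).mul hl (D.R.ub.pow hl D.R.nonneg (s + 1))
      (Eventually.of_forall fun n => Nat.cast_nonneg n)
      (D.R.nonneg.mono fun n h => pow_nonneg h _)
    have e2 := e1.eventually_le hl (by
      have := D.hs1
      push_cast; nlinarith) hδ'0
    filter_upwards [e2, D.R.neglog' (y := x + δ') (by linarith), D.R.pos, D.R.le_one,
      ev_ge hl 1, ev_log_ge hl 1] with n h2 h3 h4 h5 h6 h7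
    have hL : 0 ≤ Real.log n := by linarith
    refine le_trans ?_ (le_sup h6 h4 h5 (s + 1) (by have := D.hs; omega))
    rw [aT_eq h6 h4]
    push_cast
    have f1 : (n : ℝ) * p n ^ (s + 1) / ((s : ℝ) + 1 - 1) ≤ δ' * Real.log n := by
      have g1 : (n : ℝ) * p n ^ (s + 1) / ((s : ℝ) + 1 - 1) ≤ (n : ℝ) * p n ^ (s + 1) :=
        div_le_self (by positivity) (by linarith)
      have g2 : δ' ≤ δ' * Real.log n := le_mul_of_one_le_right hδ'0.le h7
      linarith
    have f2 : (1 + ((s : ℝ) + 1) / 2) * -((x + δ') * Real.log n) ≤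
        (1 + ((s : ℝ) + 1) / 2) * Real.log (p n) :=
      mul_le_mul_of_nonneg_left (by linarith) (by linarith)
    have f3 : lam / ((s : ℝ) - 1) = x / 2 := by
      rw [heq]; field_simp
    rw [f3]
    have f6 : (1 + ((s : ℝ) + 1) / 2) * δ' + δ' ≤ δ := by nlinarith
    have f7 := mul_le_mul_of_nonneg_right f6 hL
    linarith

/-- The probability of the good event tends to one along `l`. -/
theorem Data.main {l : Filter ℕ} {p : ℕ → ℝ} {x lam : ℝ} {s : ℕ} (D : Data l p x s lam)
    {η : ℝ} (hη : 0 < η) :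
    Tendsto (fun n => Pr (p n) (allE (Fin n)) (fun E =>
      |(cliqueChromaticNumber (gr E) : ℝ) - (⨆ s : {s : ℕ // 2 ≤ s}, aT n (p n) s.1) / p n| ≤
        η * ((⨆ s : {s : ℕ // 2 ≤ s}, aT n (p n) s.1) / p n))) l (𝓝 1) := by
  have hl := D.R.hl
  have hx0 := D.R.x0
  have hs4 : (4 : ℝ) ≤ s := by exact_mod_cast D.hs
  have hsm : (0 : ℝ) < (s : ℝ) - 1 := by linarith
  set cs := 1 - x * (1 + s / 2) - lam / ((s : ℝ) - 1) with hcs
  have hcs0 : 0 < cs := D.hcs
  set ε := min (cs / 2) (η * cs / 4) with hε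
  have hε0 : 0 < ε := lt_min (by linarith) (by positivity)
  have hε1 : ε ≤ cs / 2 := min_le_left _ _
  have hε2 : ε ≤ η * cs / 4 := min_le_right _ _
  have hu := upper_asymp D.R s D.hs D.hs1 D.hs2 lam D.hlam0 D.hlam1 D.hlow (cs + ε) D.hcs
    (by rw [← hcs]; linarith)
  have hlo : Tendsto (fun n => Pr (p n) (allE (Fin n))
      (fun E => (cliqueChromaticNumber (gr E) : ℝ) ≤ (cs - ε) * Real.log n / p n)) l (𝓝 0) := by
    rcases D.hdich with ⟨hlt, hup⟩ | heq
    · exact lower_asymp D.R s D.hs D.hs1 lam D.hlam0 hlt hup (cs - ε) (by linarith)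
        (by rw [← hcs]; linarith)
    · apply lower_asymp D.R (s + 1) (by have := D.hs; omega)
        (by have := D.hs1; push_cast; nlinarith) 0 le_rfl (by push_cast; nlinarith) _ (cs - ε)
        (by linarith)
      · push_cast
        have f3 : lam / ((s : ℝ) - 1) = x / 2 := by
          rw [heq]; field_simp
        rw [zero_div, hcs, f3]
        linarith
      · intro δ hδ
        have e1 := (UB_natCast hl).mul hl (D.R.ub.pow hl D.R.nonneg (s + 1))
          (Eventually.of_forall fun n => Nat.cast_nonneg n)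
          (D.R.nonneg.mono fun n h => pow_nonneg h _)
        have e2 := e1.eventually_le hl (by
          have := D.hs1
          push_cast; nlinarith) hδ
        filter_upwards [e2, ev_log_ge hl 1] with n h2 h7
        have g2 : δ ≤ δ * Real.log n := le_mul_of_one_le_right hδ.le h7
        linarith
  have hlim : Tendsto (fun n => 1 - (Pr (p n) (allE (Fin n))
      (fun E => (cs + ε) * Real.log n / p n < cliqueChromaticNumber (gr E)) +
      Pr (p n) (allE (Fin n))
      (fun E => (cliqueChromaticNumber (gr E) : ℝ) ≤ (cs - ε) * Real.log n / p n))) l (𝓝 1) := by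
    have := (hu.add hlo).const_sub 1
    simpa using this
  apply tendsto_of_tendsto_of_tendsto_of_le_of_le' hlim tendsto_const_nhds
  · filter_upwards [D.sup_upper hε0, D.sup_lower hε0, D.R.pos, D.R.le_one, ev_log_ge hl 1]
      with n h1 h2 h3 h4 h5
    rw [← hcs] at h1 h2
    set A := ⨆ s : {s : ℕ // 2 ≤ s}, aT n (p n) s.1 with hA
    have e1 := Pr_or h3.le h4 (allE (Fin n))
      (fun E => (cs + ε) * Real.log n / p n < cliqueChromaticNumber (gr E))
      (fun E => (cliqueChromaticNumber (gr E) : ℝ) ≤ (cs - ε) * Real.log n / p n)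
    have e2 : 1 - Pr (p n) (allE (Fin n)) (fun E =>
      |(cliqueChromaticNumber (gr E) : ℝ) - A / p n| ≤ η * (A / p n)) ≤
      Pr (p n) (allE (Fin n)) (fun E =>
        (cs + ε) * Real.log n / p n < cliqueChromaticNumber (gr E) ∨
        (cliqueChromaticNumber (gr E) : ℝ) ≤ (cs - ε) * Real.log n / p n) := by
      rw [← Pr_not]
      apply Pr_mono h3.le h4
      intro E _ hE
      by_contra hcon
      push Not at hcon
      apply hE
      obtain ⟨g1, g2⟩ := hcon
      set χ := (cliqueChromaticNumber (gr E) : ℝ) with hχ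
      have g3 : A / p n ≤ (cs + ε) * Real.log n / p n := div_le_div_of_nonneg_right h1 h3.le
      have g4 : (cs - ε) * Real.log n / p n ≤ A / p n := div_le_div_of_nonneg_right h2 h3.le
      have g5 : (cs + ε) * Real.log n / p n - (cs - ε) * Real.log n / p n =
          2 * ε * (Real.log n / p n) := by ring
      have g6 : 0 ≤ Real.log n / p n := by
        apply div_nonneg _ h3.le; linarith
      have g7 : 2 * ε * (Real.log n / p n) ≤ η * ((cs - ε) * Real.log n / p n) := by
        have g8 : 2 * ε ≤ η * (cs - ε) := by nlinarith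
        have g9 := mul_le_mul_of_nonneg_right g8 g6
        calc 2 * ε * (Real.log n / p n) ≤ η * (cs - ε) * (Real.log n / p n) := g9
          _ = _ := by ring
      have g8 : η * ((cs - ε) * Real.log n / p n) ≤ η * (A / p n) :=
        mul_le_mul_of_nonneg_left g4 hη.le
      rw [abs_le]
      constructor
      · linarith
      · linarith
    linarith
  · filter_upwards [D.R.pos, D.R.le_one] with n h3 h4
    exact Pr_le_one h3.le h4 _ _

/-- Extraction of the data along an ultrafilter. -/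
theorem exists_data (u : Ultrafilter ℕ) (hu : (u : Filter ℕ) ≤ atTop) (p : ℕ → ℝ) (ε : ℝ)
    (hε : 0 < ε) (hlow : ∀ᶠ n : ℕ in atTop, (n : ℝ) ^ (-(1 / 3) + ε) ≤ p n)
    (hup : ∀ᶠ n : ℕ in atTop, p n ≤ (n : ℝ) ^ (-ε)) :
    ∃ x s lam, Data (u : Filter ℕ) p x s lam := by
  have hlow' := hu hlow
  have hup' := hu hup
  have hl := hu
  -- the exponent
  set X : ℕ → ℝ := fun n => -Real.log (p n) / Real.log n with hX
  have hXmem : ∀ᶠ n : ℕ in (u : Filter ℕ), X n ∈ Set.Icc ε (1 / 3 - ε) := by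
    filter_upwards [hlow', hup', ev_ge hl 2] with n h1 h2 h3
    have hn : (0 : ℝ) < n := by exact_mod_cast (by omega : 0 < n)
    have hn1 : (1 : ℝ) < n := by exact_mod_cast (by omega : 1 < n)
    have hL : 0 < Real.log n := Real.log_pos hn1
    have hp : 0 < p n := lt_of_lt_of_le (by positivity) h1
    have e1 := Real.log_le_log (by positivity) h1
    have e2 := Real.log_le_log hp h2
    rw [Real.log_rpow hn] at e1 e2
    simp only [hX]
    rw [Set.mem_Icc, le_div_iff₀ hL, div_le_iff₀ hL]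
    constructor <;> linarith
  obtain ⟨x, hx, hXx⟩ := isCompact_Icc.ultrafilter_le_nhds (u.map X) (by
    rw [le_principal_iff]; exact hXmem)
  have hXt : Tendsto X (u : Filter ℕ) (𝓝 x) := hXx
  have hx0 : 0 < x := hε.trans_le hx.1
  have hx1 : x < 1 / 3 := by have := hx.2; linarith
  have hpos : ∀ᶠ n : ℕ in (u : Filter ℕ), 0 < p n := by
    filter_upwards [hlow', ev_ge hl 1] with n h1 h3
    have hn : (0 : ℝ) < n := by exact_mod_cast h3
    exact lt_of_lt_of_le (by positivity) h1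
  have hle : ∀ᶠ n : ℕ in (u : Filter ℕ), p n ≤ 1 := by
    filter_upwards [hup', ev_ge hl 1] with n h1 h3
    have hn : (1 : ℝ) ≤ n := by exact_mod_cast h3
    exact h1.trans (Real.rpow_le_one_of_one_le_of_nonpos hn (by linarith))
  have R : Regime (u : Filter ℕ) p x := by
    refine ⟨hl, hpos, hle, hx0, hx1, ?_, ?_⟩
    · intro β hβ
      have e1 : ∀ᶠ n : ℕ in (u : Filter ℕ), -β < X n := hXt.eventually (lt_mem_nhds (by linarith))
      filter_upwards [e1, hpos, ev_ge hl 2] with n h1 h2 h3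
      have hn : (0 : ℝ) < n := by exact_mod_cast (by omega : 0 < n)
      have hn1 : (1 : ℝ) < n := by exact_mod_cast (by omega : 1 < n)
      have hL : 0 < Real.log n := Real.log_pos hn1
      simp only [hX] at h1
      rw [lt_div_iff₀ hL] at h1
      rw [← Real.log_le_log_iff h2 (by positivity), Real.log_rpow hn]
      linarith
    · intro β hβ
      have e1 : ∀ᶠ n : ℕ in (u : Filter ℕ), X n < -β := hXt.eventually (gt_mem_nhds (by linarith))
      filter_upwards [e1, hpos, ev_ge hl 2] with n h1 h2 h3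
      have hn : (0 : ℝ) < n := by exact_mod_cast (by omega : 0 < n)
      have hn1 : (1 : ℝ) < n := by exact_mod_cast (by omega : 1 < n)
      have hL : 0 < Real.log n := Real.log_pos hn1
      simp only [hX] at h1
      rw [div_lt_iff₀ hL] at h1
      rw [← Real.log_le_log_iff (by positivity) h2, Real.log_rpow hn]
      linarith
  -- the clique size
  set s : ℕ := ⌈1 / x⌉₊ with hs
  have hs1 : 1 ≤ s * x := by
    have := Nat.le_ceil (1 / x)
    rw [div_le_iff₀ hx0] at this
    exact this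
  have hs2 : ((s : ℝ) - 1) * x < 1 := by
    have := Nat.ceil_lt_add_one (by positivity : 0 ≤ 1 / x)
    have e1 : (s : ℝ) - 1 < 1 / x := by linarith
    rw [lt_div_iff₀ hx0] at e1
    exact e1
  have hs4 : 4 ≤ s := by
    have e1 : (3 : ℝ) < s := by
      by_contra h
      push Not at h
      nlinarith
    have : 3 < s := by exact_mod_cast e1
    omega
  have hs4' : (4 : ℝ) ≤ s := by exact_mod_cast hs4
  -- the window parameter
  set B := ((s : ℝ) - 1) * x / 2 with hB
  have hB0 : 0 < B := by rw [hB]; nlinarith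
  set Y : ℕ → ℝ := fun n => min (n * p n ^ s / Real.log n) B with hY
  have hYmem : ∀ᶠ n : ℕ in (u : Filter ℕ), Y n ∈ Set.Icc 0 B := by
    filter_upwards [hpos] with n h1
    have hL : 0 ≤ Real.log n := Real.log_natCast_nonneg n
    exact ⟨le_min (by positivity) hB0.le, min_le_right _ _⟩
  obtain ⟨lam, hlam, hYl⟩ := isCompact_Icc.ultrafilter_le_nhds (u.map Y) (by
    rw [le_principal_iff]; exact hYmem)
  have hYt : Tendsto Y (u : Filter ℕ) (𝓝 lam) := hYl
  refine ⟨x, s, lam, ⟨R, hs4, hs1, hs2, hlam.1, hlam.2, ?_, ?_, ?_⟩⟩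
  · intro δ hδ
    have e1 : ∀ᶠ n : ℕ in (u : Filter ℕ), lam - δ < Y n :=
      hYt.eventually (lt_mem_nhds (by linarith))
    filter_upwards [e1, ev_log_ge hl 1] with n h1 h2
    have h3 : lam - δ < n * p n ^ s / Real.log n := h1.trans_le (min_le_left _ _)
    rw [lt_div_iff₀ (by linarith)] at h3
    exact h3.le
  · rcases lt_or_eq_of_le hlam.2 with hlt | heq
    · left
      refine ⟨hlt, fun δ hδ => ?_⟩
      have e1 : ∀ᶠ n : ℕ in (u : Filter ℕ), Y n < min B (lam + δ) :=
        hYt.eventually (gt_mem_nhds (lt_min hlt (by linarith)))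
      filter_upwards [e1, ev_log_ge hl 1] with n h1 h2
      have h3 : Y n < B := h1.trans_le (min_le_left _ _)
      have h4 : Y n < lam + δ := h1.trans_le (min_le_right _ _)
      have h5 : Y n = n * p n ^ s / Real.log n := by
        simp only [hY] at h3 ⊢
        rcases min_choice ((n : ℝ) * p n ^ s / Real.log n) B with h | h
        · exact h
        · rw [h] at h3; exact absurd h3 (lt_irrefl _)
      rw [h5, div_lt_iff₀ (by linarith)] at h4
      exact h4.le
    · right; exact heq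
  · -- positivity of the constant
    have hsm : (0 : ℝ) < (s : ℝ) - 1 := by linarith
    rcases lt_or_eq_of_le hs1 with hlt | heq
    · -- lam = 0
      have e1 := (UB_natCast hl).mul hl (R.ub.pow hl R.nonneg s)
        (Eventually.of_forall fun n => Nat.cast_nonneg n)
        (R.nonneg.mono fun n h => pow_nonneg h _)
      have e2 : Tendsto (fun n : ℕ => (n : ℝ) * p n ^ s) (u : Filter ℕ) (𝓝 0) :=
        e1.tendsto_zero hl (R.nonneg.mono fun n h => by positivity) (by linarith)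
      have e3 : Tendsto Y (u : Filter ℕ) (𝓝 0) := by
        apply tendsto_of_tendsto_of_tendsto_of_le_of_le' tendsto_const_nhds e2
        · exact hYmem.mono fun n h => h.1
        · filter_upwards [ev_log_ge hl 1, hpos] with n h1 h2
          refine (min_le_left _ _).trans ?_
          exact div_le_self (by positivity) h1
      have hlam0 : lam = 0 := tendsto_nhds_unique hYt e3
      rw [hlam0, zero_div, sub_zero]
      have : x * (1 + s / 2) ≤ ((s : ℝ) - 1) * x := by nlinarith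
      linarith
    · have e1 : lam / ((s : ℝ) - 1) ≤ x / 2 := by
        rw [div_le_iff₀ hsm]
        have := hlam.2
        rw [hB] at this
        linarith
      have e2 : x * (1 + s / 2) = x + 1 / 2 := by
        have : x * (1 + s / 2) = x + s * x / 2 := by ring
        rw [this, ← heq]
      rw [e2]
      linarith

end Pool.Agent.H94.CC
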